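import Pool.Agent.Work.MP_118406_hc.Interface

set_option autoImplicit false

/-!
# Block ALX: the Alexander trick
-/

open scoped InnerProductSpace ComplexConjugate Topology unitInterval
open Set Filter Pool.SI

noncomputable section

namespace Pool.HC

/-- The isotopy on the real numbers. -/
def ALX_F (Z : C(I, I)) (r t : ℝ) : ℝ :=
  min t (1 - r) + r * (Z (projIcc (0 : ℝ) 1 zero_le_one (max (t - (1 - r)) 0 / r)) : ℝ)

theorem ALX_low (Z : C(I, I)) (hZ : Z 0 = 0) (r t : ℝ) (h : t ≤ 1 - r) : ALX_F Z r t = t := by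
  unfold ALX_F
  have h0 : projIcc (0 : ℝ) 1 zero_le_one 0 = 0 := projIcc_left _
  rw [min_eq_left h, max_eq_right (by linarith), zero_div, h0, hZ]
  simp

theorem ALX_high (Z : C(I, I)) (r x : ℝ) (hr : 0 < r) (hx : 0 ≤ x) :
    ALX_F Z r (r * x + (1 - r)) =
      1 - r + r * (Z (projIcc (0 : ℝ) 1 zero_le_one x) : ℝ) := by
  unfold ALX_F
  have h1 : 0 ≤ r * x := by positivity
  rw [min_eq_right (by linarith)]
  have h2 : r * x + (1 - r) - (1 - r) = r * x := by ring
  rw [h2, max_eq_left h1, mul_div_cancel_left₀ x hr.ne']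

theorem ALX_mem (Z : C(I, I)) (r t : I) : ALX_F Z r t ∈ Icc (0 : ℝ) 1 := by
  unfold ALX_F
  set z := Z (projIcc (0 : ℝ) 1 zero_le_one (max ((t : ℝ) - (1 - (r : ℝ))) 0 / (r : ℝ))) with hz
  have h1 : (0 : ℝ) ≤ z := z.2.1
  have h2 : (z : ℝ) ≤ 1 := z.2.2
  have hr0 : (0 : ℝ) ≤ r := r.2.1
  have hr1 : (r : ℝ) ≤ 1 := r.2.2
  have ht0 : (0 : ℝ) ≤ t := t.2.1
  constructor
  · have h3 : (0 : ℝ) ≤ min (t : ℝ) (1 - (r : ℝ)) := le_min ht0 (by linarith)
    positivity
  · have h3 : min (t : ℝ) (1 - (r : ℝ)) ≤ 1 - (r : ℝ) := min_le_right _ _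
    nlinarith

theorem ALX_cont (Z : C(I, I)) : Continuous (fun p : I × I => ALX_F Z p.1 p.2) := by
  have h1 : Continuous (fun p : I × I => min (p.2 : ℝ) (1 - (p.1 : ℝ))) := by fun_prop
  refine h1.add ?_
  rw [continuous_iff_continuousAt]
  rintro ⟨r, t⟩
  have hfst : Continuous (fun p : I × I => (p.1 : ℝ)) := by fun_prop
  by_cases hr : (r : ℝ) = 0
  · have hval : (r : ℝ) * (Z (projIcc (0 : ℝ) 1 zero_le_one
        (max ((t : ℝ) - (1 - (r : ℝ))) 0 / (r : ℝ))) : ℝ) = 0 := by rw [hr, zero_mul]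
    show Tendsto (fun p : I × I => (p.1 : ℝ) * (Z (projIcc (0 : ℝ) 1 zero_le_one
        (max ((p.2 : ℝ) - (1 - (p.1 : ℝ))) 0 / (p.1 : ℝ))) : ℝ)) (𝓝 (r, t))
        (𝓝 ((r : ℝ) * (Z (projIcc (0 : ℝ) 1 zero_le_one
        (max ((t : ℝ) - (1 - (r : ℝ))) 0 / (r : ℝ))) : ℝ)))
    rw [hval]
    refine squeeze_zero_norm (a := fun p : I × I => (p.1 : ℝ)) (fun p => ?_) ?_
    · set z := Z (projIcc (0 : ℝ) 1 zero_le_one
        (max ((p.2 : ℝ) - (1 - (p.1 : ℝ))) 0 / (p.1 : ℝ))) with hz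
      have h2 : (0 : ℝ) ≤ z := z.2.1
      have h3 : (z : ℝ) ≤ 1 := z.2.2
      have h4 : (0 : ℝ) ≤ p.1 := p.1.2.1
      rw [Real.norm_of_nonneg (by positivity)]
      nlinarith
    · have h2 := hfst.tendsto (r, t)
      rw [hr] at h2
      exact h2
  · have h2 : ContinuousAt (fun p : I × I => max ((p.2 : ℝ) - (1 - (p.1 : ℝ))) 0 / (p.1 : ℝ))
        (r, t) := by
      have h3 : Continuous (fun p : I × I => max ((p.2 : ℝ) - (1 - (p.1 : ℝ))) 0) := by fun_prop
      exact h3.continuousAt.div hfst.continuousAt hr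
    have h4 : Continuous (fun x : ℝ => (Z (projIcc (0 : ℝ) 1 zero_le_one x) : ℝ)) :=
      continuous_subtype_val.comp (Z.continuous.comp continuous_projIcc)
    exact hfst.continuousAt.mul (h4.continuousAt.comp h2)

/-- The isotopy. -/
def ALX_G (Z : C(I, I)) : C(I, C(I, I)) :=
  ContinuousMap.curry ⟨fun p : I × I => ⟨ALX_F Z p.1 p.2, ALX_mem Z p.1 p.2⟩,
    (ALX_cont Z).subtype_mk _⟩

theorem ALX_G_apply (Z : C(I, I)) (r t : I) : ((ALX_G Z r t : I) : ℝ) = ALX_F Z r t := rfl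

theorem ALX_LP (Z : C(I, I)) (hZ : Z 0 = 0) (hL : LP Z) (r : I) : LP (ALX_G Z r) := by
  intro h
  have hr0 : (0 : ℝ) ≤ r := r.2.1
  have hr1 : (r : ℝ) ≤ 1 := r.2.2
  rcases eq_or_lt_of_le hr0 with hr | hr
  · -- the identity
    have hid : h.comp (ALX_G Z r) = h := by
      ext t
      show h (ALX_G Z r t) = h t
      congr 1
      apply Subtype.ext
      rw [ALX_G_apply, ALX_low Z hZ]
      rw [← hr, sub_zero]
      exact t.2.2
    rw [hid]
  · set f : ℝ → ℂ := fun t => h (ALX_G Z r (projIcc (0 : ℝ) 1 zero_le_one t)) with hf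
    set H : ℝ → ℂ := fun t => h (projIcc (0 : ℝ) 1 zero_le_one t) with hH
    have hfc : Continuous f := h.continuous.comp ((ALX_G Z r).continuous.comp continuous_projIcc)
    have hHc : Continuous H := h.continuous.comp continuous_projIcc
    show (∫ t in (0 : ℝ)..1, f t) = ∫ t in (0 : ℝ)..1, H t
    rw [← intervalIntegral.integral_add_adjacent_intervals
      (hfc.intervalIntegrable 0 (1 - (r : ℝ))) (hfc.intervalIntegrable (1 - (r : ℝ)) 1),
      ← intervalIntegral.integral_add_adjacent_intervals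
      (hHc.intervalIntegrable 0 (1 - (r : ℝ))) (hHc.intervalIntegrable (1 - (r : ℝ)) 1)]
    congr 1
    · -- the lower part
      apply intervalIntegral.integral_congr
      intro t ht
      rw [uIcc_of_le (by linarith)] at ht
      have ht' : t ∈ Icc (0 : ℝ) 1 := ⟨ht.1, by linarith [ht.2]⟩
      show h (ALX_G Z r (projIcc (0 : ℝ) 1 zero_le_one t)) = h (projIcc (0 : ℝ) 1 zero_le_one t)
      congr 1
      apply Subtype.ext
      rw [ALX_G_apply, projIcc_of_mem zero_le_one ht']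
      exact ALX_low Z hZ r t ht.2
    · -- the upper part
      have hsub : ∀ k : ℝ → ℂ, (∫ t in (1 - (r : ℝ))..1, k t) =
          (r : ℝ) • ∫ x in (0 : ℝ)..1, k ((r : ℝ) * x + (1 - (r : ℝ))) := by
        intro k
        rw [intervalIntegral.integral_comp_mul_add k hr.ne' (1 - (r : ℝ)), smul_smul,
          mul_inv_cancel₀ hr.ne', one_smul]
        congr 1
        · ring
        · ring
      rw [hsub f, hsub H]
      congr 1
      -- the function `x ↦ h (1 - r + r x)`
      have hmem : ∀ x : I, 1 - (r : ℝ) + (r : ℝ) * (x : ℝ) ∈ Icc (0 : ℝ) 1 := by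
        intro x
        have hx0 : (0 : ℝ) ≤ x := x.2.1
        have hx1 : (x : ℝ) ≤ 1 := x.2.2
        constructor
        · have : 0 ≤ (r : ℝ) * x := by positivity
          linarith
        · nlinarith
      let h2 : C(I, ℂ) := ⟨fun x => h ⟨1 - (r : ℝ) + (r : ℝ) * (x : ℝ), hmem x⟩, by
        refine h.continuous.comp (Continuous.subtype_mk ?_ _)
        fun_prop⟩
      have hL2 := hL h2
      have e1 : (∫ x in (0 : ℝ)..1, f ((r : ℝ) * x + (1 - (r : ℝ)))) = lint (h2.comp Z) := by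
        apply intervalIntegral.integral_congr
        intro x hx
        rw [uIcc_of_le zero_le_one] at hx
        show h (ALX_G Z r (projIcc (0 : ℝ) 1 zero_le_one ((r : ℝ) * x + (1 - (r : ℝ))))) =
          h ⟨1 - (r : ℝ) + (r : ℝ) * (Z (projIcc (0 : ℝ) 1 zero_le_one x) : ℝ), _⟩
        congr 1
        apply Subtype.ext
        have hx' : (r : ℝ) * x + (1 - (r : ℝ)) ∈ Icc (0 : ℝ) 1 := by
          have := hmem ⟨x, hx⟩
          have e : (r : ℝ) * x + (1 - (r : ℝ)) = 1 - (r : ℝ) + (r : ℝ) * x := by ring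
          rw [e]
          exact this
        rw [ALX_G_apply, projIcc_of_mem zero_le_one hx']
        exact ALX_high Z r x hr hx.1
      have e2 : (∫ x in (0 : ℝ)..1, H ((r : ℝ) * x + (1 - (r : ℝ)))) = lint h2 := by
        apply intervalIntegral.integral_congr
        intro x hx
        rw [uIcc_of_le zero_le_one] at hx
        show h (projIcc (0 : ℝ) 1 zero_le_one ((r : ℝ) * x + (1 - (r : ℝ)))) =
          h ⟨1 - (r : ℝ) + (r : ℝ) * ((projIcc (0 : ℝ) 1 zero_le_one x : I) : ℝ), _⟩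
        congr 1
        apply Subtype.ext
        have e : (r : ℝ) * x + (1 - (r : ℝ)) = 1 - (r : ℝ) + (r : ℝ) * x := by ring
        have hx' : (r : ℝ) * x + (1 - (r : ℝ)) ∈ Icc (0 : ℝ) 1 := by
          rw [e]
          exact hmem ⟨x, hx⟩
        rw [projIcc_of_mem zero_le_one hx', projIcc_of_mem zero_le_one hx]
        exact e
      rw [e1, e2, hL2]

theorem p_ALX : Stmt_ALX := by
  intro Z hZ hL
  refine ⟨ALX_G Z, fun t => ?_, fun t => ?_, ALX_LP Z hZ hL⟩
  · apply Subtype.ext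
    rw [ALX_G_apply]
    apply ALX_low Z hZ
    have h0 : ((0 : I) : ℝ) = 0 := rfl
    rw [h0, sub_zero]
    exact t.2.2
  · apply Subtype.ext
    rw [ALX_G_apply]
    have h := ALX_high Z 1 t one_pos t.2.1
    have e : (1 : ℝ) * (t : ℝ) + (1 - 1) = t := by ring
    rw [e] at h
    have h1 : ((1 : I) : ℝ) = 1 := rfl
    rw [h1, h, projIcc_val]
    ring

end Pool.HC
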