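import Pool.Agent.Work.MP_118406_hc.Interface

set_option autoImplicit false

open scoped InnerProductSpace ComplexConjugate Topology unitInterval
open Set Filter

noncomputable section

namespace Pool.HC

open Pool.SI

theorem BET_em_mul (m m' : ℤ) : em m * em m' = em (m + m') := by
  ext t
  show Complex.exp _ * Complex.exp _ = Complex.exp _
  rw [← Complex.exp_add]
  congr 1
  push_cast
  ring

theorem BET_em_zero : em 0 = 1 := by
  ext t
  show Complex.exp _ = 1
  simp

theorem BET_em_star (m : ℤ) : star (em m) = em (-m) := by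
  ext t
  show conj (Complex.exp _) = Complex.exp _
  rw [← Complex.exp_conj]
  congr 1
  have h2 : (starRingEnd ℂ) 2 = 2 := Complex.conj_ofNat 2
  simp [map_mul, Complex.conj_ofReal, Complex.conj_I, h2]

/-- The exponent of a letter. -/
def BET_p (l k : ℕ) (T : Fin (l + k)) : ℕ :=
  Fin.addCases (motive := fun _ => ℕ) (fun _ => 0) (fun j => (j : ℕ) + 1) T

/-- The index of a letter. -/
def BET_b {l : ℕ} (k : ℕ) (i₁ : Fin l) (T : Fin (l + k)) : Fin l :=
  Fin.addCases (motive := fun _ => Fin l) (fun i => i) (fun _ => i₁) T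

theorem BET_p_left (l k : ℕ) (i : Fin l) : BET_p l k (Fin.castAdd k i) = 0 := by
  unfold BET_p
  rw [Fin.addCases_left]

theorem BET_p_right (l k : ℕ) (j : Fin k) : BET_p l k (Fin.natAdd l j) = (j : ℕ) + 1 := by
  unfold BET_p
  rw [Fin.addCases_right]

theorem BET_b_left {l : ℕ} (k : ℕ) (i₁ i : Fin l) : BET_b k i₁ (Fin.castAdd k i) = i := by
  unfold BET_b
  rw [Fin.addCases_left]

theorem BET_b_right {l : ℕ} (k : ℕ) (i₁ : Fin l) (j : Fin k) :
    BET_b k i₁ (Fin.natAdd l j) = i₁ := by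
  unfold BET_b
  rw [Fin.addCases_right]

theorem BET_p_le (l k : ℕ) (T : Fin (l + k)) : BET_p l k T ≤ k := by
  refine Fin.addCases (fun i => ?_) (fun j => ?_) T
  · rw [BET_p_left]
    exact Nat.zero_le _
  · rw [BET_p_right]
    exact j.2

theorem BET_b_ne {l : ℕ} (k : ℕ) (i₁ i₂ : Fin l) (h : i₁ ≠ i₂) (T : Fin (l + k)) :
    T ≠ Fin.castAdd k i₂ → BET_b k i₁ T ≠ i₂ := by
  refine Fin.addCases (fun i => ?_) (fun j => ?_) T
  · intro h1
    rw [BET_b_left]
    intro h2
    exact h1 (by rw [h2])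
  · intro _
    rw [BET_b_right]
    exact h

theorem BET_inj {l : ℕ} (k : ℕ) (i₁ : Fin l) (T T' : Fin (l + k)) :
    T ≠ T' → BET_p l k T = BET_p l k T' → BET_b k i₁ T ≠ BET_b k i₁ T' := by
  refine Fin.addCases (fun i => ?_) (fun j => ?_) T
  · refine Fin.addCases (fun i' => ?_) (fun j' => ?_) T'
    · intro h _
      rw [BET_b_left, BET_b_left]
      intro h2
      exact h (by rw [h2])
    · intro _ h
      rw [BET_p_left, BET_p_right] at h
      omega
  · refine Fin.addCases (fun i' => ?_) (fun j' => ?_) T'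
    · intro _ h
      rw [BET_p_left, BET_p_right] at h
      omega
    · intro h1 h
      rw [BET_p_right, BET_p_right] at h
      exfalso
      apply h1
      have : j = j' := Fin.ext (by omega)
      rw [this]

/-- The sets of vectors. -/
def BET_K {l : ℕ} (k : ℕ) (i₁ i₂ : Fin l) (V : ℤ → (Fk l →L[ℂ] Fk l)) (T : Fin (l + k)) :
    Set (Fk l) :=
  {ξ | (T = Fin.castAdd k i₂ → ∀ p : ℕ, p ≤ k → V (-(p : ℤ)) ξ ∈ Hp (fun j => j = i₂)) ∧
    (T ≠ Fin.castAdd k i₂ → V (-(BET_p l k T : ℤ)) ξ ∈ Hp (fun j => j = BET_b k i₁ T))}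

theorem BET_Sn_mem {N : ℕ} (S : StarSubalgebra ℂ (Fk N →L[ℂ] Fk N)) (x : Fk N →L[ℂ] Fk N)
    (hx : x ∈ S) (n : ℕ) : Sn x n ∈ S := by
  have key : ∀ n, Sn x n ∈ S ∧ Sn x (n + 1) ∈ S := by
    intro n
    induction n with
    | zero => exact ⟨one_mem S, hx⟩
    | succ n ih =>
      refine ⟨ih.2, ?_⟩
      show x * Sn x (n + 1) - Sn x n ∈ S
      exact sub_mem (mul_mem hx ih.2) ih.1
  exact (key n).1

theorem BET_G (hGEX : Stmt_GEX) {N : ℕ} {p : Fin N → Prop} {x : Fk N →L[ℂ] Fk N}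
    (hx : x ∈ AG p) (ht : tau x = 0) {ξ : Fk N} (hξ : ξ ∈ Hm p) : x ξ ∈ Hp p := by
  have h := hGEX N p x hx ξ hξ
  rw [ht, zero_smul, sub_zero] at h
  exact h

theorem BET_core (hWMP : Stmt_WMP) (hGEX : Stmt_GEX) (hGCR : Stmt_GCR) (hCEN : Stmt_CEN)
    (l k : ℕ) (i₁ i₂ : Fin l) (hne : i₁ ≠ i₂) (V : ℤ → (Fk l →L[ℂ] Fk l))
    (Y : Fk l →L[ℂ] Fk l) (hV0 : V 0 = 1) (hVm : ∀ m m', V m * V m' = V (m + m'))
    (hVA : ∀ m, V m ∈ AG (fun j => j = i₂))
    (hVt : ∀ m : ℤ, m ≠ 0 → |m| ≤ (k : ℤ) → tau (V m) = 0)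
    (hYA : ∀ (n : ℕ) (m m' : ℤ), V m * Sn Y n * V m' ∈ AG (fun j => j = i₂))
    (hYt : ∀ n : ℕ, 0 < n → ∀ m m' : ℤ, |m + m'| ≤ (k : ℤ) → tau (V m * Sn Y n * V m') = 0)
    (y : Fin (l + k) → (Fk l →L[ℂ] Fk l)) (hy1 : y (Fin.castAdd k i₂) = Y)
    (hy2 : ∀ T, T ≠ Fin.castAdd k i₂ →
      y T = V (BET_p l k T) * sc (BET_b k i₁ T) * V (-(BET_p l k T : ℤ)))
    (w : List (Fin (l + k))) (hw : w ≠ []) : tau (Pw y w) = 0 := by
  obtain ⟨-, hW2, -, hW4, -⟩ := hWMP
  obtain ⟨hC1, -, hC3, hC4, hC5, -, hC7⟩ := hCEN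
  have hVinv : ∀ m, V m * V (-m) = 1 := fun m => by rw [hVm, add_neg_cancel, hV0]
  have hVinv' : ∀ m, V (-m) * V m = 1 := fun m => by rw [hVm, neg_add_cancel, hV0]
  have hback : ∀ (m : ℤ) (ξ : Fk l), ξ = V m (V (-m) ξ) := fun m ξ => by
    rw [← ContinuousLinearMap.mul_apply, hVinv, ContinuousLinearMap.one_apply]
  have hVV : ∀ (m m' : ℤ) (ξ : Fk l), V m (V m' ξ) = V (m + m') ξ := fun m m' ξ => by
    rw [← ContinuousLinearMap.mul_apply, hVm]
  have hdiff : ∀ T T' : Fin (l + k), |(BET_p l k T : ℤ) - BET_p l k T'| ≤ (k : ℤ) := by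
    intro T T'
    have h1 := BET_p_le l k T
    have h2 := BET_p_le l k T'
    rw [abs_le]
    constructor <;> omega
  -- the main step
  have hstep : ∀ (c : Fin (l + k)) (u : List (Fin (l + k))), u ≠ [] → (∀ i ∈ u, id i = c) →
      ∀ ξ : Fk l, (ξ = vac l ∨ ∃ c', c' ≠ c ∧ ξ ∈ BET_K k i₁ i₂ V c') →
        Pw y u ξ ∈ BET_K k i₁ i₂ V c := by
    intro c u hu huc ξ hξ
    have hrep : u = List.replicate u.length c := List.eq_replicate_of_mem huc
    have hlen : 0 < u.length := List.length_pos_iff.mpr hu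
    set n := u.length with hn
    rw [hrep, hW2]
    constructor
    · -- the special letter
      intro hc p hp
      rw [hc, hy1]
      rcases hξ with hξ | ⟨c', hcc, hξ⟩
      · have h1 : V (-(p : ℤ)) (Sn Y n ξ) = (V (-(p : ℤ)) * Sn Y n * V 0) ξ := by
          rw [hV0, mul_one, ContinuousLinearMap.mul_apply]
        rw [h1]
        refine BET_G hGEX (hYA n _ _) (hYt n hlen _ _ ?_) (by rw [hξ]; exact hC4 l _)
        rw [add_zero, abs_neg, abs_of_nonneg (by positivity)]
        exact_mod_cast hp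
      · rw [hc] at hcc
        have hη := hξ.2 hcc
        have h1 : V (-(p : ℤ)) (Sn Y n ξ) =
            (V (-(p : ℤ)) * Sn Y n * V (BET_p l k c')) (V (-(BET_p l k c' : ℤ)) ξ) := by
          rw [ContinuousLinearMap.mul_apply, ContinuousLinearMap.mul_apply, ← hback]
        rw [h1]
        refine BET_G hGEX (hYA n _ _) (hYt n hlen _ _ ?_) ?_
        · have h2 := BET_p_le l k c'
          rw [abs_le]
          constructor <;> omega
        · refine hC3 l _ _ ?_ hη
          intro i hi h3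
          exact BET_b_ne k i₁ i₂ hne c' hcc (hi.symm.trans h3)
    · -- the other letters
      intro hc
      have hbne := BET_b_ne k i₁ i₂ hne c hc
      rw [hy2 c hc, hW4 _ _ _ _ n (hVinv _) (hVinv' _)]
      have h1 : V (-(BET_p l k c : ℤ)) ((V (BET_p l k c) * Sn (sc (BET_b k i₁ c)) n *
          V (-(BET_p l k c : ℤ))) ξ) = Sn (sc (BET_b k i₁ c)) n (V (-(BET_p l k c : ℤ)) ξ) := by
        rw [ContinuousLinearMap.mul_apply, ContinuousLinearMap.mul_apply, hVV, neg_add_cancel, hV0,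
          ContinuousLinearMap.one_apply]
      rw [h1]
      have hsub : Hp (fun j => j = i₂) ⊆ Hm (N := l) (fun j => j = BET_b k i₁ c) := by
        refine hC3 l _ _ ?_
        intro i hi h3
        exact hbne (h3.symm.trans hi)
      refine BET_G (p := fun j => j = BET_b k i₁ c) hGEX
        (BET_Sn_mem _ _ (hC7 l (fun j => j = BET_b k i₁ c) (BET_b k i₁ c) rfl) n)
        (hC1 l _ n hlen) ?_
      rcases hξ with hξ | ⟨c', hcc, hξ⟩
      · rw [hξ]
        by_cases hp0 : BET_p l k c = 0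
        · rw [hp0, Nat.cast_zero, neg_zero, hV0, ContinuousLinearMap.one_apply]
          exact hC4 l _
        · apply hsub
          refine BET_G hGEX (hVA _) (hVt _ ?_ ?_) (hC4 l _)
          · intro h
            apply hp0
            omega
          · rw [abs_neg, abs_of_nonneg (by positivity)]
            exact_mod_cast BET_p_le l k c
      · by_cases hc' : c' = Fin.castAdd k i₂
        · exact hsub (hξ.1 hc' _ (BET_p_le l k c))
        · have hη := hξ.2 hc'
          by_cases hpp : BET_p l k c' = BET_p l k c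
          · rw [hpp] at hη
            refine hC3 l _ _ ?_ hη
            intro i hi h3
            exact BET_inj k i₁ c' c hcc hpp (hi.symm.trans h3)
          · apply hsub
            have h2 : V (-(BET_p l k c : ℤ)) ξ =
                V ((BET_p l k c' : ℤ) - BET_p l k c) (V (-(BET_p l k c' : ℤ)) ξ) := by
              rw [hVV]
              congr 2
              ring
            rw [h2]
            refine BET_G hGEX (hVA _) (hVt _ ?_ (hdiff c' c)) ?_
            · intro h
              apply hpp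
              omega
            · refine hC3 l _ _ ?_ hη
              intro i hi h3
              exact BET_b_ne k i₁ i₂ hne c' hc' (hi.symm.trans h3)
  have hall := hGCR (l + k) (Fk l) (vac l) y (Fin (l + k)) id (BET_K k i₁ i₂ V) hstep
  cases w with
  | nil => exact absurd rfl hw
  | cons i w =>
    have h := hall i w
    show ⟪vac l, (Pw y (i :: w)) (vac l)⟫_ℂ = 0
    generalize (Pw y (i :: w)) (vac l) = ξ at h
    by_cases hi : i = Fin.castAdd k i₂
    · have h1 := h.1 hi 0 (Nat.zero_le _)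
      rw [Nat.cast_zero, neg_zero, hV0, ContinuousLinearMap.one_apply] at h1
      exact hC5 l _ ξ h1
    · have h1 := h.2 hi
      have h1' : V (-(BET_p l k i : ℤ)) ξ ∈ Hp (fun j => j = BET_b k i₁ i) := h1
      by_cases hp0 : BET_p l k i = 0
      · rw [hp0, Nat.cast_zero, neg_zero, hV0, ContinuousLinearMap.one_apply] at h1'
        exact hC5 l _ ξ h1'
      · rw [hback (BET_p l k i) ξ]
        refine hC5 l (fun j => j = i₂) _ (BET_G hGEX (hVA _) (hVt _ ?_ ?_) ?_)
        · intro h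
          apply hp0
          exact_mod_cast h
        · rw [abs_of_nonneg (by positivity)]
          exact_mod_cast BET_p_le l k i
        · refine hC3 l _ _ ?_ h1'
          intro j hj h3
          exact BET_b_ne k i₁ i₂ hne i hi (hj.symm.trans h3)

theorem p_BET (hWMP : Stmt_WMP) (hGEX : Stmt_GEX) (hGCR : Stmt_GCR) (hCEN : Stmt_CEN)
    (hBAS : Stmt_BAS) : Stmt_BET := by
  intro l k i₁ i₂ Q Λ Z hne hC hZ hM
  obtain ⟨hQ, hΛA, hΛt, hΛQ⟩ := hC
  have hCo : Coord i₂ Q Λ := ⟨hQ, hΛA, hΛt, hΛQ⟩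
  have hstarsc : ∀ i : Fin l, star (sc i : Fk l →L[ℂ] Fk l) = sc i := (hBAS l).2.2.2.2.2.2.1
  have hAG : ∀ p : Fin l → Prop, AG p ≤ Alg l := hCEN.2.2.2.2.2.1 l
  have hV0 : Λ (em 0) = 1 := by rw [BET_em_zero, map_one]
  have hVm : ∀ m m', Λ (em m) * Λ (em m') = Λ (em (m + m')) := fun m m' => by
    rw [← map_mul, BET_em_mul]
  have hVs : ∀ m, star (Λ (em m)) = Λ (em (-m)) := fun m => by
    rw [← map_star, BET_em_star]
  have hndvd : ∀ m : ℤ, m ≠ 0 → |m| ≤ (k : ℤ) → ¬ ((k + 1 : ℕ) : ℤ) ∣ m := by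
    intro m h0 h1 h2
    apply h0
    refine Int.eq_zero_of_abs_lt_dvd h2 ?_
    push_cast
    omega
  have hzero : ∀ (m : ℤ) (h : C(I, ℂ)), m ≠ 0 → |m| ≤ (k : ℤ) →
      tau (Λ (em m * h.comp Z)) = 0 := by
    intro m h h0 h1
    rw [hΛt]
    exact hM m (hndvd m h0 h1) h
  have hVt : ∀ m : ℤ, m ≠ 0 → |m| ≤ (k : ℤ) → tau (Λ (em m)) = 0 := by
    intro m h0 h1
    have h2 := hzero m 1 h0 h1
    rw [ContinuousMap.one_comp, mul_one] at h2
    exact h2
  have hSn : ∀ n : ℕ, Sn (Λ (Q.comp Z)) n = Λ ((Sn Q n).comp Z) ∧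
      (0 < n → tau (Λ ((Sn Q n).comp Z)) = 0) := hCEN.2.1 l i₂ Q Λ Z hCo hZ
  have hprod : ∀ (n : ℕ) (m m' : ℤ), Λ (em m) * Sn (Λ (Q.comp Z)) n * Λ (em m') =
      Λ (em (m + m') * (Sn Q n).comp Z) := by
    intro n m m'
    rw [(hSn n).1, ← map_mul, ← map_mul, ← BET_em_mul]
    congr 1
    ring
  have hy2 : ∀ T : Fin (l + k), T ≠ Fin.castAdd k i₂ →
      bet k i₁ i₂ (Λ (Q.comp Z)) (fun j : ℕ => Λ (em j)) T =
        Λ (em (BET_p l k T)) * sc (BET_b k i₁ T) * Λ (em (-(BET_p l k T : ℤ))) := by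
    intro T
    refine Fin.addCases (fun i => ?_) (fun j => ?_) T
    · intro hT
      have hi : i ≠ i₂ := fun h => hT (by rw [h])
      rw [BET_p_left, BET_b_left, Nat.cast_zero, neg_zero, hV0, one_mul, mul_one]
      unfold bet fam
      rw [Fin.append_left, if_neg hi]
    · intro _
      rw [BET_p_right, BET_b_right]
      unfold bet
      rw [Fin.append_right, hVs]
  refine ⟨?_, ?_, ?_⟩
  · intro T
    refine Fin.addCases (fun i => ?_) (fun j => ?_) T
    · unfold bet fam
      rw [Fin.append_left]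
      split_ifs
      · exact hAG _ (hΛA _)
      · exact sc_mem i
    · unfold bet
      rw [Fin.append_right]
      exact mul_mem (mul_mem (hAG _ (hΛA _)) (sc_mem i₁)) (star_mem (hAG _ (hΛA _)))
  · intro T
    refine Fin.addCases (fun i => ?_) (fun j => ?_) T
    · unfold bet fam
      rw [Fin.append_left]
      split_ifs
      · rw [← map_star]
        congr 1
        ext t
        exact hQ (Z t)
      · exact hstarsc i
    · unfold bet
      rw [Fin.append_right, star_mul, star_mul, star_star, hstarsc, mul_assoc]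
  · refine BET_core hWMP hGEX hGCR hCEN l k i₁ i₂ hne (fun m => Λ (em m)) (Λ (Q.comp Z)) hV0 hVm
      (fun m => hΛA _) hVt ?_ ?_ _ ?_ hy2
    · intro n m m'
      rw [hprod]
      exact hΛA _
    · intro n hn m m' hm
      rw [hprod]
      by_cases h0 : m + m' = 0
      · rw [h0, BET_em_zero, one_mul]
        exact (hSn n).2 hn
      · exact hzero _ _ h0 hm
    · unfold bet fam
      rw [Fin.append_left, if_pos rfl]

end Pool.HC
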