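import Pool.Agent.Work.MP_118406_hc.Interface

set_option autoImplicit false

open scoped InnerProductSpace ComplexConjugate Topology unitInterval
open Set Filter

noncomputable section

namespace Pool.HC

open Pool.SI

theorem CEN_one (hWMP : Stmt_WMP) (hWVC : Stmt_WVC) (l : ℕ) (i : Fin l) (n : ℕ) (hn : 0 < n) :
    tau (Sn (sc i : Fk l →L[ℂ] Fk l) n) = 0 := by
  have h1 := hWMP.2.1 l (Fk l →L[ℂ] Fk l) (fun j => (sc j : Fk l →L[ℂ] Fk l)) i n
  have h2 := hWVC l l id Function.injective_id (List.replicate n i) [] (fun j _ => by simp)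
  have h3 : (Pw (fun j => (sc j : Fk l →L[ℂ] Fk l)) (List.replicate n i)) (vac l)
      = bs (List.replicate n i) := by
    have h4 : (List.map id (List.replicate n i) ++ [] : List (Fin l)) = List.replicate n i := by
      simp
    rw [h4] at h2
    exact h2
  unfold tau
  rw [← h1, h3, vac, bs_inner, bs_apply, if_neg]
  intro h
  have h5 := congrArg List.length h
  simp at h5
  omega

theorem p_CEN (hWMP : Stmt_WMP) (hWVC : Stmt_WVC) (_hBAS : Stmt_BAS) : Stmt_CEN := by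
  refine ⟨CEN_one hWMP hWVC, ?_, ?_, ?_, ?_, ?_, ?_⟩
  · intro l i Q Λ g hC hg n
    have hh : ∀ m : ℕ, (Sn Q m).comp g = Sn (Q.comp g) m := by
      intro m
      exact hWMP.2.2.1 C(I, ℂ) C(I, ℂ)
        ((ContinuousMap.compStarAlgHom' ℂ ℂ g : C(I, ℂ) →⋆ₐ[ℂ] C(I, ℂ)) : C(I, ℂ) →+* C(I, ℂ)) Q m
    have hL : ∀ (h : C(I, ℂ)) (m : ℕ), Λ (Sn h m) = Sn (Λ h) m := by
      intro h m
      exact hWMP.2.2.1 C(I, ℂ) (Fk l →L[ℂ] Fk l) (Λ : C(I, ℂ) →+* (Fk l →L[ℂ] Fk l)) h m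
    refine ⟨?_, fun hn => ?_⟩
    · rw [hh, hL]
    · rw [hC.2.2.1, hg, ← hC.2.2.1, hL, hC.2.2.2]
      exact CEN_one hWMP hWVC l i n hn
  · intro N p q hpq ξ hξ v i hv hq
    refine hξ v (fun j hj hpj => ?_)
    rw [hv] at hj
    obtain rfl := Option.some.inj hj
    exact hpq _ hpj hq
  · intro N p v i hv _
    rw [vac, bs_apply, if_neg]
    rintro rfl
    simp at hv
  · intro N p ξ hξ
    rw [vac, bs_inner]
    exact hξ [] (fun i hi => by simp at hi)
  · intro N p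
    refine StarSubalgebra.topologicalClosure_mono (StarAlgebra.adjoin_mono ?_)
    rintro x ⟨i, _, rfl⟩
    exact ⟨i, rfl⟩
  · intro N p i hi
    exact StarSubalgebra.le_topologicalClosure _ (StarAlgebra.subset_adjoin ℂ _ ⟨i, hi, rfl⟩)

end Pool.HC
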