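import Pool.Agent.Work.MP_118406_hc.Interface

set_option autoImplicit false

/-! # FIN: the spaces of homomorphisms are contractible -/

open scoped InnerProductSpace ComplexConjugate Topology unitInterval
open Set Filter Pool.SI

noncomputable section

namespace Pool.HC

theorem FIN_nonempty (hUPR : Stmt_UPR) (hICL : Stmt_ICL) (hPHP : Stmt_PHP) (k l : ℕ) (hl : 2 ≤ l) :
    Nonempty (HomS k l) := by
  obtain ⟨_, β, _, _, _⟩ := hPHP k l hl
  obtain ⟨κ, _⟩ := hUPR k (l + k) _ (hICL.1 k (l + k) (Fin.natAdd l) (Fin.natAdd_injective k l))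
  exact ⟨β.comp κ⟩

theorem FIN_contractible (hUPR : Stmt_UPR) (hICL : Stmt_ICL) (hPHP : Stmt_PHP) (hHTP : Stmt_HTP)
    (k l : ℕ) (hk : 2 ≤ k) (hl : 2 ≤ l) : ContractibleSpace (HomS k l) := by
  obtain ⟨φ₁⟩ := FIN_nonempty hUPR hICL hPHP k l hl
  obtain ⟨h, φ₀, hc, h0, h1⟩ := hHTP k l hk hl φ₁
  rw [contractible_iff_id_nullhomotopic]
  refine ⟨φ₀, ⟨⟨⟨h, hc⟩, fun φ => h0 φ, fun φ => h1 φ⟩⟩⟩

theorem p_FIN (hUPR : Stmt_UPR) (hICL : Stmt_ICL) (hPHP : Stmt_PHP) (hHTP : Stmt_HTP) :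
    Stmt_FIN := by
  intro k l hk hl
  have c1 := FIN_contractible hUPR hICL hPHP hHTP k l hk hl
  have c2 := FIN_contractible hUPR hICL hPHP hHTP l k hl hk
  have c3 := FIN_contractible hUPR hICL hPHP hHTP k k hk hk
  have c4 := FIN_contractible hUPR hICL hPHP hHTP l l hl hl
  refine ⟨c1, fun f => ?_⟩
  obtain ⟨g⟩ := FIN_nonempty hUPR hICL hPHP l k hk
  refine ⟨g, ?_, ?_⟩
  · exact PathConnectedSpace.joined _ _
  · exact PathConnectedSpace.joined _ _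

end Pool.HC
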