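import Pool.Agent.Work.MP_118406_hc.Interface

set_option autoImplicit false

/-! Block GCR: the criterion for free families. -/

open scoped InnerProductSpace ComplexConjugate Topology unitInterval
open Set Filter Pool.SI

noncomputable section

namespace Pool.HC

theorem GCR_split {N : ℕ} {Γ : Type} (g : Fin N → Γ) (c : Γ) (w : List (Fin N)) :
    ∃ u v : List (Fin N), w = u ++ v ∧ (∀ a ∈ u, g a = c) ∧ ∀ j, v.head? = some j → g j ≠ c := by
  induction w with
  | nil => exact ⟨[], [], rfl, by simp, by simp⟩
  | cons b w ih =>
    by_cases hb : g b = c
    · obtain ⟨u, v, h1, h2, h3⟩ := ih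
      refine ⟨b :: u, v, by rw [h1]; rfl, ?_, h3⟩
      intro a ha
      rcases List.mem_cons.1 ha with rfl | ha
      · exact hb
      · exact h2 a ha
    · refine ⟨[], b :: w, rfl, by simp, ?_⟩
      intro j hj
      have : b = j := by simpa using hj
      rw [← this]
      exact hb

theorem p_GCR (hWPM : Stmt_WPM) : Stmt_GCR := by
  intro N H _ _ o y Γ g K hyp
  have key : ∀ (n : ℕ) (i : Fin N) (w : List (Fin N)), w.length = n →
      Pw y (i :: w) o ∈ K (g i) := by
    intro n
    induction n using Nat.strong_induction_on with
    | _ n ih =>
      intro i w hw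
      obtain ⟨u, v, h1, h2, h3⟩ := GCR_split g (g i) w
      have hall : ∀ a ∈ i :: u, g a = g i := by
        intro a ha
        rcases List.mem_cons.1 ha with rfl | ha
        · rfl
        · exact h2 a ha
      rcases v with _ | ⟨j, v⟩
      · rw [List.append_nil] at h1
        rw [h1]
        exact hyp (g i) (i :: u) (List.cons_ne_nil _ _) hall o (Or.inl rfl)
      · have hj : g j ≠ g i := h3 j rfl
        have hlen : v.length < n := by
          rw [← hw, h1, List.length_append, List.length_cons]
          omega
        have hIH := ih v.length hlen j v rfl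
        have e : Pw y (i :: w) = Pw y (i :: u) * Pw y (j :: v) := by
          have h5 := hWPM N (H →L[ℂ] H) y (i :: u) (j :: v) (fun a ha hb => by
            have ha' : a ∈ i :: u := List.mem_of_getLast? ha
            have hb' : j = a := by simpa using hb
            exact hj (by rw [hb']; exact hall a ha'))
          rw [← h5, h1]
          rfl
        rw [e]
        show Pw y (i :: u) (Pw y (j :: v) o) ∈ K (g i)
        exact hyp (g i) (i :: u) (List.cons_ne_nil _ _) hall _ (Or.inr ⟨g j, hj, hIH⟩)
  exact fun i w => key w.length i w rfl

end Pool.HC
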