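import Pool.Agent.Work.MP_118406_hc.Interface
import Pool.Agent.Work.MP_118406_si.B_FEX

set_option autoImplicit false

/-! # Block GEX: freeness of a part of the generators from the others (helper38) -/

open scoped InnerProductSpace ComplexConjugate Topology unitInterval
open Set Filter

noncomputable section

namespace Pool.HC

open Pool.SI

theorem p_GEX (hBAS : Stmt_BAS) : Stmt_GEX := by
  intro N p x hx ξ hξ v hv
  have hx' : x - algebraMap ℂ (Fk N →L[ℂ] Fk N) (tau x) ∈ AG p :=
    sub_mem hx (algebraMap_mem (AG p) (tau x))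
  have hval : ∀ η : Fk N, (x - algebraMap ℂ (Fk N →L[ℂ] Fk N) (tau x)) η = x η - tau x • η := by
    intro η
    rw [Algebra.algebraMap_eq_smul_one]
    rfl
  have hone : ⟪vac N, vac N⟫_ℂ = 1 := by
    rw [vac, bs_inner, bs_apply, if_pos rfl]
  have h0 : ⟪vac N, (x - algebraMap ℂ (Fk N →L[ℂ] Fk N) (tau x)) (vac N)⟫_ℂ = 0 := by
    rw [hval, inner_sub_right, inner_smul_right, hone, mul_one]
    exact sub_self _
  rw [← hval ξ, ← bs_inner, ← ContinuousLinearMap.adjoint_inner_left, lp.inner_eq_tsum]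
  refine (tsum_congr (fun w => ?_)).trans tsum_zero
  by_cases hw : ∃ i, w.head? = some i ∧ p i
  · obtain ⟨i, h1, h2⟩ := hw
    rw [hξ w i h1 h2, inner_zero_right]
  · have h3 : ((x - algebraMap ℂ (Fk N →L[ℂ] Fk N) (tau x)) (bs w)) v = 0 :=
      FEX_main hBAS p _ hx' h0 w (fun j hj h => hw ⟨j, h, hj⟩) v (fun j hj h => hv j h hj)
    have h4 : (ContinuousLinearMap.adjoint (x - algebraMap ℂ (Fk N →L[ℂ] Fk N) (tau x)) (bs v) : Fk N) w
        = 0 := by
      rw [← bs_inner w, ContinuousLinearMap.adjoint_inner_right, ← inner_conj_symm, bs_inner, h3,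
        map_zero]
    rw [h4, inner_zero_left]

end Pool.HC
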