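import Pool.Agent.Work.MP_118406_hc.Interface

set_option autoImplicit false

/-! # HTP: the homotopy -/

open scoped InnerProductSpace ComplexConjugate Topology unitInterval
open Set Filter Pool.SI

noncomputable section

namespace Pool.HC

/-- the homomorphism of a point of the space -/
def HTP_f {k l : ℕ} (φ : HomS k l) : Alg k →⋆ₐ[ℂ] Alg l := φ

theorem HTP_eval {k l : ℕ} (x : Alg k) :
    Continuous (fun φ : HomS k l => HTP_f φ x) := by
  have h : Continuous (fun φ : HomS k l => fun x : Alg k => HTP_f φ x) :=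
    continuous_induced_dom
  exact (continuous_apply x).comp h

theorem HTP_joint (hEXT : Stmt_EXT) {l : ℕ} (Φ : I → (Alg l →⋆ₐ[ℂ] Alg l))
    (hΦ : ∀ x, Continuous (fun r => Φ r x)) :
    Continuous (fun p : I × Alg l => Φ p.1 p.2) := by
  rw [continuous_iff_continuousAt]
  rintro ⟨r, x⟩
  rw [ContinuousAt, tendsto_iff_norm_sub_tendsto_zero]
  have h1 : Tendsto (fun p : I × Alg l => ‖p.2 - x‖ + ‖Φ p.1 x - Φ r x‖) (𝓝 (r, x)) (𝓝 0) := by
    have h2 : Tendsto (fun p : I × Alg l => ‖p.2 - x‖) (𝓝 (r, x)) (𝓝 ‖x - x‖) :=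
      (continuous_snd.sub continuous_const).norm.tendsto (r, x)
    have h3 : Tendsto (fun p : I × Alg l => ‖Φ p.1 x - Φ r x‖) (𝓝 (r, x)) (𝓝 ‖Φ r x - Φ r x‖) :=
      ((((hΦ x).comp continuous_fst).sub continuous_const).norm).tendsto (r, x)
    have h4 := h2.add h3
    simpa using h4
  refine squeeze_zero (fun _ => norm_nonneg _) (fun p => ?_) h1
  have h5 : Φ p.1 p.2 - Φ r x = Φ p.1 (p.2 - x) + (Φ p.1 x - Φ r x) := by
    rw [map_sub]; abel
  rw [h5]
  exact (norm_add_le _ _).trans (add_le_add ((hEXT l l).2.1 _ _) le_rfl)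

theorem p_HTP (hEXT : Stmt_EXT) (hTRA : Stmt_TRA) (hPHP : Stmt_PHP) (hRTP : Stmt_RTP) :
    Stmt_HTP := by
  intro k l hk hl φ₁
  obtain ⟨Φ, β, hΦc, hΦ0, hβ⟩ := hPHP k l hl
  obtain ⟨ι, R, hι, hR⟩ := hRTP k l
  have hβι : β.comp ι = Φ 1 := by
    refine (hEXT l l).1 _ _ fun i => ?_
    rw [StarAlgHom.comp_apply, hι, hβ]
  have hR' : ∀ (t : ℝ) (φ : Alg k →⋆ₐ[ℂ] Alg l) (j : Fin k), β (R t φ (ge j)) =
      ((Real.cos t : ℝ) : ℂ) • Φ 1 (φ (ge j)) + ((Real.sin t : ℝ) : ℂ) • β (ge (Fin.natAdd l j)) := by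
    intro t φ j
    rw [hR t φ (hTRA k l hk φ) j, map_add, map_smul, map_smul, ← hβι, StarAlgHom.comp_apply]
  let h : I × HomS k l → HomS k l := fun p =>
    if (p.1 : ℝ) ≤ 1 / 2 then
      (Φ (Set.projIcc 0 1 zero_le_one (2 * (p.1 : ℝ)))).comp (HTP_f p.2)
    else β.comp (R (Real.pi * (2 * (p.1 : ℝ) - 1) / 2) (HTP_f p.2))
  have hle : ∀ p : I × HomS k l, (p.1 : ℝ) ≤ 1 / 2 →
      HTP_f (h p) = (Φ (Set.projIcc 0 1 zero_le_one (2 * (p.1 : ℝ)))).comp (HTP_f p.2) :=
    fun p hp => if_pos hp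
  have hgt : ∀ p : I × HomS k l, ¬ (p.1 : ℝ) ≤ 1 / 2 →
      HTP_f (h p) = β.comp (R (Real.pi * (2 * (p.1 : ℝ) - 1) / 2) (HTP_f p.2)) :=
    fun p hp => if_neg hp
  have hval : ∀ (p : I × HomS k l) (j : Fin k), HTP_f (h p) (ge j) =
      if (p.1 : ℝ) ≤ 1 / 2 then
        Φ (Set.projIcc 0 1 zero_le_one (2 * (p.1 : ℝ))) (HTP_f p.2 (ge j))
      else ((Real.cos (Real.pi * (2 * (p.1 : ℝ) - 1) / 2) : ℝ) : ℂ) •
          Φ 1 (HTP_f p.2 (ge j)) +
        ((Real.sin (Real.pi * (2 * (p.1 : ℝ) - 1) / 2) : ℝ) : ℂ) • β (ge (Fin.natAdd l j)) := by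
    intro p j
    by_cases hp : (p.1 : ℝ) ≤ 1 / 2
    · rw [hle p hp, if_pos hp, StarAlgHom.comp_apply]
    · rw [hgt p hp, if_neg hp, StarAlgHom.comp_apply, hR']
  have hcg : ∀ j : Fin k, Continuous (fun p : I × HomS k l => HTP_f (h p) (ge j)) := by
    intro j
    have e1 : (fun p : I × HomS k l => HTP_f (h p) (ge j)) = _ := funext fun p => hval p j
    rw [e1]
    have c0 : Continuous fun p : I × HomS k l => (p.1 : ℝ) := continuous_subtype_val.comp continuous_fst
    have c1 : Continuous fun p : I × HomS k l => (HTP_f p.2 (ge j)) :=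
      (HTP_eval (ge j)).comp continuous_snd
    refine Continuous.if_le ?_ ?_ c0 continuous_const ?_
    · have c2 : Continuous fun p : I × HomS k l =>
          (Set.projIcc (0 : ℝ) 1 zero_le_one (2 * (p.1 : ℝ)) : I) :=
        continuous_projIcc.comp (continuous_const.mul c0)
      exact (HTP_joint hEXT Φ hΦc).comp (c2.prodMk c1)
    · have c3 : Continuous fun p : I × HomS k l => Φ 1 (HTP_f p.2 (ge j)) :=
        (HTP_joint hEXT Φ hΦc).comp (continuous_const.prodMk c1)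
      have c4 : Continuous fun p : I × HomS k l =>
          ((Real.cos (Real.pi * (2 * (p.1 : ℝ) - 1) / 2) : ℝ) : ℂ) :=
        Complex.continuous_ofReal.comp (Real.continuous_cos.comp
          ((continuous_const.mul ((continuous_const.mul c0).sub continuous_const)).div_const 2))
      have c5 : Continuous fun p : I × HomS k l =>
          ((Real.sin (Real.pi * (2 * (p.1 : ℝ) - 1) / 2) : ℝ) : ℂ) :=
        Complex.continuous_ofReal.comp (Real.continuous_sin.comp
          ((continuous_const.mul ((continuous_const.mul c0).sub continuous_const)).div_const 2))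
      exact (c4.smul c3).add (c5.smul continuous_const)
    · intro p hp
      have e2 : Set.projIcc (0 : ℝ) 1 zero_le_one (2 * (p.1 : ℝ)) = (1 : I) := by
        rw [hp]
        norm_num
      have e3 : Real.pi * (2 * (p.1 : ℝ) - 1) / 2 = 0 := by
        rw [hp]; ring
      rw [e2, e3]
      simp
  have hc : Continuous h := by
    rw [continuous_induced_rng]
    refine continuous_pi fun x => ?_
    exact (hEXT k l).2.2.1 (I × HomS k l) (fun p => HTP_f (h p)) hcg x
  refine ⟨h, h (1, φ₁), hc, fun φ => ?_, fun φ => ?_⟩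
  · have e1 : ((0 : I) : ℝ) ≤ 1 / 2 := by norm_num
    have e2 : Set.projIcc (0 : ℝ) 1 zero_le_one (2 * ((0 : I) : ℝ)) = (0 : I) := by
      simp
    refine (hEXT k l).1 (HTP_f (h (0, φ))) (HTP_f φ) fun j => ?_
    rw [hval, if_pos e1, e2, hΦ0]
    rfl
  · refine (hEXT k l).1 (HTP_f (h (1, φ))) (HTP_f (h (1, φ₁))) fun j => ?_
    rw [hval, hval]
    have e1 : ¬ ((1 : I) : ℝ) ≤ 1 / 2 := by norm_num
    have e3 : Real.pi * (2 * ((1 : I) : ℝ) - 1) / 2 = Real.pi / 2 := by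
      have : ((1 : I) : ℝ) = 1 := rfl
      rw [this]; ring
    simp only [if_neg e1, e3, Real.cos_pi_div_two, Complex.ofReal_zero, zero_smul]

end Pool.HC
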