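import Pool.Agent.Work.MP_118406_hc.Interface

set_option autoImplicit false

/-!
# Block ICL: the inclusions
-/

open scoped InnerProductSpace ComplexConjugate Topology unitInterval
open Set Filter

noncomputable section

namespace Pool.HC

open Pool.SI

theorem ICL_semi (hWVC : Stmt_WVC) (hBAS : Pool.SI.Stmt_BAS) (N M : ℕ) (e : Fin N → Fin M)
    (he : Function.Injective e) : Semi (fun i : Fin N => (sc (e i) : Fk M →L[ℂ] Fk M)) := by
  refine ⟨fun i => sc_mem (e i), fun i => (hBAS M).2.2.2.2.2.2.1 (e i), fun w hw => ?_⟩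
  have h := hWVC N M e he w [] (fun i _ => by simp)
  show ⟪vac M, (Pw (fun i : Fin N => (sc (e i) : Fk M →L[ℂ] Fk M)) w) (vac M)⟫_ℂ = 0
  have h2 : (Pw (fun i : Fin N => (sc (e i) : Fk M →L[ℂ] Fk M)) w) (vac M)
      = bs (w.map e ++ []) := h
  rw [h2, vac, bs_inner, bs_apply, if_neg]
  intro h3
  have h4 := congrArg List.length h3
  rw [List.append_nil, List.length_map, List.length_nil] at h4
  exact hw (List.length_eq_zero_iff.1 h4.symm)

theorem p_ICL (hWVC : Stmt_WVC) (hBAS : Pool.SI.Stmt_BAS) (hUPR : Stmt_UPR) : Stmt_ICL := by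
  refine ⟨fun N M e he => ICL_semi hWVC hBAS N M e he, fun k l => ?_⟩
  obtain ⟨ι, h1, h2⟩ := hUPR l (l + k) _
    (ICL_semi hWVC hBAS l (l + k) (Fin.castAdd k) (Fin.castAdd_injective l k))
  exact ⟨ι, fun i => Subtype.ext (h1 i), h2⟩

end Pool.HC
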