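import Pool.Agent.Work.MP_118406_hc.Interface
import Pool.Agent.Work.MP_118406_si.B_HAA

set_option autoImplicit false

/-! # LAM: the coordinate of a semicircular operator -/

open scoped InnerProductSpace ComplexConjugate Topology unitInterval
open Set Filter

noncomputable section

namespace Pool.HC

open Pool.SI

/-- the distribution function in the angle -/
def LAM_G (θ : ℝ) : ℝ := (2 * θ - Real.sin (2 * θ)) / (2 * Real.pi)

theorem LAM_G_der (θ : ℝ) : HasDerivAt LAM_G (2 / Real.pi * Real.sin θ ^ 2) θ := by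
  have h := (HAA_der 1 θ).div_const (2 * Real.pi)
  have h1 : (fun θ : ℝ => ((1 : ℕ) : ℝ) * (2 * θ - Real.sin (2 * θ)) / (2 * Real.pi)) = LAM_G := by
    funext x
    simp [LAM_G]
  have h2 : ((1 : ℕ) : ℝ) * (4 * Real.sin θ ^ 2) / (2 * Real.pi) = 2 / Real.pi * Real.sin θ ^ 2 := by
    have := Real.pi_ne_zero
    push_cast
    field_simp
    ring
  rw [h1, h2] at h
  exact h

theorem LAM_G_cont : Continuous LAM_G := by
  unfold LAM_G
  fun_prop

theorem LAM_G_zero : LAM_G 0 = 0 := by simp [LAM_G]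

theorem LAM_G_pi : LAM_G Real.pi = 1 := by
  have := Real.pi_ne_zero
  simp [LAM_G, Real.sin_two_pi]

theorem LAM_G_mono : StrictMonoOn LAM_G (Icc 0 Real.pi) := by
  refine strictMonoOn_of_deriv_pos (convex_Icc _ _) LAM_G_cont.continuousOn fun θ hθ => ?_
  rw [interior_Icc] at hθ
  rw [(LAM_G_der θ).deriv]
  have h1 := Real.sin_pos_of_pos_of_lt_pi hθ.1 hθ.2
  have := Real.pi_pos
  positivity

/-- the distribution function -/
def LAM_F (x : ℝ) : ℝ := HAA_g x / (2 * Real.pi)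

theorem LAM_F_cont : Continuous LAM_F := HAA_g_cont.div_const _

theorem LAM_F_cos (θ : ℝ) (h : θ ∈ Icc 0 Real.pi) : LAM_F (2 * Real.cos θ) = LAM_G θ := by
  rw [LAM_F, HAA_g_cos θ h, LAM_G]

theorem LAM_mem (θ : ℝ) (h : θ ∈ Icc 0 Real.pi) : LAM_G θ ∈ Icc (0 : ℝ) 1 := by
  have h0 : (0 : ℝ) ∈ Icc 0 Real.pi := ⟨le_refl _, Real.pi_pos.le⟩
  have hp : Real.pi ∈ Icc 0 Real.pi := ⟨Real.pi_pos.le, le_refl _⟩
  constructor
  · rw [← LAM_G_zero]
    exact LAM_G_mono.monotoneOn h0 h h.1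
  · rw [← LAM_G_pi]
    exact LAM_G_mono.monotoneOn h hp h.2

/-- the bijection -/
def LAM_phi : Icc (0 : ℝ) Real.pi → Icc (0 : ℝ) 1 := fun θ => ⟨LAM_G θ, LAM_mem θ θ.2⟩

theorem LAM_phi_bij : Function.Bijective LAM_phi := by
  constructor
  · intro a b h
    have h1 : LAM_G a = LAM_G b := congrArg Subtype.val h
    exact Subtype.ext (LAM_G_mono.injOn a.2 b.2 h1)
  · intro t
    have h1 : Icc (LAM_G 0) (LAM_G Real.pi) ⊆ LAM_G '' Icc 0 Real.pi :=
      intermediate_value_Icc Real.pi_pos.le LAM_G_cont.continuousOn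
    rw [LAM_G_zero, LAM_G_pi] at h1
    obtain ⟨θ, hθ, h2⟩ := h1 t.2
    exact ⟨⟨θ, hθ⟩, Subtype.ext h2⟩

theorem LAM_phi_cont : Continuous LAM_phi :=
  (LAM_G_cont.comp continuous_subtype_val).subtype_mk _

/-- the homeomorphism -/
def LAM_h : Icc (0 : ℝ) Real.pi ≃ₜ Icc (0 : ℝ) 1 :=
  Continuous.homeoOfEquivCompactToT2 (f := Equiv.ofBijective LAM_phi LAM_phi_bij) LAM_phi_cont

/-- the quantile function, real -/
def LAM_q (t : I) : ℝ := 2 * Real.cos (LAM_h.symm t)

theorem LAM_q_cont : Continuous LAM_q :=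
  continuous_const.mul (Real.continuous_cos.comp
    (continuous_subtype_val.comp LAM_h.symm.continuous))

/-- the quantile function -/
def LAM_Q : C(I, ℂ) := ⟨fun t => (LAM_q t : ℂ), Complex.continuous_ofReal.comp LAM_q_cont⟩

theorem LAM_q_F (x : ℝ) (hx : x ∈ Icc (-2 : ℝ) 2) :
    LAM_q (Set.projIcc 0 1 zero_le_one (LAM_F x)) = x := by
  have hθ : Real.arccos (x / 2) ∈ Icc 0 Real.pi := ⟨Real.arccos_nonneg _, Real.arccos_le_pi _⟩
  have h1 : 2 * Real.cos (Real.arccos (x / 2)) = x := by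
    rw [Real.cos_arccos (by linarith [hx.1]) (by linarith [hx.2])]
    ring
  have h2 : LAM_F x = LAM_G (Real.arccos (x / 2)) := by
    conv_lhs => rw [← h1]
    exact LAM_F_cos _ hθ
  have h3 : Set.projIcc 0 1 zero_le_one (LAM_F x) = LAM_h ⟨Real.arccos (x / 2), hθ⟩ := by
    rw [h2, Set.projIcc_of_mem zero_le_one (LAM_mem _ hθ)]
    rfl
  rw [h3, LAM_q, Homeomorph.symm_apply_apply]
  exact h1

theorem LAM_int (r : ℝ → ℝ) (hr : Continuous r) :
    HAA_m (fun x => r (LAM_F x)) = ∫ u in (0 : ℝ)..1, r u := by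
  have h1 : ∫ θ in (0 : ℝ)..Real.pi, r (LAM_F (2 * Real.cos θ)) * Real.sin θ ^ 2 =
      ∫ θ in (0 : ℝ)..Real.pi, r (LAM_G θ) * Real.sin θ ^ 2 := by
    refine intervalIntegral.integral_congr fun θ hθ => ?_
    rw [uIcc_of_le Real.pi_pos.le] at hθ
    simp only [LAM_F_cos θ hθ]
  have h2 := intervalIntegral.integral_comp_mul_deriv (a := 0) (b := Real.pi) (f := LAM_G)
    (f' := fun θ => 2 / Real.pi * Real.sin θ ^ 2) (g := r) (fun θ _ => LAM_G_der θ)
    (by fun_prop) hr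
  rw [LAM_G_zero, LAM_G_pi] at h2
  rw [HAA_m, h1, ← h2, ← intervalIntegral.integral_const_mul]
  refine intervalIntegral.integral_congr fun θ _ => ?_
  simp only [Function.comp_apply]
  ring

theorem p_LAM (hBAS : Stmt_BAS) (hSCM : Stmt_SCM) : Stmt_LAM := by
  refine ⟨LAM_Q, fun l i => ?_⟩
  have hs : IsSelfAdjoint (sc i : Fk l →L[ℂ] Fk l) := (hBAS l).2.2.2.2.2.2.1 i
  have hn : ‖(sc i : Fk l →L[ℂ] Fk l)‖ ≤ 2 := (hBAS l).2.2.2.2.2.2.2 i
  have hsn : IsStarNormal (sc i : Fk l →L[ℂ] Fk l) := hs.isStarNormal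
  set f : C(spectrum ℂ (sc i : Fk l →L[ℂ] Fk l), I) :=
    ⟨fun z => Set.projIcc 0 1 zero_le_one (LAM_F (z : ℂ).re),
      continuous_projIcc.comp (LAM_F_cont.comp
        (Complex.continuous_re.comp continuous_subtype_val))⟩ with hf
  set Λ : C(I, ℂ) →⋆ₐ[ℂ] (Fk l →L[ℂ] Fk l) :=
    (cfcHom hsn).comp (ContinuousMap.compStarAlgHom' ℂ ℂ f) with hΛ
  have hΛ1 : ∀ h : C(I, ℂ), Λ h = cfcHom hsn (h.comp f) := fun h => rfl
  refine ⟨Λ, fun t => ?_, fun h => ?_, fun h => ?_, ?_⟩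
  · show conj ((LAM_q t : ℝ) : ℂ) = _
    rw [Complex.conj_ofReal]
    rfl
  · have e : {x : Fk l →L[ℂ] Fk l | ∃ j, j = i ∧ x = sc j} = {sc i} := by
      ext x
      simp
    rw [AG, e, hΛ1]
    exact cfcHom_mem_elemental hsn _
  · have hc : Continuous fun x : ℝ => h (Set.projIcc 0 1 zero_le_one x) :=
      h.continuous.comp continuous_projIcc
    set r1 : ℝ → ℝ := fun x => (h (Set.projIcc 0 1 zero_le_one x)).re with hr1
    set r2 : ℝ → ℝ := fun x => (h (Set.projIcc 0 1 zero_le_one x)).im with hr2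
    have c1 : Continuous r1 := Complex.continuous_re.comp hc
    have c2 : Continuous r2 := Complex.continuous_im.comp hc
    have c1' : Continuous fun z : ℂ => ((r1 (LAM_F z.re) : ℝ) : ℂ) :=
      Complex.continuous_ofReal.comp (c1.comp (LAM_F_cont.comp Complex.continuous_re))
    have c2' : Continuous fun z : ℂ => ((r2 (LAM_F z.re) : ℝ) : ℂ) :=
      Complex.continuous_ofReal.comp (c2.comp (LAM_F_cont.comp Complex.continuous_re))
    have ch : Continuous fun z : ℂ => h (Set.projIcc 0 1 zero_le_one (LAM_F z.re)) :=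
      hc.comp (LAM_F_cont.comp Complex.continuous_re)
    have h1 : Λ h = cfc (fun z : ℂ => h (Set.projIcc 0 1 zero_le_one (LAM_F z.re)))
        (sc i : Fk l →L[ℂ] Fk l) := by
      rw [cfc_apply _ _ hsn ch.continuousOn, hΛ1]
      rfl
    have h2 : Λ h = HAA_c (sc i) (fun x => r1 (LAM_F x)) +
        Complex.I • HAA_c (sc i) (fun x => r2 (LAM_F x)) := by
      rw [h1, HAA_c, HAA_c,
        ← cfc_const_mul Complex.I (fun z : ℂ => ((r2 (LAM_F z.re) : ℝ) : ℂ))
          (sc i : Fk l →L[ℂ] Fk l) c2'.continuousOn,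
        ← cfc_add (sc i : Fk l →L[ℂ] Fk l) (fun z : ℂ => ((r1 (LAM_F z.re) : ℝ) : ℂ))
          (fun z : ℂ => Complex.I * ((r2 (LAM_F z.re) : ℝ) : ℂ))
          c1'.continuousOn (continuous_const.mul c2').continuousOn]
      refine cfc_congr fun z _ => ?_
      simp only [hr1, hr2]
      rw [mul_comm Complex.I]
      exact (Complex.re_add_im _).symm
    have h3 : lint h = ((∫ t in (0 : ℝ)..1, r1 t : ℝ) : ℂ) +
        Complex.I * ((∫ t in (0 : ℝ)..1, r2 t : ℝ) : ℂ) := by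
      rw [← intervalIntegral.integral_ofReal, ← intervalIntegral.integral_ofReal,
        ← intervalIntegral.integral_const_mul, ← intervalIntegral.integral_add, lint]
      · refine intervalIntegral.integral_congr fun t _ => ?_
        simp only [hr1, hr2]
        rw [mul_comm Complex.I]
        exact (Complex.re_add_im _).symm
      · exact (Complex.continuous_ofReal.comp c1).intervalIntegrable _ _
      · exact (continuous_const.mul (Complex.continuous_ofReal.comp c2)).intervalIntegrable _ _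
    rw [tau, h2, add_apply, smul_apply, inner_add_right, inner_smul_right,
      HAA_mom hBAS hSCM i (fun x => r1 (LAM_F x)) (c1.comp LAM_F_cont),
      HAA_mom hBAS hSCM i (fun x => r2 (LAM_F x)) (c2.comp LAM_F_cont),
      LAM_int r1 c1, LAM_int r2 c2, h3]
  · rw [hΛ1]
    have h1 : LAM_Q.comp f = (ContinuousMap.id ℂ).restrict _ := by
      ext z
      obtain ⟨h3, h4⟩ := HAA_spec _ hs hn (z : ℂ) z.2
      show ((LAM_q (Set.projIcc 0 1 zero_le_one (LAM_F (z : ℂ).re)) : ℝ) : ℂ) = z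
      rw [LAM_q_F _ h4]
      exact h3.symm
    rw [h1, cfcHom_id]

end Pool.HC
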