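import Pool.Agent.Work.MP_118406_hc.Interface

set_option autoImplicit false

/-!
# MP_118406_an, THEOREM HC: block PHI (helper71)
-/

open scoped InnerProductSpace ComplexConjugate Topology unitInterval
open Set Filter

noncomputable section

namespace Pool.HC

open Pool.SI

theorem PHI_sn_mem {N : ℕ} (S : StarSubalgebra ℂ (Fk N →L[ℂ] Fk N)) {x : Fk N →L[ℂ] Fk N}
    (hx : x ∈ S) : ∀ n : ℕ, Sn x n ∈ S
  | 0 => one_mem _
  | 1 => hx
  | n + 2 => sub_mem (mul_mem hx (PHI_sn_mem S hx (n + 1))) (PHI_sn_mem S hx n)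

theorem p_PHI (hWMP : Stmt_WMP) (hGEX : Stmt_GEX) (hGCR : Stmt_GCR) (hCEN : Stmt_CEN)
    (hBAS : Pool.SI.Stmt_BAS) : Stmt_PHI := by
  intro l i₂ Q Λ g hC hg
  obtain ⟨_, hW2, _, _, _⟩ := hWMP
  obtain ⟨hC1, hC2, hC3, hC4, hC5, hC6, hC7⟩ := hCEN
  obtain ⟨_, _, _, _, _, _, hsa, _⟩ := hBAS l
  obtain ⟨hQ, hΛ, hτ, hΛQ⟩ := hC
  have hy2 : fam i₂ (Λ (Q.comp g)) i₂ = Λ (Q.comp g) := by simp [fam]
  have hyn : ∀ i, i ≠ i₂ → fam i₂ (Λ (Q.comp g)) i = sc i := by
    intro i hi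
    simp [fam, hi]
  -- the Chebyshev polynomials of the elements of the family
  have hSn : ∀ (c : Fin l) (n : ℕ), 0 < n →
      Sn (fam i₂ (Λ (Q.comp g)) c) n ∈ AG (fun j => j = c) ∧
        tau (Sn (fam i₂ (Λ (Q.comp g)) c) n) = 0 := by
    intro c n hn
    by_cases hc : c = i₂
    · subst hc
      rw [hy2]
      obtain ⟨h1, h2⟩ := hC2 l c Q Λ g ⟨hQ, hΛ, hτ, hΛQ⟩ hg n
      rw [h1]
      exact ⟨hΛ _, h2 hn⟩
    · rw [hyn c hc]
      exact ⟨PHI_sn_mem _ (hC7 l (fun j => j = c) c rfl) n, hC1 l c n hn⟩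
  refine ⟨?_, ?_, ?_⟩
  · intro i
    by_cases hi : i = i₂
    · rw [hi, hy2]
      exact hC6 l _ (hΛ _)
    · rw [hyn i hi]
      exact sc_mem i
  · intro i
    by_cases hi : i = i₂
    · rw [hi, hy2, ← map_star]
      congr 1
      ext t
      exact hQ (g t)
    · rw [hyn i hi, hsa]
  · intro w hw
    cases w with
    | nil => exact absurd rfl hw
    | cons i w =>
      refine hC5 l (fun j => j = i) _ ?_
      refine hGCR l (Fk l) (vac l) (fam i₂ (Λ (Q.comp g))) (Fin l) id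
        (fun c => Hp (fun j => j = c)) ?_ i w
      intro c u hu hall ξ hξ
      have hrep : u = List.replicate u.length c := List.eq_replicate_of_mem hall
      have hlen : 0 < u.length := List.length_pos_of_ne_nil hu
      rw [hrep, hW2]
      obtain ⟨hmem, htau⟩ := hSn c u.length hlen
      have hξm : ξ ∈ Hm (fun j : Fin l => j = c) := by
        rcases hξ with h | ⟨c', hc', h⟩
        · rw [h]
          exact hC4 l _
        · exact hC3 l (fun j => j = c') (fun j => j = c)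
            (fun i hi hi' => hc' (hi.symm.trans hi')) h
      have h3 := hGEX l (fun j => j = c) _ hmem ξ hξm
      rw [htau, zero_smul, sub_zero] at h3
      exact h3

end Pool.HC
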