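import Pool.Agent.Work.MP_118406_hc.Interface

set_option autoImplicit false

open scoped InnerProductSpace ComplexConjugate Topology unitInterval
open Set Filter

noncomputable section

namespace Pool.HC

open Pool.SI

theorem p_PHP (hUPR : Stmt_UPR) (hEXT : Stmt_EXT) (hLAM : Stmt_LAM) (hZIG : Stmt_ZIG)
    (hALX : Stmt_ALX) (hPHI : Stmt_PHI) (hBET : Stmt_BET) : Stmt_PHP := by
  intro k l hl
  let i₁ : Fin l := ⟨0, by omega⟩
  let i₂ : Fin l := ⟨1, by omega⟩
  have hne : i₁ ≠ i₂ := by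
    intro h
    have h' := congrArg Fin.val h
    exact absurd h' (by simp [i₁, i₂])
  obtain ⟨Q, hQ⟩ := hLAM
  obtain ⟨Λ, hΛ⟩ := hQ l i₂
  obtain ⟨Z, hZ0, hZL, hZm⟩ := hZIG (k + 1) (Nat.succ_pos k)
  obtain ⟨G, hG0, hG1, hGL⟩ := hALX Z hZ0 hZL
  choose Φ hΦ hΦτ using fun r : I =>
    hUPR l l (fam i₂ (Λ (Q.comp (G r)))) (hPHI l i₂ Q Λ (G r) hΛ (hGL r))
  obtain ⟨β, hβ, -⟩ := hUPR (l + k) l (bet k i₁ i₂ (Λ (Q.comp Z)) (fun j : ℕ => Λ (em j)))
    (hBET l k i₁ i₂ Q Λ Z hne hΛ hZL hZm)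
  have e0 : Q.comp (G 0) = Q := by
    ext t
    rw [ContinuousMap.comp_apply, hG0]
  have e1 : G 1 = Z := ContinuousMap.ext hG1
  refine ⟨Φ, β, ?_, ?_, ?_⟩
  · refine (hEXT l l).2.2.1 I Φ (fun i => ?_)
    have hc : Continuous (fun r : I => (Φ r (ge i) : Fk l →L[ℂ] Fk l)) := by
      have hfun : (fun r : I => (Φ r (ge i) : Fk l →L[ℂ] Fk l))
          = fun r : I => fam i₂ (Λ (Q.comp (G r))) i := funext (fun r => hΦ r i)
      rw [hfun]
      by_cases hi : i = i₂
      · have hf2 : (fun r : I => fam i₂ (Λ (Q.comp (G r))) i) = fun r : I => Λ (Q.comp (G r)) := by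
          funext r
          simp [fam, hi]
        rw [hf2]
        have hLc : Continuous (fun h : C(I, ℂ) => Λ h) := by
          refine AddMonoidHomClass.continuous_of_bound Λ 1 (fun h => ?_)
          rw [one_mul]
          exact NonUnitalStarAlgHom.norm_apply_le Λ h
        exact hLc.comp ((ContinuousMap.continuous_postcomp Q).comp G.continuous)
      · have hf2 : (fun r : I => fam i₂ (Λ (Q.comp (G r))) i) = fun _ : I => sc i := by
          funext r
          simp [fam, hi]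
        rw [hf2]
        exact continuous_const
    exact continuous_induced_rng.2 hc
  · refine (hEXT l l).1 (Φ 0) (StarAlgHom.id ℂ (Alg l)) (fun i => Subtype.ext ?_)
    rw [hΦ 0 i, e0]
    show fam i₂ (Λ Q) i = sc i
    rw [hΛ.2.2.2]
    by_cases hi : i = i₂
    · simp [fam, hi]
    · simp [fam, hi]
  · intro i
    refine Subtype.ext ?_
    rw [hβ, hΦ 1 i, e1, bet, Fin.append_left]

end Pool.HC
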