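import Pool.Agent.Work.MP_118406_hc.Interface

set_option autoImplicit false

/-!
# MP_118406_an, THEOREM HC: block ROT (helper71)
-/

open scoped InnerProductSpace ComplexConjugate Topology unitInterval
open Set Filter

noncomputable section

namespace Pool.HC

open Pool.SI

/-- the vector `L_(w_1) .. L_(w_n) Ω` -/
def ROT_v {N k : ℕ} (L : Fin N → (Fk k →L[ℂ] Fk k)) : List (Fin N) → Fk k
  | [] => vac k
  | i :: w => L i (ROT_v L w)

theorem ROT_ind {N k : ℕ} (L A : Fin N → (Fk k →L[ℂ] Fk k)) (h0 : ∀ i, A i (vac k) = 0)
    (h1 : ∀ (i j : Fin N) (ξ : Fk k), A i (L j ξ) = if j = i then ξ else 0) :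
    ∀ w : List (Fin N), Pw (fun i => L i + A i) w (vac k) = ROT_v L w
  | [] => by simp [Pw, ROT_v]
  | [i] => by simp [Pw, ROT_v, h0]
  | i :: j :: w => by
    have h2 := ROT_ind L A h0 h1 (j :: w)
    have h3 := ROT_ind L A h0 h1 w
    rw [Pw, sub_apply, mul_apply_eq_comp, h2]
    simp only [ROT_v, add_apply, h1]
    by_cases hij : j = i
    · simp only [hij, if_true]
      rw [h3]
      abel
    · simp only [hij, if_false, zero_apply]
      abel

theorem p_ROT (hBAS : Pool.SI.Stmt_BAS) : Stmt_ROT := by
  intro k t
  obtain ⟨_, _, hvac, hann, hext, _, hsa, _⟩ := hBAS (k + k)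
  set c : ℂ := ((Real.cos t : ℝ) : ℂ) with hc
  set s : ℂ := ((Real.sin t : ℝ) : ℂ) with hs
  have hcs : c * c + s * s = 1 := by
    rw [hc, hs]
    norm_cast
    nlinarith [Real.sin_sq_add_cos_sq t]
  have hlc : ∀ (a b : Fin (k + k)) (ξ : Fk (k + k)),
      ContinuousLinearMap.adjoint (lc a) (lc b ξ) = if a = b then ξ else 0 := by
    intro a b ξ
    have h1 : (ContinuousLinearMap.adjoint (lc a)).comp (lc b : Fk (k + k) →L[ℂ] Fk (k + k)) =
        if a = b then ContinuousLinearMap.id ℂ _ else 0 := by
      apply hext
      intro w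
      rw [ContinuousLinearMap.comp_apply, lc_bs, (hann a b w).1]
      by_cases hab : a = b
      · simp [hab]
      · simp [hab]
    have h2 := congrArg (fun T : Fk (k + k) →L[ℂ] Fk (k + k) => T ξ) h1
    simp only [ContinuousLinearMap.comp_apply] at h2
    rw [h2]
    by_cases hab : a = b
    · simp [hab]
    · simp [hab]
  set L : Fin k → (Fk (k + k) →L[ℂ] Fk (k + k)) := fun j =>
    c • lc (Fin.castAdd k j) + s • lc (Fin.natAdd k j) with hL
  set A : Fin k → (Fk (k + k) →L[ℂ] Fk (k + k)) := fun j =>
    c • ContinuousLinearMap.adjoint (lc (Fin.castAdd k j)) +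
      s • ContinuousLinearMap.adjoint (lc (Fin.natAdd k j)) with hA
  have hy : (fun j : Fin k => c • (sc (Fin.castAdd k j) : Fk (k + k) →L[ℂ] Fk (k + k)) +
      s • sc (Fin.natAdd k j)) = fun j => L j + A j := by
    funext j
    simp only [hL, hA, sc, smul_add]
    abel
  have h0 : ∀ i, A i (vac (k + k)) = 0 := by
    intro i
    simp only [hA, add_apply, smul_apply]
    rw [(hvac _).1, (hvac _).1]
    simp
  have h1 : ∀ (i j : Fin k) (ξ : Fk (k + k)), A i (L j ξ) = if j = i then ξ else 0 := by
    intro i j ξ
    have e1 : (Fin.castAdd k i = Fin.castAdd k j) ↔ j = i := by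
      constructor
      · intro h
        exact (Fin.castAdd_injective k k h).symm
      · rintro rfl
        rfl
    have e2 : (Fin.natAdd k i = Fin.natAdd k j) ↔ j = i := by
      constructor
      · intro h
        exact (Fin.natAdd_injective k k h).symm
      · rintro rfl
        rfl
    have e3 : ¬ (Fin.castAdd k i = Fin.natAdd k j) := by
      intro h
      have := congrArg Fin.val h
      simp at this
      omega
    have e4 : ¬ (Fin.natAdd k i = Fin.castAdd k j) := by
      intro h
      have := congrArg Fin.val h
      simp at this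
      omega
    simp only [hA, hL, add_apply, smul_apply, map_add,
      map_smul, hlc, e1, e2, e3, e4, if_false, smul_zero, add_zero, zero_add]
    by_cases hij : j = i
    · simp only [hij, if_true, smul_smul]
      rw [← add_smul, hcs, one_smul]
    · simp [hij]
  refine ⟨?_, ?_, ?_⟩
  · intro i
    exact add_mem (SMulMemClass.smul_mem c (sc_mem _)) (SMulMemClass.smul_mem s (sc_mem _))
  · intro i
    have hc' : star c = c := Complex.conj_ofReal _
    have hs' : star s = s := Complex.conj_ofReal _
    simp only [star_add, star_smul, hsa, hc', hs']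
  · intro w hw
    rw [hy]
    unfold tau
    rw [ROT_ind L A h0 h1 w]
    cases w with
    | nil => exact absurd rfl hw
    | cons i w =>
      simp only [ROT_v, hL, add_apply, smul_apply]
      rw [inner_add_right, inner_smul_right, inner_smul_right,
        ← ContinuousLinearMap.adjoint_inner_left, ← ContinuousLinearMap.adjoint_inner_left,
        (hvac _).1, (hvac _).1]
      simp

end Pool.HC
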