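import Pool.Agent.Work.MP_118406_hc.Interface

set_option autoImplicit false

/-! Block RTP: the rotated homomorphisms. -/

open scoped InnerProductSpace ComplexConjugate Topology unitInterval
open Set Filter Pool.SI

noncomputable section

namespace Pool.HC

theorem p_RTP (hUPR : Stmt_UPR) (hICL : Stmt_ICL) (hPSI : Stmt_PSI) (hROT : Stmt_ROT) :
    Stmt_RTP := by
  classical
  intro k l
  obtain ⟨ι, hι⟩ := hICL.2 k l
  have key : ∀ (t : ℝ) (φ : Alg k →⋆ₐ[ℂ] Alg l),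
      (∀ x : Alg k, tau (φ x : Fk l →L[ℂ] Fk l) = tau (x : Fk k →L[ℂ] Fk k)) →
      ∃ ρ : Alg k →⋆ₐ[ℂ] Alg (l + k), ∀ j : Fin k, ρ (ge j) =
        ((Real.cos t : ℝ) : ℂ) • ι (φ (ge j)) + ((Real.sin t : ℝ) : ℂ) • ge (Fin.natAdd l j) := by
    intro t φ hφ
    obtain ⟨Ψ, hΨ, -⟩ := hUPR (k + k) (l + k) _ (hPSI k l φ ι hφ hι)
    obtain ⟨ρ, hρ, -⟩ := hUPR k (k + k) _ (hROT k t)
    refine ⟨Ψ.comp ρ, fun j => ?_⟩
    have h1 : ρ (ge j) = ((Real.cos t : ℝ) : ℂ) • ge (Fin.castAdd k j) +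
        ((Real.sin t : ℝ) : ℂ) • ge (Fin.natAdd k j) := Subtype.ext (hρ j)
    have h2 : Ψ (ge (Fin.castAdd k j)) = ι (φ (ge j)) := by
      apply Subtype.ext
      rw [hΨ, Fin.append_left]
    have h3 : Ψ (ge (Fin.natAdd k j)) = ge (Fin.natAdd l j) := by
      apply Subtype.ext
      rw [hΨ, Fin.append_right]
      rfl
    show Ψ (ρ (ge j)) = _
    rw [h1, map_add, map_smul, map_smul, h2, h3]
  refine ⟨ι, fun t φ => if h : (∀ x : Alg k, tau (φ x : Fk l →L[ℂ] Fk l) =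
      tau (x : Fk k →L[ℂ] Fk k)) then Classical.choose (key t φ h) else ι.comp φ, hι.1,
    fun t φ h j => ?_⟩
  simp only [dif_pos h]
  exact Classical.choose_spec (key t φ h) j

end Pool.HC
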