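import Pool.Agent.Work.MP_118406_hc.Interface

set_option autoImplicit false

/-! Block TRA: homomorphisms preserve the vacuum state. -/

open scoped InnerProductSpace ComplexConjugate Topology unitInterval
open Set Filter Pool.SI

noncomputable section

namespace Pool.HC

theorem p_TRA (hALC : Stmt_ALC) (hUTF : Stmt_UTF) (hEXT : Stmt_EXT) : Stmt_TRA := by
  intro k l hk φ x
  have hv : ‖(vac l : Fk l)‖ = 1 := bs_orthonormal.1 []
  have hadd : ∀ a b : Alg k, tau (φ (a + b) : Fk l →L[ℂ] Fk l) =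
      tau (φ a : Fk l →L[ℂ] Fk l) + tau (φ b : Fk l →L[ℂ] Fk l) := by
    intro a b
    rw [map_add]
    show ⟪vac l, (φ a : Fk l →L[ℂ] Fk l) (vac l) + (φ b : Fk l →L[ℂ] Fk l) (vac l)⟫_ℂ = _
    rw [inner_add_right]
    rfl
  have hsm : ∀ (c : ℂ) (a : Alg k), tau (φ (c • a) : Fk l →L[ℂ] Fk l) =
      c • tau (φ a : Fk l →L[ℂ] Fk l) := by
    intro c a
    rw [map_smul]
    show ⟪vac l, c • (φ a : Fk l →L[ℂ] Fk l) (vac l)⟫_ℂ = _
    rw [inner_smul_right]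
    rfl
  have hbd : ∀ a : Alg k, ‖tau (φ a : Fk l →L[ℂ] Fk l)‖ ≤ 1 * ‖a‖ := by
    intro a
    have h1 : ‖(φ a : Fk l →L[ℂ] Fk l)‖ ≤ ‖a‖ := (hEXT k l).2.1 φ a
    have h2 : ‖tau (φ a : Fk l →L[ℂ] Fk l)‖ ≤ ‖(vac l : Fk l)‖ *
        ‖(φ a : Fk l →L[ℂ] Fk l) (vac l)‖ := norm_inner_le_norm _ _
    have h3 : ‖(φ a : Fk l →L[ℂ] Fk l) (vac l)‖ ≤ ‖(φ a : Fk l →L[ℂ] Fk l)‖ * ‖(vac l : Fk l)‖ :=
      ContinuousLinearMap.le_opNorm _ _
    rw [hv, mul_one] at h3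
    rw [hv, one_mul] at h2
    rw [one_mul]
    exact h2.trans (h3.trans h1)
  let σ₀ : Alg k →ₗ[ℂ] ℂ :=
    { toFun := fun a => tau (φ a : Fk l →L[ℂ] Fk l)
      map_add' := hadd
      map_smul' := hsm }
  have h := hUTF k hk (σ₀.mkContinuous 1 hbd) (fun a b => by
    show tau (φ (a * b) : Fk l →L[ℂ] Fk l) = tau (φ (b * a) : Fk l →L[ℂ] Fk l)
    rw [map_mul, map_mul]
    exact (hALC l).2.2 _ (φ a).2 _ (φ b).2) (by
    show tau (φ 1 : Fk l →L[ℂ] Fk l) = 1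
    rw [map_one]
    show ⟪vac l, vac l⟫_ℂ = 1
    rw [inner_self_eq_norm_sq_to_K, hv]
    norm_num) x
  exact h

end Pool.HC
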