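import Pool.Agent.Work.MP_118406_hc.Interface

set_option autoImplicit false

/-!
# MP_118406_an, THEOREM HC, block UPA (typist helper87)
-/

open scoped InnerProductSpace ComplexConjugate Topology unitInterval
open Set Filter

noncomputable section

namespace Pool.HC

open Pool.SI

theorem UPA_tau_one (l : ℕ) : tau (1 : Fk l →L[ℂ] Fk l) = 1 := by
  have h : tau (1 : Fk l →L[ℂ] Fk l) = ⟪vac l, vac l⟫_ℂ := rfl
  rw [h, vac, bs_inner, bs_apply, if_pos rfl]

theorem UPA_tau_add {l : ℕ} (x y : Fk l →L[ℂ] Fk l) : tau (x + y) = tau x + tau y := by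
  unfold tau
  rw [add_apply, inner_add_right]

theorem UPA_tau_smul {l : ℕ} (c : ℂ) (x : Fk l →L[ℂ] Fk l) : tau (c • x) = c * tau x := by
  unfold tau
  rw [smul_apply, inner_smul_right]

theorem UPA_tau_zero {l : ℕ} : tau (0 : Fk l →L[ℂ] Fk l) = 0 := by
  unfold tau
  rw [zero_apply, inner_zero_right]

theorem p_UPA (hWMP : Stmt_WMP) (hWVC : Stmt_WVC) (hWSP : Stmt_WSP) (hBAS : Pool.SI.Stmt_BAS) :
    Stmt_UPA := by
  intro N l y hy z hz
  refine ⟨?_, ?_⟩
  · have hz1 : z ∈ Algebra.adjoin ℂ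
        (Set.range (fun i : Fin N => ((sc i : Fk N →L[ℂ] Fk N), y i))) := by
      have h1 : z ∈ (StarAlgebra.adjoin ℂ
          (Set.range (fun i : Fin N => ((sc i : Fk N →L[ℂ] Fk N), y i)))).toSubalgebra := hz
      rw [StarAlgebra.adjoin_toSubalgebra] at h1
      refine Algebra.adjoin_mono ?_ h1
      refine Set.union_subset (le_refl _) ?_
      intro x hx
      rw [Set.mem_star] at hx
      obtain ⟨i, hi⟩ := hx
      refine ⟨i, ?_⟩
      rw [← star_star x, ← hi]
      refine Prod.ext ?_ ?_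
      · exact ((hBAS N).2.2.2.2.2.2.1 i).symm
      · exact (hy.2.1 i).symm
    have hz2 := hWSP N _ _ z hz1
    clear hz hz1
    induction hz2 using Submodule.span_induction with
    | mem x hx =>
      obtain ⟨w, rfl⟩ := hx
      have h1 : (Pw (fun i : Fin N => ((sc i : Fk N →L[ℂ] Fk N), y i)) w).1 =
          Pw (fun i : Fin N => (sc i : Fk N →L[ℂ] Fk N)) w :=
        hWMP.1 N _ _ (RingHom.fst (Fk N →L[ℂ] Fk N) (Fk l →L[ℂ] Fk l)) _ w
      have h2 : (Pw (fun i : Fin N => ((sc i : Fk N →L[ℂ] Fk N), y i)) w).2 = Pw y w :=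
        hWMP.1 N _ _ (RingHom.snd (Fk N →L[ℂ] Fk N) (Fk l →L[ℂ] Fk l)) _ w
      rw [h1, h2]
      by_cases hw : w = []
      · subst hw
        rw [Pw, Pw, UPA_tau_one, UPA_tau_one]
      · rw [hy.2.2 w hw]
        have h3 := hWVC N N id Function.injective_id w [] (by intro i _; simp)
        rw [List.map_id, List.append_nil] at h3
        unfold tau
        have h4 : Pw (fun i : Fin N => (sc i : Fk N →L[ℂ] Fk N)) w (vac N) = bs w := h3
        rw [h4, vac, bs_inner, bs_apply, if_neg (Ne.symm hw)]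
    | zero => rw [Prod.fst_zero, Prod.snd_zero, UPA_tau_zero, UPA_tau_zero]
    | add x x' _ _ hx hx' => rw [Prod.fst_add, Prod.snd_add, UPA_tau_add, UPA_tau_add, hx, hx']
    | smul c x _ hx => rw [Prod.smul_fst, Prod.smul_snd, UPA_tau_smul, UPA_tau_smul, hx]
  · induction hz using StarAlgebra.adjoin_induction with
    | mem x hx =>
      obtain ⟨i, rfl⟩ := hx
      exact ⟨sc_mem i, hy.1 i⟩
    | algebraMap r => exact ⟨(Alg N).algebraMap_mem r, (Alg l).algebraMap_mem r⟩
    | add x x' _ _ hx hx' => exact ⟨add_mem hx.1 hx'.1, add_mem hx.2 hx'.2⟩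
    | mul x x' _ _ hx hx' => exact ⟨mul_mem hx.1 hx'.1, mul_mem hx.2 hx'.2⟩
    | star x _ hx => exact ⟨star_mem hx.1, star_mem hx.2⟩

end Pool.HC
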