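import Pool.Agent.Work.MP_118406_hc.Interface

set_option autoImplicit false

/-!
# MP_118406_an, THEOREM HC, block UPB (typist helper87)
-/

open scoped InnerProductSpace ComplexConjugate Topology unitInterval
open Set Filter

noncomputable section

namespace Pool.HC

open Pool.SI

theorem UPB_self {H : Type} [NormedAddCommGroup H] [InnerProductSpace ℂ H] [CompleteSpace H]
    (T : H →L[ℂ] H) (hT : star T = T) (ξ : H) (m : ℕ) :
    ‖T ξ‖ ^ (2 ^ m) * ‖ξ‖ ≤ ‖(T ^ (2 ^ m)) ξ‖ * ‖ξ‖ ^ (2 ^ m) := by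
  have key : ∀ n : ℕ, ‖(T ^ n) ξ‖ ^ 2 ≤ ‖(T ^ (2 * n)) ξ‖ * ‖ξ‖ := by
    intro n
    have hn : star (T ^ n) = T ^ n := by rw [star_pow, hT]
    have h1 : ⟪(T ^ n) ξ, (T ^ n) ξ⟫_ℂ = ⟪(T ^ (2 * n)) ξ, ξ⟫_ℂ := by
      have h2 : (T ^ (2 * n)) ξ = (star (T ^ n)) ((T ^ n) ξ) := by
        rw [hn, two_mul, pow_add]
        rfl
      rw [h2, ContinuousLinearMap.star_eq_adjoint, ContinuousLinearMap.adjoint_inner_left]
    have h3 : ‖⟪(T ^ n) ξ, (T ^ n) ξ⟫_ℂ‖ = ‖(T ^ n) ξ‖ ^ 2 := by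
      rw [inner_self_eq_norm_sq_to_K]
      simp
    rw [← h3, h1]
    exact norm_inner_le_norm _ _
  induction m with
  | zero => simp
  | succ m ih =>
    have hk := key (2 ^ m)
    have e1 : (2 : ℕ) ^ (m + 1) = 2 * 2 ^ m := by rw [pow_succ]; ring
    rw [e1]
    by_cases h0 : ‖ξ‖ = 0
    · rw [h0, mul_zero, zero_pow (by positivity), mul_zero]
    · have hpos : 0 < ‖ξ‖ := lt_of_le_of_ne (norm_nonneg _) (Ne.symm h0)
      have h4 : (‖T ξ‖ ^ (2 ^ m) * ‖ξ‖) ^ 2 ≤ (‖(T ^ (2 ^ m)) ξ‖ * ‖ξ‖ ^ (2 ^ m)) ^ 2 := by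
        gcongr
      have h5 : (‖(T ^ (2 ^ m)) ξ‖ * ‖ξ‖ ^ (2 ^ m)) ^ 2 ≤
          (‖(T ^ (2 * 2 ^ m)) ξ‖ * ‖ξ‖) * ‖ξ‖ ^ (2 * 2 ^ m) := by
        rw [mul_pow, ← pow_mul, mul_comm (2 ^ m) 2]
        gcongr
      have h6 : (‖T ξ‖ ^ (2 * 2 ^ m) * ‖ξ‖) * ‖ξ‖ ≤
          (‖(T ^ (2 * 2 ^ m)) ξ‖ * ‖ξ‖ ^ (2 * 2 ^ m)) * ‖ξ‖ := by
        calc (‖T ξ‖ ^ (2 * 2 ^ m) * ‖ξ‖) * ‖ξ‖ = (‖T ξ‖ ^ (2 ^ m) * ‖ξ‖) ^ 2 := by
              rw [mul_pow, ← pow_mul, mul_comm (2 ^ m) 2]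
              ring
          _ ≤ _ := h4.trans h5
          _ = _ := by ring
      exact le_of_mul_le_mul_right h6 hpos

theorem UPB_bound {a b C K : ℝ} (hb : 0 < b) (hC : 0 ≤ C) (hK : 0 ≤ K)
    (h : ∀ m : ℕ, a ^ (2 ^ m) * b ≤ K * C ^ (2 ^ m) * b ^ (2 ^ m)) : a ≤ C * b := by
  by_contra hlt
  push Not at hlt
  have hCb : 0 ≤ C * b := by positivity
  have ha : 0 < a := lt_of_le_of_lt hCb hlt
  set s := C * b / a with hs
  have hs0 : 0 ≤ s := by positivity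
  have hs1 : s < 1 := by rw [hs, div_lt_one ha]; exact hlt
  obtain ⟨n, hn⟩ := exists_pow_lt_of_lt_one (show (0 : ℝ) < b / (K + 1) by positivity) hs1
  have h1 : s ^ (2 ^ n) ≤ s ^ n := pow_le_pow_of_le_one hs0 hs1.le (Nat.lt_two_pow_self).le
  have h2 : b ≤ K * s ^ (2 ^ n) := by
    have h3 := h n
    have h4 : K * C ^ (2 ^ n) * b ^ (2 ^ n) = K * s ^ (2 ^ n) * a ^ (2 ^ n) := by
      rw [hs, div_pow, mul_pow]
      field_simp
    rw [h4] at h3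
    have h5 : 0 < a ^ (2 ^ n) := by positivity
    have h6 : b * a ^ (2 ^ n) ≤ K * s ^ (2 ^ n) * a ^ (2 ^ n) := by linarith
    exact le_of_mul_le_mul_right h6 h5
  have h7 : s ^ (2 ^ n) < b / (K + 1) := lt_of_le_of_lt h1 hn
  have h8 : s ^ (2 ^ n) * (K + 1) < b := by rwa [lt_div_iff₀ (by positivity)] at h7
  have h9 : 0 ≤ s ^ (2 ^ n) := by positivity
  nlinarith

theorem UPB_trace (hALC : Pool.SI.Stmt_ALC) {l : ℕ} {x : Fk l →L[ℂ] Fk l} (hx : x ∈ Alg l) :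
    ‖x (vac l)‖ = ‖(star x) (vac l)‖ := by
  have h1 := (hALC l).2.2 (star x) (star_mem hx) x hx
  have h2 : ⟪vac l, (star x * x) (vac l)⟫_ℂ = ((‖x (vac l)‖ ^ 2 : ℝ) : ℂ) := by
    have : (star x * x) (vac l) = ContinuousLinearMap.adjoint x (x (vac l)) := rfl
    rw [this, ContinuousLinearMap.adjoint_inner_right, inner_self_eq_norm_sq_to_K]
    push_cast
    rfl
  have h3 : ⟪vac l, (x * star x) (vac l)⟫_ℂ = ((‖(star x) (vac l)‖ ^ 2 : ℝ) : ℂ) := by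
    have : (x * star x) (vac l) = x (ContinuousLinearMap.adjoint x (vac l)) := rfl
    rw [this, ← ContinuousLinearMap.adjoint_inner_left, inner_self_eq_norm_sq_to_K,
      ContinuousLinearMap.star_eq_adjoint]
    push_cast
    rfl
  rw [h2, h3] at h1
  have h4 : ‖x (vac l)‖ ^ 2 = ‖(star x) (vac l)‖ ^ 2 := by exact_mod_cast h1
  exact (pow_left_inj₀ (norm_nonneg _) (norm_nonneg _) two_ne_zero).1 h4

theorem p_UPB (hBAS : Pool.SI.Stmt_BAS) (hCYC : Pool.SI.Stmt_CYC) (hALC : Pool.SI.Stmt_ALC) :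
    Stmt_UPB := by
  intro l T C hT hTs hC hn
  have h1 : ∀ z ∈ StarAlgebra.adjoin ℂ (Set.range (sc : Fin l → (Fk l →L[ℂ] Fk l))),
      ‖T (z (vac l))‖ ≤ C * ‖z (vac l)‖ := by
    intro z hz
    have hzA : z ∈ Alg l := StarSubalgebra.le_topologicalClosure _ hz
    by_cases h0 : ‖z (vac l)‖ = 0
    · rw [norm_eq_zero.1 h0, map_zero, norm_zero, mul_zero]
    · have hpos : 0 < ‖z (vac l)‖ := lt_of_le_of_ne (norm_nonneg _) (Ne.symm h0)
      refine UPB_bound (K := ‖z‖) hpos hC (norm_nonneg _) fun m => ?_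
      refine (UPB_self T hTs (z (vac l)) m).trans ?_
      refine mul_le_mul_of_nonneg_right ?_ (by positivity)
      have h2 : (T ^ (2 ^ m)) (z (vac l)) = (T ^ (2 ^ m) * z) (vac l) := rfl
      have hstar : star (T ^ (2 ^ m)) = T ^ (2 ^ m) := by rw [star_pow, hTs]
      rw [h2, UPB_trace hALC (mul_mem (pow_mem hT _) hzA), star_mul, hstar]
      have h3 : (star z * T ^ (2 ^ m)) (vac l) = (star z) ((T ^ (2 ^ m)) (vac l)) := rfl
      rw [h3]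
      refine ((star z).le_opNorm _).trans ?_
      have h4 : ‖star z‖ = ‖z‖ := by
        rw [ContinuousLinearMap.star_eq_adjoint]
        exact LinearIsometryEquiv.norm_map _ _
      rw [h4]
      exact mul_le_mul_of_nonneg_left (hn _) (norm_nonneg _)
  have h2 : ∀ ξ ∈ Submodule.span ℂ (range (bs : List (Fin l) → Fk l)),
      ∃ z ∈ StarAlgebra.adjoin ℂ (Set.range (sc : Fin l → (Fk l →L[ℂ] Fk l))), z (vac l) = ξ := by
    intro ξ hξ
    induction hξ using Submodule.span_induction with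
    | mem x hx =>
      obtain ⟨w, rfl⟩ := hx
      exact hCYC l w
    | zero => exact ⟨0, zero_mem _, rfl⟩
    | add x y _ _ hx hy =>
      obtain ⟨a, ha, ha'⟩ := hx
      obtain ⟨b, hb, hb'⟩ := hy
      exact ⟨a + b, add_mem ha hb, by rw [add_apply, ha', hb']⟩
    | smul c x _ hx =>
      obtain ⟨a, ha, ha'⟩ := hx
      exact ⟨c • a, SMulMemClass.smul_mem c ha, by rw [smul_apply, ha']⟩
  have h3 : ∀ ξ : Fk l, ‖T ξ‖ ≤ C * ‖ξ‖ := by
    have hcl : IsClosed {ξ : Fk l | ‖T ξ‖ ≤ C * ‖ξ‖} :=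
      isClosed_le (by fun_prop) (by fun_prop)
    intro ξ
    have hd : ξ ∈ closure (Submodule.span ℂ (range (bs : List (Fin l) → Fk l)) : Set (Fk l)) :=
      (hBAS l).2.2.2.2.2.1 ξ
    refine closure_minimal ?_ hcl hd
    intro η hη
    obtain ⟨z, hz, rfl⟩ := h2 η hη
    exact h1 z hz
  exact T.opNorm_le_bound hC h3

end Pool.HC
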