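import Pool.Agent.Work.MP_118406_hc.Interface

set_option autoImplicit false

open scoped InnerProductSpace ComplexConjugate Topology unitInterval
open Set Filter

noncomputable section

namespace Pool.HC

open Pool.SI

section abs
variable {A B : Type} [CStarAlgebra A] [CStarAlgebra B]

theorem UPR_aclos (G : StarSubalgebra ℂ (A × B)) (SB : StarSubalgebra ℂ B)
    (hSB : IsClosed (SB : Set B)) (f : A × B → ℂ) (hf : Continuous f)
    (hG : ∀ z ∈ G, ‖z.2‖ ≤ ‖z.1‖ ∧ z.2 ∈ SB ∧ f z = 0) :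
    ∀ z ∈ G.topologicalClosure, ‖z.2‖ ≤ ‖z.1‖ ∧ z.2 ∈ SB ∧ f z = 0 := by
  have hcl : IsClosed {z : A × B | ‖z.2‖ ≤ ‖z.1‖ ∧ z.2 ∈ SB ∧ f z = 0} :=
    (isClosed_le continuous_snd.norm continuous_fst.norm).inter
      ((hSB.preimage continuous_snd).inter (isClosed_eq hf continuous_const))
  exact fun z hz => closure_minimal (fun w hw => hG w hw) hcl hz

theorem UPR_aex (G : StarSubalgebra ℂ (A × B)) (SA : StarSubalgebra ℂ A)
    (hn : ∀ z ∈ G.topologicalClosure, ‖z.2‖ ≤ ‖z.1‖)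
    (hS : ∀ a ∈ SA, ∃ b, (a, b) ∈ G) :
    ∀ a ∈ SA.topologicalClosure, ∃ b, (a, b) ∈ G.topologicalClosure := by
  let f : G.topologicalClosure → A := fun z => z.1.1
  have hf : Isometry f := by
    refine Isometry.of_dist_eq fun z w => ?_
    have h1 := hn (z.1 - w.1) (sub_mem z.2 w.2)
    rw [Subtype.dist_eq, dist_eq_norm, dist_eq_norm, Prod.norm_def, max_eq_left h1]
    rfl
  have hcomp : CompleteSpace G.topologicalClosure :=
    (StarSubalgebra.isClosed_topologicalClosure G).completeSpace_coe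
  have hcl : IsClosed (Set.range f) := hf.isClosedEmbedding.isClosed_range
  intro a ha
  have hsub : (SA : Set A) ⊆ Set.range f := by
    intro x hx
    obtain ⟨b, hb⟩ := hS x hx
    exact ⟨⟨(x, b), G.le_topologicalClosure hb⟩, rfl⟩
  obtain ⟨z, hz⟩ := closure_minimal hsub hcl ha
  refine ⟨z.1.2, ?_⟩
  have h2 : (a, z.1.2) = z.1 := by rw [← hz]
  rw [h2]
  exact z.2

theorem UPR_ahom (G : StarSubalgebra ℂ (A × B)) (SA : StarSubalgebra ℂ A)
    (SB : StarSubalgebra ℂ B)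
    (hSB : IsClosed (SB : Set B)) (f : A × B → ℂ) (hf : Continuous f)
    (hG : ∀ z ∈ G, ‖z.2‖ ≤ ‖z.1‖ ∧ z.2 ∈ SB ∧ f z = 0)
    (hS : ∀ a ∈ SA, ∃ b, (a, b) ∈ G) :
    ∃ φ : SA.topologicalClosure →⋆ₐ[ℂ] SB,
      (∀ (x : SA.topologicalClosure) (b : B), ((x : A), b) ∈ G → (φ x : B) = b) ∧
      ∀ x : SA.topologicalClosure, f ((x : A), (φ x : B)) = 0 := by
  have hc := UPR_aclos G SB hSB f hf hG
  have hex : ∀ a : SA.topologicalClosure, ∃ b : B, ((a : A), b) ∈ G.topologicalClosure :=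
    fun a => UPR_aex G SA (fun z hz => (hc z hz).1) hS a a.2
  choose b hb using hex
  have huniq : ∀ (a : SA.topologicalClosure) (b' : B),
      ((a : A), b') ∈ G.topologicalClosure → b a = b' := by
    intro a b' hb'
    have h1 := (hc _ (sub_mem (hb a) hb')).1
    have h2 : ‖b a - b'‖ ≤ 0 := by simpa using h1
    exact sub_eq_zero.1 (norm_le_zero_iff.1 h2)
  have hmem : ∀ a, b a ∈ SB := fun a => (hc _ (hb a)).2.1
  refine ⟨{ toFun := fun a => ⟨b a, hmem a⟩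
            map_one' := Subtype.ext (huniq 1 1 (one_mem G.topologicalClosure))
            map_mul' := fun a a' => Subtype.ext (huniq (a * a') _ (mul_mem (hb a) (hb a')))
            map_zero' := Subtype.ext (huniq 0 0 (zero_mem G.topologicalClosure))
            map_add' := fun a a' => Subtype.ext (huniq (a + a') _ (add_mem (hb a) (hb a')))
            commutes' := fun c => Subtype.ext (huniq (algebraMap ℂ SA.topologicalClosure c) _
              (G.topologicalClosure.algebraMap_mem c))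
            map_star' := fun a => Subtype.ext (huniq (star a) _ (star_mem (hb a))) }, ?_, ?_⟩
  · intro x b' hb'
    exact huniq x b' (G.le_topologicalClosure hb')
  · intro x
    exact (hc _ (hb x)).2.2

/-- the first projection of the adjoin -/
theorem UPR_proj {N : ℕ} (s : Fin N → A) (y : Fin N → B) :
    ∀ a ∈ StarAlgebra.adjoin ℂ (Set.range s),
      ∃ b, (a, b) ∈ StarAlgebra.adjoin ℂ (Set.range (fun i : Fin N => (s i, y i))) := by
  have hle : StarAlgebra.adjoin ℂ (Set.range s) ≤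
      (StarAlgebra.adjoin ℂ (Set.range (fun i : Fin N => (s i, y i)))).map
        (StarAlgHom.fst ℂ A B) := by
    refine StarAlgebra.adjoin_le ?_
    rintro _ ⟨i, rfl⟩
    exact ⟨(s i, y i), StarAlgebra.subset_adjoin ℂ _ ⟨i, rfl⟩, rfl⟩
  intro a ha
  obtain ⟨z, hz, hza⟩ := hle ha
  refine ⟨z.2, ?_⟩
  have h2 : (a, z.2) = z := by rw [← hza]; rfl
  rw [h2]
  exact hz

/-- powers of `z* z` -/
theorem UPR_apow (G : StarSubalgebra ℂ (A × B)) (z : A × B) (hz : z ∈ G) (n : ℕ) :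
    ((star z.1 * z.1) ^ n, (star z.2 * z.2) ^ n) ∈ G :=
  pow_mem (mul_mem (star_mem hz) hz) n

end abs


theorem UPR_vac (l : ℕ) : ‖vac l‖ = 1 := bs_orthonormal.1 []

theorem UPR_tau_le {l : ℕ} (x : Fk l →L[ℂ] Fk l) : ‖tau x‖ ≤ ‖x‖ := by
  calc ‖tau x‖ ≤ ‖vac l‖ * ‖x (vac l)‖ := norm_inner_le_norm _ _
    _ ≤ ‖vac l‖ * (‖x‖ * ‖vac l‖) :=
        mul_le_mul_of_nonneg_left (x.le_opNorm _) (norm_nonneg _)
    _ = ‖x‖ := by rw [UPR_vac]; ring

theorem UPR_tau_cont {l : ℕ} : Continuous (tau : (Fk l →L[ℂ] Fk l) → ℂ) := by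
  have h : Continuous (fun x : Fk l →L[ℂ] Fk l => x (vac l)) :=
    (ContinuousLinearMap.apply ℂ (Fk l) (vac l)).continuous
  exact Continuous.inner continuous_const h

theorem UPR_pow {l : ℕ} (T : Fk l →L[ℂ] Fk l) (hT : star T = T) (n : ℕ) :
    ‖(T ^ n) (vac l)‖ ^ 2 = ‖tau (T ^ (2 * n))‖ := by
  have h1 : tau (T ^ (2 * n)) = ⟪(T ^ n) (vac l), (T ^ n) (vac l)⟫_ℂ := by
    have h2 : star (T ^ n) = T ^ n := by rw [star_pow, hT]
    have h3 : tau (T ^ (2 * n)) = ⟪vac l, (T ^ n) ((T ^ n) (vac l))⟫_ℂ := by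
      rw [two_mul, pow_add]
      rfl
    rw [h3, ← ContinuousLinearMap.adjoint_inner_left, ← ContinuousLinearMap.star_eq_adjoint, h2]
  rw [h1, inner_self_eq_norm_sq_to_K]
  simp

theorem UPR_cs {l : ℕ} (x : Fk l →L[ℂ] Fk l) : ‖star x * x‖ = ‖x‖ * ‖x‖ :=
  CStarRing.norm_star_mul_self

theorem UPR_npow {l : ℕ} (x : Fk l →L[ℂ] Fk l) (n : ℕ) : ‖tau (x ^ n)‖ ≤ ‖x‖ ^ n := by
  rcases Nat.eq_zero_or_pos n with rfl | hn
  · have h1 : tau (x ^ 0) = ⟪vac l, vac l⟫_ℂ := rfl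
    rw [h1, inner_self_eq_norm_sq_to_K, UPR_vac]
    simp
  · exact (UPR_tau_le _).trans (norm_pow_le' x hn)

theorem UPR_norm (hUPB : Stmt_UPB) {N l : ℕ} (a : Fk N →L[ℂ] Fk N) (b : Fk l →L[ℂ] Fk l)
    (hb : star b * b ∈ Alg l)
    (ht : ∀ n : ℕ, tau ((star a * a) ^ n) = tau ((star b * b) ^ n)) : ‖b‖ ≤ ‖a‖ := by
  have hT : star (star b * b) = star b * b := by rw [star_mul, star_star]
  have h1 : ‖star b * b‖ ≤ ‖a‖ ^ 2 := by
    refine hUPB l (star b * b) (‖a‖ ^ 2) hb hT (by positivity) ?_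
    intro n
    refine abs_le_of_sq_le_sq' ?_ (by positivity) |>.2
    rw [UPR_pow _ hT, ← ht (2 * n)]
    calc ‖tau ((star a * a) ^ (2 * n))‖ ≤ ‖star a * a‖ ^ (2 * n) := UPR_npow _ _
      _ = ((‖a‖ ^ 2) ^ n) ^ 2 := by
          rw [UPR_cs]
          ring
  rw [UPR_cs, ← sq] at h1
  exact abs_le_of_sq_le_sq' h1 (norm_nonneg _) |>.2

theorem UPR_hG (hUPA : Stmt_UPA) (hUPB : Stmt_UPB) (N l : ℕ) (y : Fin N → (Fk l →L[ℂ] Fk l))
    (hy : Semi y) : ∀ z ∈ StarAlgebra.adjoin ℂ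
      (Set.range (fun i : Fin N => ((sc i : Fk N →L[ℂ] Fk N), y i))),
      ‖z.2‖ ≤ ‖z.1‖ ∧ z.2 ∈ Alg l ∧ tau z.1 - tau z.2 = 0 := by
  intro z hz
  obtain ⟨h3, -, h5⟩ := hUPA N l y hy z hz
  refine ⟨?_, h5, sub_eq_zero.2 h3⟩
  have hp := fun n => hUPA N l y hy _ (UPR_apow _ z hz n)
  refine UPR_norm hUPB z.1 z.2 ?_ fun n => (hp n).1
  have h6 := (hp 1).2.2
  simp only [pow_one] at h6
  exact h6

theorem p_UPR (hUPA : Stmt_UPA) (hUPB : Stmt_UPB) : Stmt_UPR := by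
  intro N l y hy
  obtain ⟨φ, h1, h2⟩ := UPR_ahom
    (StarAlgebra.adjoin ℂ (Set.range (fun i : Fin N => ((sc i : Fk N →L[ℂ] Fk N), y i))))
    (StarAlgebra.adjoin ℂ (Set.range (sc : Fin N → (Fk N →L[ℂ] Fk N)))) (Alg l)
    (StarSubalgebra.isClosed_topologicalClosure _) (fun z => tau z.1 - tau z.2)
    ((UPR_tau_cont.comp continuous_fst).sub (UPR_tau_cont.comp continuous_snd))
    (UPR_hG hUPA hUPB N l y hy)
    (UPR_proj (sc : Fin N → (Fk N →L[ℂ] Fk N)) y)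
  refine ⟨φ, fun i => ?_, fun x => ?_⟩
  · exact h1 (ge i) (y i) (StarAlgebra.subset_adjoin ℂ _ ⟨i, rfl⟩)
  · exact (sub_eq_zero.1 (h2 x)).symm

end Pool.HC
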