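import Pool.Agent.Work.MP_118406_hc.Interface

set_option autoImplicit false

open scoped InnerProductSpace ComplexConjugate Topology unitInterval
open Set Filter

namespace Pool.HC

open Pool.SI

theorem WMP_map {N : ℕ} {R S : Type} [Ring R] [Ring S] (f : R →+* S) (x : Fin N → R) :
    ∀ w : List (Fin N), f (Pw x w) = Pw (fun i => f (x i)) w
  | [] => by simp [Pw]
  | [i] => rfl
  | i :: j :: w => by
    have h1 := WMP_map f x (j :: w)
    have h2 := WMP_map f x w
    show f (x i * Pw x (j :: w) - (if j = i then Pw x w else 0)) =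
      f (x i) * Pw (fun i => f (x i)) (j :: w) -
        (if j = i then Pw (fun i => f (x i)) w else 0)
    rw [map_sub, map_mul, h1]
    split_ifs
    · rw [h2]
    · rw [map_zero]

theorem WMP_rep {N : ℕ} {R : Type} [Ring R] (x : Fin N → R) (i : Fin N) :
    ∀ n : ℕ, Pw x (List.replicate n i) = Sn (x i) n
  | 0 => rfl
  | 1 => rfl
  | n + 2 => by
    have h1 := WMP_rep x i (n + 1)
    have h2 := WMP_rep x i n
    show x i * Pw x (List.replicate (n + 1) i) -
      (if i = i then Pw x (List.replicate n i) else 0) = x i * Sn (x i) (n + 1) - Sn (x i) n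
    rw [if_pos rfl, h1, h2]

theorem WMP_sn {R S : Type} [Ring R] [Ring S] (f : R →+* S) (x : R) :
    ∀ n : ℕ, f (Sn x n) = Sn (f x) n
  | 0 => by simp [Sn]
  | 1 => rfl
  | n + 2 => by
    have h1 := WMP_sn f x (n + 1)
    have h2 := WMP_sn f x n
    show f (x * Sn x (n + 1) - Sn x n) = f x * Sn (f x) (n + 1) - Sn (f x) n
    rw [map_sub, map_mul, h1, h2]

theorem WMP_conj {R : Type} [Ring R] (x v v' : R) (h : v * v' = 1) (h' : v' * v = 1) :
    ∀ n : ℕ, Sn (v * x * v') n = v * Sn x n * v'
  | 0 => by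
    show (1 : R) = v * 1 * v'
    rw [mul_one, h]
  | 1 => rfl
  | n + 2 => by
    have h1 := WMP_conj x v v' h h' (n + 1)
    have h2 := WMP_conj x v v' h h' n
    show (v * x * v') * Sn (v * x * v') (n + 1) - Sn (v * x * v') n =
      v * (x * Sn x (n + 1) - Sn x n) * v'
    rw [h1, h2, mul_sub, sub_mul]
    congr 1
    calc v * x * v' * (v * Sn x (n + 1) * v') = v * x * (v' * v) * Sn x (n + 1) * v' := by
          noncomm_ring
      _ = v * (x * Sn x (n + 1)) * v' := by rw [h']; noncomm_ring

theorem WMP_emb {N M : ℕ} {R : Type} [Ring R] (e : Fin N → Fin M) (he : Function.Injective e)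
    (x : Fin M → R) : ∀ w : List (Fin N), Pw x (w.map e) = Pw (fun i => x (e i)) w
  | [] => rfl
  | [i] => rfl
  | i :: j :: w => by
    have h1 := WMP_emb e he x (j :: w)
    have h2 := WMP_emb e he x w
    show x (e i) * Pw x ((j :: w).map e) - (if e j = e i then Pw x (w.map e) else 0) =
      x (e i) * Pw (fun i => x (e i)) (j :: w) -
        (if j = i then Pw (fun i => x (e i)) w else 0)
    rw [h1, h2]
    congr 1
    by_cases hji : j = i
    · rw [if_pos hji, if_pos (by rw [hji])]
    · rw [if_neg hji, if_neg fun hh => hji (he hh)]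

theorem p_WMP : Stmt_WMP :=
  ⟨fun _ _ _ _ _ f x w => WMP_map f x w, fun _ _ _ x i n => WMP_rep x i n,
    fun _ _ _ _ f x n => WMP_sn f x n, fun _ _ x v v' n h h' => WMP_conj x v v' h h' n,
    fun _ _ _ _ e he x w => WMP_emb e he x w⟩

end Pool.HC
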