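import Pool.Agent.Work.MP_118406_hc.Interface

set_option autoImplicit false

open scoped InnerProductSpace ComplexConjugate Topology unitInterval
open Set Filter

namespace Pool.HC

open Pool.SI

theorem WPM_aux {N : ℕ} {R : Type} [Ring R] (x : Fin N → R) (w : List (Fin N)) :
    ∀ u : List (Fin N), (∀ i, u.getLast? = some i → w.head? ≠ some i) →
      Pw x (u ++ w) = Pw x u * Pw x w
  | [], _ => by simp [Pw]
  | [i], h => by
    cases w with
    | nil => simp [Pw]
    | cons j w' =>
      have hji : j ≠ i := by
        intro e
        exact h i rfl (by simp [e])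
      show x i * Pw x (j :: w') - (if j = i then Pw x w' else 0) = x i * Pw x (j :: w')
      rw [if_neg hji, sub_zero]
  | i :: j :: u', h => by
    have h1 : Pw x ((j :: u') ++ w) = Pw x (j :: u') * Pw x w :=
      WPM_aux x w (j :: u') fun k hk => h k (by rw [List.getLast?_cons_cons]; exact hk)
    have h2 : Pw x (u' ++ w) = Pw x u' * Pw x w :=
      WPM_aux x w u' fun k hk => by
        cases u' with
        | nil => simp at hk
        | cons l u'' => exact h k (by
            rw [List.getLast?_cons_cons, List.getLast?_cons_cons]; exact hk)
    show x i * Pw x ((j :: u') ++ w) - (if j = i then Pw x (u' ++ w) else 0) =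
      (x i * Pw x (j :: u') - (if j = i then Pw x u' else 0)) * Pw x w
    rw [h1, h2, sub_mul, mul_assoc]
    split_ifs
    · rfl
    · rw [zero_mul]

theorem p_WPM : Stmt_WPM := fun _ _ _ x u w h => WPM_aux x w u h

end Pool.HC
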