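import Pool.Agent.Work.MP_118406_hc.Interface

set_option autoImplicit false

open scoped InnerProductSpace ComplexConjugate Topology unitInterval
open Set Filter

noncomputable section

namespace Pool.HC

open Pool.SI

theorem WSP_mul {N : ℕ} {R : Type} [Ring R] [Algebra ℂ R] (x : Fin N → R) (i : Fin N) (v : R)
    (hv : v ∈ Submodule.span ℂ (Set.range (Pw x))) :
    x i * v ∈ Submodule.span ℂ (Set.range (Pw x)) := by
  induction hv using Submodule.span_induction with
  | mem v hv =>
    obtain ⟨w, rfl⟩ := hv
    cases w with
    | nil =>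
      have h : x i * Pw x [] = Pw x [i] := by
        simp only [Pw, mul_one]
      rw [h]
      exact Submodule.subset_span ⟨_, rfl⟩
    | cons j w =>
      have h : x i * Pw x (j :: w) = Pw x (i :: j :: w) + (if j = i then Pw x w else 0) := by
        simp only [Pw, sub_add_cancel]
      rw [h]
      have h1 : Pw x (i :: j :: w) ∈ Submodule.span ℂ (Set.range (Pw x)) :=
        Submodule.subset_span ⟨i :: j :: w, rfl⟩
      refine Submodule.add_mem _ h1 ?_
      by_cases hj : j = i
      · rw [if_pos hj]
        exact Submodule.subset_span ⟨_, rfl⟩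
      · rw [if_neg hj]
        exact Submodule.zero_mem _
  | zero =>
    rw [mul_zero]
    exact Submodule.zero_mem _
  | add a b _ _ ha hb =>
    rw [mul_add]
    exact Submodule.add_mem _ ha hb
  | smul c a _ ha =>
    rw [mul_smul_comm]
    exact Submodule.smul_mem _ _ ha

theorem p_WSP : Stmt_WSP := by
  intro N R _ _ x z hz
  have h : ∀ a ∈ Algebra.adjoin ℂ (Set.range x), ∀ v ∈ Submodule.span ℂ (Set.range (Pw x)),
      a * v ∈ Submodule.span ℂ (Set.range (Pw x)) := by
    intro a ha
    induction ha using Algebra.adjoin_induction with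
    | mem a ha =>
      obtain ⟨i, rfl⟩ := ha
      intro v hv
      exact WSP_mul x i v hv
    | algebraMap r =>
      intro v hv
      rw [← Algebra.smul_def]
      exact Submodule.smul_mem _ _ hv
    | add a b _ _ ha hb =>
      intro v hv
      rw [add_mul]
      exact Submodule.add_mem _ (ha v hv) (hb v hv)
    | mul a b _ _ ha hb =>
      intro v hv
      rw [mul_assoc]
      exact ha _ (hb v hv)
  have h1 : (1 : R) ∈ Submodule.span ℂ (Set.range (Pw x)) :=
    Submodule.subset_span ⟨[], by simp only [Pw]⟩
  have h2 := h z hz 1 h1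
  rw [mul_one] at h2
  exact h2

end Pool.HC
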