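import Pool.Agent.Work.MP_118406_hc.Interface

set_option autoImplicit false

/-!
# MP_118406_an, THEOREM HC, block WVC (typist helper87)
-/

open scoped InnerProductSpace ComplexConjugate Topology unitInterval
open Set Filter

noncomputable section

namespace Pool.HC

open Pool.SI

theorem WVC_one (hBAS : Pool.SI.Stmt_BAS) {M : ℕ} (a : Fin M) (v : List (Fin M))
    (h : v.head? ≠ some a) : (sc a : Fk M →L[ℂ] Fk M) (bs v) = bs (a :: v) := by
  have h1 : (sc a : Fk M →L[ℂ] Fk M) (bs v) =
      lc a (bs v) + ContinuousLinearMap.adjoint (lc a) (bs v) := rfl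
  rw [h1, lc_bs]
  rcases v with _ | ⟨b, v⟩
  · have h2 := ((hBAS M).2.2.1 a).1
    rw [vac] at h2
    rw [h2, add_zero]
  · have hab : ¬ a = b := by
      intro hab
      apply h
      rw [hab, List.head?_cons]
    rw [((hBAS M).2.2.2.1 a b v).1, if_neg hab, add_zero]

theorem WVC_two (hBAS : Pool.SI.Stmt_BAS) {M : ℕ} (a b : Fin M) (v : List (Fin M)) :
    (sc a : Fk M →L[ℂ] Fk M) (bs (b :: v)) =
      bs (a :: b :: v) + (if a = b then bs v else 0) := by
  have h1 : (sc a : Fk M →L[ℂ] Fk M) (bs (b :: v)) =
      lc a (bs (b :: v)) + ContinuousLinearMap.adjoint (lc a) (bs (b :: v)) := rfl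
  rw [h1, lc_bs, ((hBAS M).2.2.2.1 a b v).1]

theorem p_WVC (hBAS : Pool.SI.Stmt_BAS) : Stmt_WVC := by
  intro N M e he u
  induction hn : u.length using Nat.strong_induction_on generalizing u with
  | _ n ih =>
    intro v hv
    match u, hn, hv with
    | [], _, _ =>
      rw [Pw, List.map_nil, List.nil_append]
      rfl
    | [i], _, hv =>
      rw [Pw]
      exact WVC_one hBAS (e i) v (hv i rfl)
    | i :: j :: w, hn, hv =>
      have hlast : (i :: j :: w).getLast? = (j :: w).getLast? := by
        rw [List.getLast?_cons_cons]
      have h1 : Pw (fun i => (sc (e i) : Fk M →L[ℂ] Fk M)) (j :: w) (bs v) =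
          bs ((j :: w).map e ++ v) := by
        refine ih (j :: w).length ?_ (j :: w) rfl v ?_
        · rw [← hn]
          simp
        · intro a ha
          exact hv a (by rw [hlast]; exact ha)
      rw [Pw, sub_apply, mul_apply_eq_comp, h1]
      rw [List.map_cons, List.cons_append, WVC_two hBAS]
      by_cases hij : j = i
      · subst hij
        have h2 : Pw (fun i => (sc (e i) : Fk M →L[ℂ] Fk M)) w (bs v) = bs (w.map e ++ v) := by
          refine ih w.length ?_ w rfl v ?_
          · rw [← hn]
            simp only [List.length_cons]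
            omega
          · intro a ha
            refine hv a ?_
            rw [hlast, List.getLast?_cons, ha]
            rfl
        rw [if_pos rfl, if_pos rfl, h2, add_sub_cancel_right]
        rfl
      · have hij' : ¬ e i = e j := fun h => hij (he h).symm
        rw [if_neg hij, if_neg hij', zero_apply, add_zero, sub_zero]
        rfl

end Pool.HC
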