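import Pool.Agent.Work.MP_118406_hc.Interface

set_option autoImplicit false

open scoped InnerProductSpace ComplexConjugate Topology unitInterval
open Set Filter

noncomputable section

namespace Pool.HC

open Pool.SI

/-- the tent map of period one on the line -/
def ZIG_b (x : ℝ) : ℝ := Real.arccos (Real.cos (2 * Real.pi * x)) / Real.pi

theorem ZIG_b_cont : Continuous ZIG_b := by
  unfold ZIG_b
  exact (Real.continuous_arccos.comp (Real.continuous_cos.comp
    (continuous_const.mul continuous_id))).div_const _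

theorem ZIG_b_mem (x : ℝ) : ZIG_b x ∈ I := by
  unfold ZIG_b
  constructor
  · exact div_nonneg (Real.arccos_nonneg _) Real.pi_pos.le
  · rw [div_le_one Real.pi_pos]
    exact Real.arccos_le_pi _

theorem ZIG_b_per (x : ℝ) : ZIG_b (x + 1) = ZIG_b x := by
  unfold ZIG_b
  rw [mul_add, mul_one, Real.cos_add_two_pi]

theorem ZIG_b_left (x : ℝ) (h0 : 0 ≤ x) (h1 : x ≤ 1 / 2) : ZIG_b x = 2 * x := by
  unfold ZIG_b
  have hpi := Real.pi_pos
  rw [Real.arccos_cos (by positivity) (by nlinarith)]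
  field_simp

theorem ZIG_b_right (x : ℝ) (h0 : 1 / 2 ≤ x) (h1 : x ≤ 1) : ZIG_b x = 2 - 2 * x := by
  unfold ZIG_b
  have hpi := Real.pi_pos
  have h2 : Real.cos (2 * Real.pi * x) = Real.cos (2 * Real.pi * (1 - x)) := by
    rw [show 2 * Real.pi * (1 - x) = 2 * Real.pi - 2 * Real.pi * x by ring, Real.cos_two_pi_sub]
  rw [h2, Real.arccos_cos (by nlinarith) (by nlinarith)]
  field_simp

/-- the periodic function -/
def ZIG_B (h : C(I, ℂ)) (x : ℝ) : ℂ := h ⟨ZIG_b x, ZIG_b_mem x⟩

theorem ZIG_B_cont (h : C(I, ℂ)) : Continuous (ZIG_B h) :=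
  h.continuous.comp (ZIG_b_cont.subtype_mk _)

theorem ZIG_B_per (h : C(I, ℂ)) : Function.Periodic (ZIG_B h) 1 := by
  intro x
  unfold ZIG_B
  congr 1
  exact Subtype.ext (ZIG_b_per x)

theorem ZIG_B_int (h : C(I, ℂ)) : ∫ x in (0 : ℝ)..1, ZIG_B h x = lint h := by
  have hI : ∀ a b : ℝ, IntervalIntegrable (ZIG_B h) MeasureTheory.volume a b :=
    fun a b => (ZIG_B_cont h).intervalIntegrable a b
  rw [← intervalIntegral.integral_add_adjacent_intervals (hI 0 (1 / 2)) (hI (1 / 2) 1)]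
  have h1 : ∫ x in (0 : ℝ)..(1 / 2), ZIG_B h x =
      ∫ x in (0 : ℝ)..(1 / 2), h (Set.projIcc 0 1 zero_le_one (2 * x)) := by
    apply intervalIntegral.integral_congr
    intro x hx
    rw [Set.uIcc_of_le (by norm_num)] at hx
    have h3 := ZIG_b_left x hx.1 hx.2
    change h ⟨ZIG_b x, ZIG_b_mem x⟩ = h _
    congr 1
    apply Subtype.ext
    rw [Set.projIcc_of_mem zero_le_one (⟨by linarith [hx.1], by linarith [hx.2]⟩ :
      2 * x ∈ Set.Icc (0 : ℝ) 1)]
    exact h3
  have h2 : ∫ x in (1 / 2 : ℝ)..1, ZIG_B h x =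
      ∫ x in (1 / 2 : ℝ)..1, h (Set.projIcc 0 1 zero_le_one (2 - 2 * x)) := by
    apply intervalIntegral.integral_congr
    intro x hx
    rw [Set.uIcc_of_le (by norm_num)] at hx
    have h3 := ZIG_b_right x hx.1 hx.2
    change h ⟨ZIG_b x, ZIG_b_mem x⟩ = h _
    congr 1
    apply Subtype.ext
    rw [Set.projIcc_of_mem zero_le_one (⟨by linarith [hx.2], by linarith [hx.1]⟩ :
      2 - 2 * x ∈ Set.Icc (0 : ℝ) 1)]
    exact h3
  rw [h1, h2]
  have h4 := intervalIntegral.integral_comp_mul_left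
    (fun y : ℝ => h (Set.projIcc 0 1 zero_le_one y)) (a := 0) (b := 1 / 2)
    (c := (2 : ℝ)) (by norm_num)
  have h5 := intervalIntegral.integral_comp_sub_mul
    (fun y : ℝ => h (Set.projIcc 0 1 zero_le_one y)) (a := 1 / 2) (b := 1)
    (c := (2 : ℝ)) (by norm_num) 2
  rw [h4, h5]
  have e1 : (2 : ℝ) * 0 = 0 := by norm_num
  have e2 : (2 : ℝ) * (1 / 2) = 1 := by norm_num
  have e3 : (2 : ℝ) - 2 * 1 = 0 := by norm_num
  have e4 : (2 : ℝ) - 1 = 1 := by norm_num
  rw [e1, e2, e3, e4, ← add_smul]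
  norm_num [lint]

theorem ZIG_eval (n : ℕ) (h : C(I, ℂ)) (Z : C(I, I))
    (hZ : ∀ t : I, ((Z t : I) : ℝ) = ZIG_b (n * t)) (t : ℝ) (ht : t ∈ Set.Icc (0 : ℝ) 1) :
    (h.comp Z) (Set.projIcc 0 1 zero_le_one t) = ZIG_B h (n * t) := by
  rw [ContinuousMap.comp_apply]
  unfold ZIG_B
  congr 1
  apply Subtype.ext
  rw [hZ, Set.projIcc_of_mem zero_le_one ht]

theorem p_ZIG : Stmt_ZIG := by
  intro n hn
  have hn' : (0 : ℝ) < n := by exact_mod_cast hn
  obtain ⟨Z, hZ⟩ : ∃ Z : C(I, I), ∀ t : I, ((Z t : I) : ℝ) = ZIG_b (n * t) :=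
    ⟨⟨fun t => ⟨ZIG_b (n * t), ZIG_b_mem _⟩,
      (ZIG_b_cont.comp (continuous_const.mul continuous_subtype_val)).subtype_mk _⟩,
      fun t => rfl⟩
  refine ⟨Z, ?_, ?_, ?_⟩
  · apply Subtype.ext
    rw [hZ]
    have h0 : (n : ℝ) * ((0 : I) : ℝ) = 0 := by simp
    rw [h0, ZIG_b_left 0 le_rfl (by norm_num)]
    simp
  · intro h
    rw [← ZIG_B_int h]
    unfold lint
    have h1 : ∫ t in (0 : ℝ)..1, (h.comp Z) (Set.projIcc 0 1 zero_le_one t) =
        ∫ t in (0 : ℝ)..1, ZIG_B h (n * t) := by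
      apply intervalIntegral.integral_congr
      intro t ht
      rw [Set.uIcc_of_le zero_le_one] at ht
      exact ZIG_eval n h Z hZ t ht
    rw [h1, intervalIntegral.integral_comp_mul_left (ZIG_B h) hn'.ne', mul_zero, mul_one]
    have h2 := (ZIG_B_per h).intervalIntegral_add_zsmul_eq (n : ℤ) 0
      (fun t₁ t₂ => (ZIG_B_cont h).intervalIntegrable t₁ t₂)
    simp only [zero_add] at h2
    have h3 : ((n : ℤ) • (1 : ℝ)) = (n : ℝ) := by simp
    rw [h3] at h2
    rw [h2]
    rw [zsmul_eq_mul, Complex.real_smul, ← mul_assoc]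
    have h4 : (((n : ℝ)⁻¹ : ℝ) : ℂ) * (((n : ℤ) : ℂ)) = 1 := by
      push_cast
      have : (n : ℂ) ≠ 0 := by exact_mod_cast hn.ne'
      field_simp
    rw [h4, one_mul]
  · intro m hm h
    unfold lint
    obtain ⟨f, hf⟩ : ∃ f : ℝ → ℂ, ∀ t, f t =
        Complex.exp (2 * Real.pi * Complex.I * m * (t : ℂ)) * ZIG_B h (n * t) :=
      ⟨_, fun t => rfl⟩
    have h1 : ∫ t in (0 : ℝ)..1, (em m * h.comp Z) (Set.projIcc 0 1 zero_le_one t) =
        ∫ t in (0 : ℝ)..1, f t := by
      apply intervalIntegral.integral_congr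
      intro t ht
      rw [Set.uIcc_of_le zero_le_one] at ht
      change (em m * h.comp Z) (Set.projIcc 0 1 zero_le_one t) = f t
      rw [hf, ContinuousMap.mul_apply, ZIG_eval n h Z hZ t ht]
      congr 1
      change Complex.exp (2 * Real.pi * Complex.I * m *
        (((Set.projIcc 0 1 zero_le_one t : Set.Icc (0 : ℝ) 1) : ℝ) : ℂ)) = _
      rw [Set.projIcc_of_mem zero_le_one ht]
    rw [h1]
    have hper : Function.Periodic f 1 := by
      intro t
      rw [hf, hf]
      have h3 : ZIG_B h (n * (t + 1)) = ZIG_B h (n * t) := by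
        have := (ZIG_B_per h).nat_mul n (n * t)
        rw [mul_one] at this
        rw [mul_add, mul_one]
        exact this
      rw [h3]
      congr 1
      have h4 : 2 * (Real.pi : ℂ) * Complex.I * m * ((t + 1 : ℝ) : ℂ) =
          2 * (Real.pi : ℂ) * Complex.I * m * (t : ℂ) + m * (2 * Real.pi * Complex.I) := by
        push_cast
        ring
      rw [h4, Complex.exp_add, Complex.exp_int_mul_two_pi_mul_I, mul_one]
    have hshift : ∀ t, f (t + 1 / n) =
        Complex.exp (2 * Real.pi * Complex.I * (m / n)) * f t := by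
      intro t
      rw [hf, hf]
      have h3 : ZIG_B h (n * (t + 1 / n)) = ZIG_B h (n * t) := by
        have h5 : (n : ℝ) * (t + 1 / n) = n * t + 1 := by
          field_simp
        rw [h5]
        exact ZIG_B_per h _
      rw [h3, ← mul_assoc, ← Complex.exp_add]
      congr 2
      have : (n : ℂ) ≠ 0 := by exact_mod_cast hn.ne'
      push_cast
      field_simp
      ring
    have h5 := hper.intervalIntegral_add_eq 0 (1 / n)
    have h6 : ∫ t in (1 / (n : ℝ))..(1 / n + 1), f t = ∫ t in (0 : ℝ)..1, f (t + 1 / n) := by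
      rw [intervalIntegral.integral_comp_add_right]
      congr 1
      · ring
      · ring
    rw [zero_add, h6] at h5
    simp only [hshift] at h5
    rw [intervalIntegral.integral_const_mul] at h5
    by_contra hne
    have h7 : Complex.exp (2 * Real.pi * Complex.I * (m / n)) = 1 := by
      have h8 : (1 : ℂ) * ∫ t in (0 : ℝ)..1, f t =
          Complex.exp (2 * Real.pi * Complex.I * (m / n)) * ∫ t in (0 : ℝ)..1, f t := by
        rw [one_mul]
        exact h5
      exact (mul_right_cancel₀ hne h8).symm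
    rw [Complex.exp_eq_one_iff] at h7
    obtain ⟨q, hq⟩ := h7
    apply hm
    refine ⟨q, ?_⟩
    have h9 : (2 * (Real.pi : ℂ) * Complex.I) ≠ 0 := Complex.two_pi_I_ne_zero
    have h10 : ((m : ℂ) / n) = q := by
      apply mul_left_cancel₀ h9
      rw [hq]
      ring
    have h11 : (n : ℂ) ≠ 0 := by exact_mod_cast hn.ne'
    rw [div_eq_iff h11] at h10
    have h12 : (m : ℂ) = ((n * q : ℤ) : ℂ) := by
      rw [h10]
      push_cast
      ring
    exact_mod_cast h12

end Pool.HC
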