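import Pool.Agent.Work.MP_118406_hc.Interface

set_option autoImplicit false

/-!
# The spaces of unital `*`-homomorphisms for abstract Fock spaces

Definitions of the statement (`FockSpace`, `Hom`) and the transport to the concrete spaces `HomS`.
-/

open scoped InnerProductSpace ComplexConjugate Topology
open Set

noncomputable section

namespace Pool.Agent.MP118406hc

/-- The full Fock space of `ℂ^k`: a Hilbert space `H` with an orthonormal basis `e w` indexed by the words (lists) in
`k` letters, with the left creation operators `l i` for the letters `i`. -/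
structure FockSpace (k : ℕ) (H : Type) [NormedAddCommGroup H] [InnerProductSpace ℂ H] : Type where
  /-- the basis -/
  e : HilbertBasis (List (Fin k)) ℂ H
  /-- the creation operators -/
  l : Fin k → (H →L[ℂ] H)
  left : ∀ i w, l i (e w) = e (i :: w)

section Defs

variable {k : ℕ} {H : Type} [NormedAddCommGroup H] [InnerProductSpace ℂ H] [CompleteSpace H]

/-- The semicircular operators `s_i = l_i + l_i*`. -/
def FockSpace.s (F : FockSpace k H) (i : Fin k) : H →L[ℂ] H :=
  F.l i + ContinuousLinearMap.adjoint (F.l i)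

/-- The C*-algebra generated by the semicircular operators (as a set of operators). -/
def FockSpace.algebra (F : FockSpace k H) : Set (H →L[ℂ] H) :=
  closure (StarAlgebra.adjoin ℂ (range F.s) : StarSubalgebra ℂ (H →L[ℂ] H))

variable {H' : Type} [NormedAddCommGroup H'] [InnerProductSpace ℂ H'] [CompleteSpace H']
  {H'' : Type} [NormedAddCommGroup H''] [InnerProductSpace ℂ H''] [CompleteSpace H'']

/-- `φ` is a unital `*`-homomorphism from the `*`-algebra `A` of operators on `H` to the `*`-algebra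
`B` of operators on `H'`. -/
structure IsStarHom (A : Set (H →L[ℂ] H)) (B : Set (H' →L[ℂ] H')) (φ : A → B) : Prop where
  map_one : ∀ z : A, z.1 = 1 → (φ z).1 = 1
  map_add : ∀ x y z : A, z.1 = x.1 + y.1 → (φ z).1 = (φ x).1 + (φ y).1
  map_mul : ∀ x y z : A, z.1 = x.1 * y.1 → (φ z).1 = (φ x).1 * (φ y).1
  map_smul : ∀ (c : ℂ) (x z : A), z.1 = c • x.1 → (φ z).1 = c • (φ x).1
  map_star : ∀ x z : A, z.1 = ContinuousLinearMap.adjoint x.1 →
    (φ z).1 = ContinuousLinearMap.adjoint (φ x).1

/-- The space of the unital `*`-homomorphisms from `A` to `B` with the topology of pointwise norm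
convergence (the subspace topology of the product space `A → B`). -/
abbrev Hom (A : Set (H →L[ℂ] H)) (B : Set (H' →L[ℂ] H')) : Type :=
  {φ : A → B // IsStarHom A B φ}

/-- The identity. -/
def Hom.id (A : Set (H →L[ℂ] H)) : Hom A A :=
  ⟨fun x => x, fun _ h => h, fun _ _ _ h => h, fun _ _ _ h => h, fun _ _ _ h => h, fun _ _ h => h⟩

/-- The composition of two homomorphisms. -/
def Hom.comp {A : Set (H →L[ℂ] H)} {B : Set (H' →L[ℂ] H')} {C : Set (H'' →L[ℂ] H'')}
    (g : Hom B C) (f : Hom A B) : Hom A C :=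
  ⟨fun x => g.1 (f.1 x), fun _ h => g.2.map_one _ (f.2.map_one _ h),
    fun _ _ _ h => g.2.map_add _ _ _ (f.2.map_add _ _ _ h),
    fun _ _ _ h => g.2.map_mul _ _ _ (f.2.map_mul _ _ _ h),
    fun _ _ _ h => g.2.map_smul _ _ _ (f.2.map_smul _ _ _ h),
    fun _ _ h => g.2.map_star _ _ (f.2.map_star _ _ h)⟩

/-- `f` is a homotopy equivalence: for some `g` in the other direction `g ∘ f` and `f ∘ g` are joined to the
identities by continuous paths of unital `*`-homomorphisms. -/
def Hom.IsHomotopyEquiv {A : Set (H →L[ℂ] H)} {B : Set (H' →L[ℂ] H')} (f : Hom A B) : Prop :=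
  ∃ g : Hom B A, Joined (Hom.comp g f) (Hom.id A) ∧ Joined (Hom.comp f g) (Hom.id B)

end Defs

/-! ### Transport -/

section Transport

open Pool.SI Pool.HC

variable {k : ℕ} {H : Type} [NormedAddCommGroup H] [InnerProductSpace ℂ H] [CompleteSpace H]

/-- The unitary from `H` to the concrete Fock space. -/
def V (F : FockSpace k H) : H ≃ₗᵢ[ℂ] Fk k := F.e.repr

theorem V_e (F : FockSpace k H) (w : List (Fin k)) : V F (F.e w) = bs w := by
  classical
  have h := HilbertBasis.repr_self F.e w
  rw [V, h]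
  rfl

theorem V_symm (F : FockSpace k H) (w : List (Fin k)) : (V F).symm (bs w) = F.e w := by
  rw [← V_e F w, LinearIsometryEquiv.symm_apply_apply]

/-- Conjugation by `V`. -/
def Ph (F : FockSpace k H) : (H →L[ℂ] H) ≃⋆ₐ[ℂ] (Fk k →L[ℂ] Fk k) :=
  (V F).conjStarAlgEquiv

theorem Ph_apply (F : FockSpace k H) (x : H →L[ℂ] H) (ξ : Fk k) :
    Ph F x ξ = V F (x ((V F).symm ξ)) := rfl

theorem Ph_adjoint (F : FockSpace k H) (x : H →L[ℂ] H) :
    Ph F (ContinuousLinearMap.adjoint x) = ContinuousLinearMap.adjoint (Ph F x) := by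
  rw [← ContinuousLinearMap.star_eq_adjoint, ← ContinuousLinearMap.star_eq_adjoint, map_star]

theorem Ph_l (hBAS : Pool.SI.Stmt_BAS) (F : FockSpace k H) (i : Fin k) : Ph F (F.l i) = lc i := by
  refine (hBAS k).2.2.2.2.1 _ _ fun w => ?_
  rw [Ph_apply, V_symm, F.left, V_e, lc_bs]

theorem Ph_s (hBAS : Pool.SI.Stmt_BAS) (F : FockSpace k H) (i : Fin k) : Ph F (F.s i) = sc i := by
  rw [FockSpace.s, map_add, Ph_adjoint, Ph_l hBAS]
  rfl

theorem Ph_cont (F : FockSpace k H) : Continuous (Ph F) := by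
  have h : (Ph F : (H →L[ℂ] H) → _) = fun x => ((V F : H →L[ℂ] Fk k)).comp
      (x.comp ((V F).symm : Fk k →L[ℂ] H)) := rfl
  rw [h]
  exact continuous_const.clm_comp (continuous_id.clm_comp continuous_const)

theorem Ph_symm_cont (F : FockSpace k H) : Continuous (Ph F).symm := by
  have h : ((Ph F).symm : _ → (H →L[ℂ] H)) = fun x => (((V F).symm : Fk k →L[ℂ] H)).comp
      (x.comp (V F : H →L[ℂ] Fk k)) := rfl
  rw [h]
  exact continuous_const.clm_comp (continuous_id.clm_comp continuous_const)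

theorem Ph_mem (hBAS : Pool.SI.Stmt_BAS) (F : FockSpace k H) {x : H →L[ℂ] H}
    (hx : x ∈ F.algebra) : Ph F x ∈ Alg k := by
  refine map_mem_closure (Ph_cont F) hx fun _ hy => ?_
  have h : StarAlgebra.adjoin ℂ (range F.s) ≤ (StarAlgebra.adjoin ℂ (Set.range
      (sc : Fin k → (Fk k →L[ℂ] Fk k)))).comap (Ph F).toStarAlgHom := by
    refine StarAlgebra.adjoin_le ?_
    rintro _ ⟨i, rfl⟩
    change Ph F (F.s i) ∈ StarAlgebra.adjoin ℂ (Set.range (sc : Fin k → (Fk k →L[ℂ] Fk k)))
    rw [Ph_s hBAS]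
    exact StarAlgebra.subset_adjoin ℂ _ ⟨i, rfl⟩
  exact h hy

theorem Ph_symm_mem (hBAS : Pool.SI.Stmt_BAS) (F : FockSpace k H) {x : Fk k →L[ℂ] Fk k}
    (hx : x ∈ Alg k) : (Ph F).symm x ∈ F.algebra := by
  have hx' : x ∈ closure ((StarAlgebra.adjoin ℂ (Set.range (sc : Fin k → (Fk k →L[ℂ] Fk k))) :
    StarSubalgebra ℂ (Fk k →L[ℂ] Fk k)) : Set (Fk k →L[ℂ] Fk k)) := hx
  refine map_mem_closure (Ph_symm_cont F) hx' fun _ hy => ?_
  have h : StarAlgebra.adjoin ℂ (Set.range (sc : Fin k → (Fk k →L[ℂ] Fk k))) ≤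
      (StarAlgebra.adjoin ℂ (range F.s)).comap (Ph F).symm.toStarAlgHom := by
    refine StarAlgebra.adjoin_le ?_
    rintro _ ⟨i, rfl⟩
    change (Ph F).symm (sc i) ∈ StarAlgebra.adjoin ℂ (range F.s)
    rw [← Ph_s hBAS F, StarAlgEquiv.symm_apply_apply]
    exact StarAlgebra.subset_adjoin ℂ _ ⟨i, rfl⟩
  exact h hy

/-- From the abstract to the concrete algebra. -/
def up (hBAS : Pool.SI.Stmt_BAS) (F : FockSpace k H) (x : F.algebra) : Alg k :=
  ⟨Ph F (x : H →L[ℂ] H), Ph_mem hBAS F x.2⟩

/-- From the concrete to the abstract algebra. -/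
def dn (hBAS : Pool.SI.Stmt_BAS) (F : FockSpace k H) (x : Alg k) : F.algebra :=
  ⟨(Ph F).symm (x : Fk k →L[ℂ] Fk k), Ph_symm_mem hBAS F x.2⟩

theorem up_dn (hBAS : Pool.SI.Stmt_BAS) (F : FockSpace k H) (x : Alg k) :
    up hBAS F (dn hBAS F x) = x := by
  apply Subtype.ext
  change Ph F ((Ph F).symm _) = _
  rw [StarAlgEquiv.apply_symm_apply]

theorem dn_up (hBAS : Pool.SI.Stmt_BAS) (F : FockSpace k H) (x : F.algebra) :
    dn hBAS F (up hBAS F x) = x := by
  apply Subtype.ext
  change (Ph F).symm (Ph F _) = _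
  rw [StarAlgEquiv.symm_apply_apply]

theorem up_cont (hBAS : Pool.SI.Stmt_BAS) (F : FockSpace k H) : Continuous (up hBAS F) :=
  Continuous.subtype_mk ((Ph_cont F).comp continuous_subtype_val) _

theorem dn_cont (hBAS : Pool.SI.Stmt_BAS) (F : FockSpace k H) : Continuous (dn hBAS F) :=
  Continuous.subtype_mk ((Ph_symm_cont F).comp continuous_subtype_val) _

variable {l : ℕ} {H' : Type} [NormedAddCommGroup H'] [InnerProductSpace ℂ H'] [CompleteSpace H']

/-- From the abstract to the concrete homomorphisms. -/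
def hup (hBAS : Pool.SI.Stmt_BAS) (F : FockSpace k H) (F' : FockSpace l H')
    (φ : Hom F.algebra F'.algebra) : HomS k l :=
  (show Alg k →⋆ₐ[ℂ] Alg l from
  { toFun := fun x => up hBAS F' (φ.1 (dn hBAS F x))
    map_one' := by
      apply Subtype.ext
      change Ph F' (φ.1 (dn hBAS F 1)).1 = 1
      rw [φ.2.map_one (dn hBAS F 1) (map_one (Ph F).symm), map_one]
    map_mul' := fun x y => by
      apply Subtype.ext
      change Ph F' (φ.1 (dn hBAS F (x * y))).1 =
        Ph F' (φ.1 (dn hBAS F x)).1 * Ph F' (φ.1 (dn hBAS F y)).1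
      rw [φ.2.map_mul (dn hBAS F x) (dn hBAS F y) (dn hBAS F (x * y)) (map_mul (Ph F).symm _ _),
        map_mul]
    map_zero' := by
      apply Subtype.ext
      change Ph F' (φ.1 (dn hBAS F 0)).1 = 0
      rw [φ.2.map_smul 0 (dn hBAS F 0) (dn hBAS F 0)
        (by rw [zero_smul]; exact map_zero (Ph F).symm), zero_smul, map_zero]
    map_add' := fun x y => by
      apply Subtype.ext
      change Ph F' (φ.1 (dn hBAS F (x + y))).1 =
        Ph F' (φ.1 (dn hBAS F x)).1 + Ph F' (φ.1 (dn hBAS F y)).1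
      rw [φ.2.map_add (dn hBAS F x) (dn hBAS F y) (dn hBAS F (x + y)) (map_add (Ph F).symm _ _),
        map_add]
    commutes' := fun c => by
      apply Subtype.ext
      have e1 : φ.1 (dn hBAS F (algebraMap ℂ (Alg k) c)) = φ.1 (dn hBAS F (c • (1 : Alg k))) := by
        rw [Algebra.algebraMap_eq_smul_one]
      change Ph F' (φ.1 (dn hBAS F (algebraMap ℂ (Alg k) c))).1 = (algebraMap ℂ (Alg l) c).1
      rw [e1, φ.2.map_smul c (dn hBAS F 1) (dn hBAS F (c • (1 : Alg k)))
        (map_smul (Ph F).symm c _), φ.2.map_one (dn hBAS F 1) (map_one (Ph F).symm), map_smul,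
        map_one, Algebra.algebraMap_eq_smul_one]
      rfl
    map_star' := fun x => by
      apply Subtype.ext
      change Ph F' (φ.1 (dn hBAS F (star x))).1 = star (Ph F' (φ.1 (dn hBAS F x)).1)
      rw [φ.2.map_star (dn hBAS F x) (dn hBAS F (star x)) (map_star (Ph F).symm _), Ph_adjoint]
      rfl })

/-- From the concrete to the abstract homomorphisms. -/
def hdn (hBAS : Pool.SI.Stmt_BAS) (F : FockSpace k H) (F' : FockSpace l H')
    (ψ : Alg k →⋆ₐ[ℂ] Alg l) : Hom F.algebra F'.algebra :=
  ⟨fun x => dn hBAS F' (ψ (up hBAS F x)), fun z h => by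
      have e1 : up hBAS F z = 1 := Subtype.ext (by
        change Ph F z.1 = 1
        rw [h, map_one])
      change (Ph F').symm (ψ (up hBAS F z)).1 = 1
      rw [e1, map_one]
      exact map_one _,
    fun x y z h => by
      have e1 : up hBAS F z = up hBAS F x + up hBAS F y := Subtype.ext (by
        change Ph F z.1 = Ph F x.1 + Ph F y.1
        rw [h, map_add])
      change (Ph F').symm (ψ (up hBAS F z)).1 = (Ph F').symm (ψ (up hBAS F x)).1 +
        (Ph F').symm (ψ (up hBAS F y)).1
      rw [e1, map_add]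
      exact map_add _ _ _,
    fun x y z h => by
      have e1 : up hBAS F z = up hBAS F x * up hBAS F y := Subtype.ext (by
        change Ph F z.1 = Ph F x.1 * Ph F y.1
        rw [h, map_mul])
      change (Ph F').symm (ψ (up hBAS F z)).1 = (Ph F').symm (ψ (up hBAS F x)).1 *
        (Ph F').symm (ψ (up hBAS F y)).1
      rw [e1, map_mul]
      exact map_mul _ _ _,
    fun c x z h => by
      have e1 : up hBAS F z = c • up hBAS F x := Subtype.ext (by
        change Ph F z.1 = c • Ph F x.1
        rw [h, map_smul])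
      change (Ph F').symm (ψ (up hBAS F z)).1 = c • (Ph F').symm (ψ (up hBAS F x)).1
      rw [e1, map_smul]
      exact map_smul (Ph F').symm c _,
    fun x z h => by
      have e1 : up hBAS F z = star (up hBAS F x) := Subtype.ext (by
        change Ph F z.1 = star (Ph F x.1)
        rw [h, Ph_adjoint, ContinuousLinearMap.star_eq_adjoint])
      change (Ph F').symm (ψ (up hBAS F z)).1 =
        ContinuousLinearMap.adjoint ((Ph F').symm (ψ (up hBAS F x)).1)
      rw [e1, map_star]
      exact map_star (Ph F').symm _⟩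

/-- The spaces of homomorphisms are homeomorphic. -/
def homeo (hBAS : Pool.SI.Stmt_BAS) (F : FockSpace k H) (F' : FockSpace l H') :
    Hom F.algebra F'.algebra ≃ₜ HomS k l where
  toFun := hup hBAS F F'
  invFun := fun ψ => hdn hBAS F F' ψ
  left_inv φ := by
    apply Subtype.ext
    funext x
    change dn hBAS F' (up hBAS F' (φ.1 (dn hBAS F (up hBAS F x)))) = φ.1 x
    rw [dn_up, dn_up]
  right_inv ψ := by
    refine DFunLike.coe_injective (F := Alg k →⋆ₐ[ℂ] Alg l) ?_
    funext x
    change up hBAS F' (dn hBAS F' ((show Alg k →⋆ₐ[ℂ] Alg l from ψ)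
      (up hBAS F (dn hBAS F x)))) = (show Alg k →⋆ₐ[ℂ] Alg l from ψ) x
    rw [up_dn, up_dn]
  continuous_toFun := by
    rw [continuous_induced_rng]
    refine continuous_pi fun x => ?_
    exact (up_cont hBAS F').comp ((continuous_apply (dn hBAS F x)).comp continuous_subtype_val)
  continuous_invFun := by
    refine Continuous.subtype_mk ?_ _
    refine continuous_pi fun x => ?_
    have h : Continuous (fun φ : HomS k l => fun x : Alg k =>
        (show Alg k →⋆ₐ[ℂ] Alg l from φ) x) := continuous_induced_dom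
    exact (dn_cont hBAS F').comp ((continuous_apply (up hBAS F x)).comp h)

theorem contractible (hBAS : Pool.SI.Stmt_BAS) (hFIN : Stmt_FIN) (F : FockSpace k H)
    (F' : FockSpace l H') (hk : 2 ≤ k) (hl : 2 ≤ l) :
    ContractibleSpace (Hom F.algebra F'.algebra) := by
  have := (hFIN k l hk hl).1
  exact (homeo hBAS F F').contractibleSpace

end Transport

end Pool.Agent.MP118406hc
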