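import Pool.Agent.Work.MP_118406_si.B_BAS
import Pool.Agent.Work.MP_118406_si.B_JOP
import Pool.Agent.Work.MP_118406_si.B_COM
import Pool.Agent.Work.MP_118406_si.B_SPN
import Pool.Agent.Work.MP_118406_si.B_CYC
import Pool.Agent.Work.MP_118406_si.B_ALC
import Pool.Agent.Work.MP_118406_si.B_FEX
import Pool.Agent.Work.MP_118406_si.B_FRE
import Pool.Agent.Work.MP_118406_si.B_POW
import Pool.Agent.Work.MP_118406_si.B_UTA
import Pool.Agent.Work.MP_118406_si.B_UTB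
import Pool.Agent.Work.MP_118406_si.B_SCM
import Pool.Agent.Work.MP_118406_si.B_HAA
import Pool.Agent.Work.MP_118406_si.B_UTF
import Pool.Agent.Work.MP_118406_hc.B_WPM
import Pool.Agent.Work.MP_118406_hc.B_WMP
import Pool.Agent.Work.MP_118406_hc.B_WVC
import Pool.Agent.Work.MP_118406_hc.B_WSP
import Pool.Agent.Work.MP_118406_hc.B_UPA
import Pool.Agent.Work.MP_118406_hc.B_UPB
import Pool.Agent.Work.MP_118406_hc.B_UPR
import Pool.Agent.Work.MP_118406_hc.B_EXT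
import Pool.Agent.Work.MP_118406_hc.B_TRA
import Pool.Agent.Work.MP_118406_hc.B_GEX
import Pool.Agent.Work.MP_118406_hc.B_GCR
import Pool.Agent.Work.MP_118406_hc.B_CEN
import Pool.Agent.Work.MP_118406_hc.B_LAM
import Pool.Agent.Work.MP_118406_hc.B_ZIG
import Pool.Agent.Work.MP_118406_hc.B_ALX
import Pool.Agent.Work.MP_118406_hc.B_ICL
import Pool.Agent.Work.MP_118406_hc.B_PHI
import Pool.Agent.Work.MP_118406_hc.B_BET
import Pool.Agent.Work.MP_118406_hc.B_PSI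
import Pool.Agent.Work.MP_118406_hc.B_ROT
import Pool.Agent.Work.MP_118406_hc.B_PHP
import Pool.Agent.Work.MP_118406_hc.B_RTP
import Pool.Agent.Work.MP_118406_hc.B_HTP
import Pool.Agent.Work.MP_118406_hc.B_FIN
import Pool.Agent.Work.MP_118406_hc.Space

set_option autoImplicit false

/-! # Assembly of the blocks -/

noncomputable section

namespace Pool.HC

open Pool.SI

theorem a_BAS : Pool.SI.Stmt_BAS := p_BAS
theorem a_JOP : Pool.SI.Stmt_JOP := p_JOP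
theorem a_COM : Pool.SI.Stmt_COM := p_COM a_BAS a_JOP
theorem a_SPN : Pool.SI.Stmt_SPN := p_SPN a_BAS
theorem a_CYC : Pool.SI.Stmt_CYC := p_CYC a_BAS
theorem a_ALC : Pool.SI.Stmt_ALC := p_ALC a_BAS a_JOP a_COM a_SPN
theorem a_FEX : Pool.SI.Stmt_FEX := p_FEX a_BAS
theorem a_FRE : Pool.SI.Stmt_FRE := p_FRE a_BAS a_FEX
theorem a_UTA : Pool.SI.Stmt_UTA := p_UTA p_POW
theorem a_UTB : Pool.SI.Stmt_UTB := p_UTB a_UTA
theorem a_SCM : Pool.SI.Stmt_SCM := p_SCM a_BAS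
theorem a_HAA : Pool.SI.Stmt_HAA := p_HAA a_BAS a_SCM
theorem a_UTF : Pool.SI.Stmt_UTF := p_UTF a_BAS a_CYC a_FRE a_HAA a_UTB

theorem t_WPM : Stmt_WPM := p_WPM
theorem t_WMP : Stmt_WMP := p_WMP
theorem t_WVC : Stmt_WVC := p_WVC a_BAS
theorem t_WSP : Stmt_WSP := p_WSP
theorem t_UPA : Stmt_UPA := p_UPA t_WMP t_WVC t_WSP a_BAS
theorem t_UPB : Stmt_UPB := p_UPB a_BAS a_CYC a_ALC
theorem t_UPR : Stmt_UPR := p_UPR t_UPA t_UPB
theorem t_EXT : Stmt_EXT := p_EXT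
theorem t_TRA : Stmt_TRA := p_TRA a_ALC a_UTF t_EXT
theorem t_GEX : Stmt_GEX := p_GEX a_BAS
theorem t_GCR : Stmt_GCR := p_GCR t_WPM
theorem t_CEN : Stmt_CEN := p_CEN t_WMP t_WVC a_BAS
theorem t_LAM : Stmt_LAM := p_LAM a_BAS a_SCM
theorem t_ZIG : Stmt_ZIG := p_ZIG
theorem t_ALX : Stmt_ALX := p_ALX
theorem t_ICL : Stmt_ICL := p_ICL t_WVC a_BAS t_UPR
theorem t_PHI : Stmt_PHI := p_PHI t_WMP t_GEX t_GCR t_CEN a_BAS
theorem t_BET : Stmt_BET := p_BET t_WMP t_GEX t_GCR t_CEN a_BAS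
theorem t_PSI : Stmt_PSI := p_PSI t_WMP t_WVC t_EXT t_GEX t_GCR t_CEN a_BAS
theorem t_ROT : Stmt_ROT := p_ROT a_BAS
theorem t_PHP : Stmt_PHP := p_PHP t_UPR t_EXT t_LAM t_ZIG t_ALX t_PHI t_BET
theorem t_RTP : Stmt_RTP := p_RTP t_UPR t_ICL t_PSI t_ROT
theorem t_HTP : Stmt_HTP := p_HTP t_EXT t_TRA t_PHP t_RTP
theorem t_FIN : Stmt_FIN := p_FIN t_UPR t_ICL t_PHP t_HTP

end Pool.HC

namespace Pool.Agent.MP118406hc

variable {k : ℕ} {H : Type} [NormedAddCommGroup H] [InnerProductSpace ℂ H] [CompleteSpace H]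
  {l : ℕ} {H' : Type} [NormedAddCommGroup H'] [InnerProductSpace ℂ H'] [CompleteSpace H']

theorem contr (F : FockSpace k H) (F' : FockSpace l H') (hk : 2 ≤ k) (hl : 2 ≤ l) :
    ContractibleSpace (Hom F.algebra F'.algebra) :=
  contractible Pool.HC.a_BAS Pool.HC.t_FIN F F' hk hl

end Pool.Agent.MP118406hc
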