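import Pool.Agent.Work.MP_118406_hc.Interface

set_option autoImplicit false

open scoped InnerProductSpace ComplexConjugate Topology unitInterval
open Set Filter

noncomputable section

namespace Pool.HC

open Pool.SI

theorem EXT_closed (k : ℕ) :
    IsClosed ((Alg k : StarSubalgebra ℂ (Fk k →L[ℂ] Fk k)) : Set (Fk k →L[ℂ] Fk k)) :=
  StarSubalgebra.isClosed_topologicalClosure _

theorem EXT_norm {N l : ℕ} (φ : Alg N →⋆ₐ[ℂ] Alg l) (x : Alg N) : ‖φ x‖ ≤ ‖x‖ := by
  have := EXT_closed N
  have := EXT_closed l
  exact NonUnitalStarAlgHom.norm_apply_le φ x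

theorem EXT_cont {N l : ℕ} (φ : Alg N →⋆ₐ[ℂ] Alg l) : Continuous φ := by
  apply AddMonoidHomClass.continuous_of_bound φ 1
  intro x
  rw [one_mul]
  exact EXT_norm φ x

theorem EXT_ind {N : ℕ} (P : Alg N → Prop) (hge : ∀ i : Fin N, P (ge i))
    (halg : ∀ r : ℂ, P (algebraMap ℂ (Alg N) r)) (hadd : ∀ x y, P x → P y → P (x + y))
    (hmul : ∀ x y, P x → P y → P (x * y)) (hstar : ∀ x, P x → P (star x))
    (hcl : IsClosed {x | P x}) : ∀ x, P x := by
  have hD : ∀ y (hy : y ∈ StarAlgebra.adjoin ℂ (Set.range (sc : Fin N → (Fk N →L[ℂ] Fk N)))),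
      P ⟨y, StarSubalgebra.le_topologicalClosure _ hy⟩ := by
    intro y hy
    induction hy using StarAlgebra.adjoin_induction with
    | mem y hy =>
      obtain ⟨i, rfl⟩ := hy
      exact hge i
    | algebraMap r =>
      have e : (⟨algebraMap ℂ (Fk N →L[ℂ] Fk N) r, StarSubalgebra.le_topologicalClosure _
          (algebraMap_mem _ r)⟩ : Alg N) = algebraMap ℂ (Alg N) r := Subtype.ext rfl
      rw [e]
      exact halg r
    | add a b ha0 hb0 ha hb =>
      have e : (⟨a + b, StarSubalgebra.le_topologicalClosure _
          (add_mem ha0 hb0)⟩ : Alg N) = ⟨a, StarSubalgebra.le_topologicalClosure _ ha0⟩ +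
          ⟨b, StarSubalgebra.le_topologicalClosure _ hb0⟩ := Subtype.ext rfl
      rw [e]
      exact hadd _ _ ha hb
    | mul a b ha0 hb0 ha hb =>
      have e : (⟨a * b, StarSubalgebra.le_topologicalClosure _
          (mul_mem ha0 hb0)⟩ : Alg N) = ⟨a, StarSubalgebra.le_topologicalClosure _ ha0⟩ *
          ⟨b, StarSubalgebra.le_topologicalClosure _ hb0⟩ := Subtype.ext rfl
      rw [e]
      exact hmul _ _ ha hb
    | star a ha0 ha =>
      have e : (⟨star a, StarSubalgebra.le_topologicalClosure _
          (star_mem ha0)⟩ : Alg N) = star ⟨a, StarSubalgebra.le_topologicalClosure _ ha0⟩ :=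
        Subtype.ext rfl
      rw [e]
      exact hstar _ ha
  intro x
  have hx : (x : Fk N →L[ℂ] Fk N) ∈
      closure ((StarAlgebra.adjoin ℂ (Set.range (sc : Fin N → (Fk N →L[ℂ] Fk N))) :
        StarSubalgebra ℂ (Fk N →L[ℂ] Fk N)) : Set (Fk N →L[ℂ] Fk N)) := x.2
  rw [mem_closure_iff_seq_limit] at hx
  obtain ⟨u, hu, hlim⟩ := hx
  have h1 : Tendsto (fun n => (⟨u n, StarSubalgebra.le_topologicalClosure _ (hu n)⟩ : Alg N))
      atTop (𝓝 x) := by
    rw [tendsto_subtype_rng]
    exact hlim
  exact hcl.mem_of_tendsto h1 (Eventually.of_forall (fun n => hD (u n) (hu n)))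

theorem p_EXT : Stmt_EXT := by
  intro N l
  refine ⟨?_, EXT_norm, ?_, ?_⟩
  · intro φ ψ h
    apply StarAlgHom.ext
    apply EXT_ind (fun x => φ x = ψ x) h
    · intro r
      rw [AlgHomClass.commutes, AlgHomClass.commutes]
    · intro x y hx hy
      rw [map_add, map_add, hx, hy]
    · intro x y hx hy
      rw [map_mul, map_mul, hx, hy]
    · intro x hx
      rw [map_star, map_star, hx]
    · exact isClosed_eq (EXT_cont φ) (EXT_cont ψ)
  · intro X _ f hf
    apply EXT_ind (fun x => Continuous (fun t => f t x)) hf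
    · intro r
      have h : (fun t => f t (algebraMap ℂ (Alg N) r)) = fun _ => algebraMap ℂ (Alg l) r := by
        funext t
        rw [AlgHomClass.commutes]
      rw [h]
      exact continuous_const
    · intro x y hx hy
      have h : (fun t => f t (x + y)) = fun t => f t x + f t y := by
        funext t
        rw [map_add]
      rw [h]
      exact hx.add hy
    · intro x y hx hy
      have h : (fun t => f t (x * y)) = fun t => f t x * f t y := by
        funext t
        rw [map_mul]
      rw [h]
      exact hx.mul hy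
    · intro x hx
      have h : (fun t => f t (star x)) = fun t => star (f t x) := by
        funext t
        rw [map_star]
      rw [h]
      exact continuous_star.comp hx
    · apply isClosed_of_closure_subset
      intro x hx
      apply continuous_of_uniform_approx_of_continuous
      intro u hu
      rw [Metric.mem_uniformity_dist] at hu
      obtain ⟨ε, hε, hu⟩ := hu
      rw [Metric.mem_closure_iff] at hx
      obtain ⟨y, hy, hxy⟩ := hx ε hε
      refine ⟨fun t => f t y, hy, ?_⟩
      intro t
      apply hu
      refine lt_of_le_of_lt ?_ hxy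
      rw [dist_eq_norm, dist_eq_norm, ← map_sub]
      exact EXT_norm (f t) (x - y)
  · intro φ S hS h
    apply EXT_ind (fun x => (φ x : Fk l →L[ℂ] Fk l) ∈ S) h
    · intro r
      rw [AlgHomClass.commutes]
      exact algebraMap_mem S r
    · intro x y hx hy
      rw [map_add]
      exact add_mem hx hy
    · intro x y hx hy
      rw [map_mul]
      exact mul_mem hx hy
    · intro x hx
      rw [map_star]
      exact star_mem hx
    · exact hS.preimage (continuous_subtype_val.comp (EXT_cont φ))

end Pool.HC
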