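import Pool.Agent.Work.MP_118406_hc.Interface

set_option autoImplicit false

/-!
# MP_118406_an, THEOREM HC: block PSI (helper71)
-/

open scoped InnerProductSpace ComplexConjugate Topology unitInterval
open Set Filter

noncomputable section

namespace Pool.HC

open Pool.SI

theorem PSI_pw_mem {N M : ℕ} (S : StarSubalgebra ℂ (Fk M →L[ℂ] Fk M))
    {x : Fin N → (Fk M →L[ℂ] Fk M)} (hx : ∀ i, x i ∈ S) : ∀ w : List (Fin N), Pw x w ∈ S
  | [] => one_mem _
  | [i] => hx i
  | i :: j :: w => by
    have h1 := PSI_pw_mem S hx (j :: w)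
    have h2 := PSI_pw_mem S hx w
    rw [Pw]
    refine sub_mem (mul_mem (hx i) h1) ?_
    by_cases hij : j = i
    · simpa only [hij, if_true] using h2
    · simp only [hij, if_false]
      exact zero_mem _

/-- a list of letters in the range of `f` is `u.map f` -/
theorem PSI_map {A B : Type} (f : A → B) : ∀ u : List B, (∀ i ∈ u, ∃ a, i = f a) →
    ∃ v : List A, u = v.map f
  | [], _ => ⟨[], rfl⟩
  | b :: u, h => by
    obtain ⟨a, ha⟩ := h b (by simp)
    obtain ⟨v, hv⟩ := PSI_map f u fun i hi => h i (by simp [hi])
    exact ⟨a :: v, by rw [ha, hv]; rfl⟩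

/-- the vacuum expectation of a Wick word in the semicircular operators -/
theorem PSI_tau (hWVC : Stmt_WVC) {N M : ℕ} (e : Fin N → Fin M) (he : Function.Injective e)
    (u : List (Fin N)) (hu : u ≠ []) :
    tau (Pw (fun i => (sc (e i) : Fk M →L[ℂ] Fk M)) u) = 0 := by
  have h1 := hWVC N M e he u [] (by intro i _ h; simp at h)
  unfold tau
  have h2 : vac M = bs [] := rfl
  rw [h2, h1, bs_inner, bs_apply]
  have h3 : ¬ (([] : List (Fin M)) = u.map e ++ []) := by
    intro h
    apply hu
    simpa using h.symm
  simp only [h3, if_false]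

theorem p_PSI (hWMP : Stmt_WMP) (hWVC : Stmt_WVC) (hEXT : Stmt_EXT) (hGEX : Stmt_GEX)
    (hGCR : Stmt_GCR) (hCEN : Stmt_CEN) (hBAS : Pool.SI.Stmt_BAS) : Stmt_PSI := by
  intro k l φ ι hφ hι
  obtain ⟨hW1, _, _, _, hW5⟩ := hWMP
  obtain ⟨_, _, hC3, hC4, hC5, hC6, hC7⟩ := hCEN
  obtain ⟨_, _, _, _, _, _, hsa, _⟩ := hBAS (l + k)
  obtain ⟨_, _, _, _, _, _, hsak, _⟩ := hBAS k
  obtain ⟨hι1, hι2⟩ := hι
  set y : Fin (k + k) → (Fk (l + k) →L[ℂ] Fk (l + k)) :=
    Fin.append (fun j : Fin k => (ι (φ (ge j)) : Fk (l + k) →L[ℂ] Fk (l + k)))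
      (fun j : Fin k => (sc (Fin.natAdd l j) : Fk (l + k) →L[ℂ] Fk (l + k))) with hy
  have hyl : ∀ j : Fin k, y (Fin.castAdd k j) = (ι (φ (ge j)) : Fk (l + k) →L[ℂ] Fk (l + k)) := by
    intro j
    rw [hy, Fin.append_left]
  have hyr : ∀ j : Fin k, y (Fin.natAdd k j) = sc (Fin.natAdd l j) := by
    intro j
    rw [hy, Fin.append_right]
  set p : Fin (l + k) → Prop := fun i => ∃ j : Fin l, i = Fin.castAdd k j with hp
  set q : Fin (l + k) → Prop := fun i => ∃ j : Fin k, i = Fin.natAdd l j with hq
  have hpq : ∀ i, p i → ¬ q i := by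
    rintro i ⟨a, rfl⟩ ⟨b, hb⟩
    have := congrArg Fin.val hb
    simp at this
    omega
  -- the ring homomorphism `x ↦ ι (φ x)`
  let f : Alg k →+* (Fk (l + k) →L[ℂ] Fk (l + k)) :=
    (Alg (l + k)).subtype.toRingHom.comp
      ((ι : Alg l →+* Alg (l + k)).comp (φ : Alg k →+* Alg l))
  have hf : ∀ x : Alg k, f x = (ι (φ x) : Fk (l + k) →L[ℂ] Fk (l + k)) := fun x => rfl
  let c : Alg k →+* (Fk k →L[ℂ] Fk k) := (Alg k).subtype.toRingHom
  have hc : ∀ x : Alg k, c x = (x : Fk k →L[ℂ] Fk k) := fun x => rfl
  have hιmem : ∀ x : Alg l, (ι x : Fk (l + k) →L[ℂ] Fk (l + k)) ∈ AG p := by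
    refine (hEXT l (l + k)).2.2.2 ι (AG p) (StarSubalgebra.isClosed_topologicalClosure _) ?_
    intro i
    rw [hι1]
    exact hC7 (l + k) p (Fin.castAdd k i) ⟨i, rfl⟩
  -- words in the letters of the first kind
  have hL : ∀ v : List (Fin k), v ≠ [] →
      Pw y (v.map (Fin.castAdd k)) ∈ AG p ∧ tau (Pw y (v.map (Fin.castAdd k))) = 0 := by
    intro v hv
    have h1 : Pw y (v.map (Fin.castAdd k)) = f (Pw (ge : Fin k → Alg k) v) := by
      rw [hW5 k (k + k) _ (Fin.castAdd k) (Fin.castAdd_injective k k) y v,
        hW1 k _ _ f (ge : Fin k → Alg k) v]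
      congr 1
      funext i
      rw [hyl, hf]
    rw [h1]
    constructor
    · rw [hf]
      exact hιmem _
    · rw [hf, hι2, hφ]
      have h2 : ((Pw (ge : Fin k → Alg k) v : Alg k) : Fk k →L[ℂ] Fk k) =
          Pw (fun i => (sc (id i) : Fk k →L[ℂ] Fk k)) v := by
        rw [← hc, hW1 k _ _ c (ge : Fin k → Alg k) v]
        rfl
      rw [h2]
      exact PSI_tau hWVC id Function.injective_id v hv
  -- words in the letters of the second kind
  have hR : ∀ v : List (Fin k), v ≠ [] →
      Pw y (v.map (Fin.natAdd k)) ∈ AG q ∧ tau (Pw y (v.map (Fin.natAdd k))) = 0 := by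
    intro v hv
    have h1 : Pw y (v.map (Fin.natAdd k)) =
        Pw (fun i => (sc (Fin.natAdd l i) : Fk (l + k) →L[ℂ] Fk (l + k))) v := by
      rw [hW5 k (k + k) _ (Fin.natAdd k) (Fin.natAdd_injective k k) y v]
      congr 1
      funext i
      rw [hyr]
    rw [h1]
    constructor
    · exact PSI_pw_mem _ (fun i => hC7 (l + k) q (Fin.natAdd l i) ⟨i, rfl⟩) v
    · exact PSI_tau hWVC (Fin.natAdd l) (Fin.natAdd_injective k l) v hv
  refine ⟨?_, ?_, ?_⟩
  · intro i
    refine Fin.addCases (fun j => ?_) (fun j => ?_) i
    · rw [hyl]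
      exact (ι (φ (ge j))).2
    · rw [hyr]
      exact sc_mem _
  · intro i
    refine Fin.addCases (fun j => ?_) (fun j => ?_) i
    · rw [hyl]
      have h1 : star (ge j : Alg k) = ge j := by
        apply Subtype.ext
        exact hsak j
      have h2 : star (ι (φ (ge j))) = ι (φ (ge j)) := by
        rw [← map_star, ← map_star, h1]
      exact congrArg (fun z : Alg (l + k) => (z : Fk (l + k) →L[ℂ] Fk (l + k))) h2
    · rw [hyr, hsa]
  · intro w hw
    cases w with
    | nil => exact absurd rfl hw
    | cons i w =>
      set g : Fin (k + k) → Bool := fun i => Fin.addCases (fun _ => true) (fun _ => false) i with hg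
      have hgl : ∀ j : Fin k, g (Fin.castAdd k j) = true := by
        intro j
        simp only [hg, Fin.addCases_left]
      have hgr : ∀ j : Fin k, g (Fin.natAdd k j) = false := by
        intro j
        simp only [hg, Fin.addCases_right]
      set K : Bool → Set (Fk (l + k)) := fun b => if b = true then Hp p else Hp q with hK
      have hK1 : K true = Hp p := by simp [hK]
      have hK2 : K false = Hp q := by simp [hK]
      have hmain : Pw y (i :: w) (vac (l + k)) ∈ K (g i) := by
        refine hGCR (k + k) (Fk (l + k)) (vac (l + k)) y Bool g K ?_ i w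
        intro c u hu hall ξ hξ
        cases c with
        | true =>
          obtain ⟨v, hv⟩ := PSI_map (Fin.castAdd k) u (by
            intro i hi
            have h1 := hall i hi
            refine Fin.addCases (motive := fun i => g i = true → ∃ a, i = Fin.castAdd k a)
              (fun j _ => ⟨j, rfl⟩) (fun j h => ?_) i h1
            rw [hgr] at h
            exact absurd h (by simp))
          have hv0 : v ≠ [] := by
            rintro rfl
            exact hu hv
          obtain ⟨hmem, htau⟩ := hL v hv0
          have hξm : ξ ∈ Hm p := by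
            rcases hξ with h | ⟨c', hc', h⟩
            · rw [h]
              exact hC4 (l + k) p
            · have h5 : c' = false := by
                cases c' with
                | true => exact absurd rfl hc'
                | false => rfl
              rw [h5, hK2] at h
              exact hC3 (l + k) q p (fun i hi hi' => hpq i hi' hi) h
          have h3 := hGEX (l + k) p _ hmem ξ hξm
          rw [htau, zero_smul, sub_zero] at h3
          rw [hv, hK1]
          exact h3
        | false =>
          obtain ⟨v, hv⟩ := PSI_map (Fin.natAdd k) u (by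
            intro i hi
            have h1 := hall i hi
            refine Fin.addCases (motive := fun i => g i = false → ∃ a, i = Fin.natAdd k a)
              (fun j h => ?_) (fun j _ => ⟨j, rfl⟩) i h1
            rw [hgl] at h
            exact absurd h (by simp))
          have hv0 : v ≠ [] := by
            rintro rfl
            exact hu hv
          obtain ⟨hmem, htau⟩ := hR v hv0
          have hξm : ξ ∈ Hm q := by
            rcases hξ with h | ⟨c', hc', h⟩
            · rw [h]
              exact hC4 (l + k) q
            · have h5 : c' = true := by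
                cases c' with
                | true => rfl
                | false => exact absurd rfl hc'
              rw [h5, hK1] at h
              exact hC3 (l + k) p q hpq h
          have h3 := hGEX (l + k) q _ hmem ξ hξm
          rw [htau, zero_smul, sub_zero] at h3
          rw [hv, hK2]
          exact h3
      unfold tau
      cases hgi : g i with
      | true =>
        rw [hgi, hK1] at hmain
        exact hC5 (l + k) p _ hmain
      | false =>
        rw [hgi, hK2] at hmain
        exact hC5 (l + k) q _ hmain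

end Pool.HC
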