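import Pool.Agent.Work.MP_118406_si.Defs

set_option autoImplicit false

/-!
# Spaces of unital `*`-homomorphisms between the algebras `Alg k`

`HomS k l` is the set of all unital `*`-homomorphisms `Alg k → Alg l` with the topology of pointwise
norm convergence.
-/

open scoped InnerProductSpace ComplexConjugate Topology
open Set

noncomputable section

namespace Pool.HC

open Pool.SI

/-- The unital `*`-homomorphisms from `Alg k` to `Alg l`. -/
def HomS (k l : ℕ) : Type := Alg k →⋆ₐ[ℂ] Alg l

/-- The topology of pointwise norm convergence. -/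
instance HomS.topology (k l : ℕ) : TopologicalSpace (HomS k l) :=
  TopologicalSpace.induced (fun (φ : Alg k →⋆ₐ[ℂ] Alg l) (x : Alg k) => φ x) inferInstance

/-- The identity of `Alg k`. -/
def HomS.one (k : ℕ) : HomS k k := StarAlgHom.id ℂ (Alg k)

/-- Composition. -/
def HomS.comp {k l m : ℕ} (ψ : HomS l m) (φ : HomS k l) : HomS k m :=
  StarAlgHom.comp (A := Alg k) (B := Alg l) (C := Alg m) ψ φ

end Pool.HC
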