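import Pool.Agent.Work.MP_118406_si.Interface
import Pool.Agent.Work.MP_118406_hc.Defs

set_option autoImplicit false

/-!
# The spaces `HomS k l` are contractible: interface

The file of block `X` is `Pool/Agent/Work/MP_118406_hc/B_X.lean`: `import` this file, open the same
namespaces, `namespace Pool.HC`, `open Pool.SI`, `theorem p_X (hA : Stmt_A) (hB : Stmt_B) .. : Stmt_X`
with the blocks of the column `uses` as hypotheses in that order (the blocks BAS, CYC, ALC, SCM, UTF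
are the statements `Pool.SI.Stmt_BAS` .. of the landed interface `MP_118406_si`, use them as
hypotheses too); auxiliary lemmas with prefix `X_`.

Notation of the comments: `Ω = vac k`, `s_i = sc i`, `δ_w = bs w`, `τ = tau`, `I = [0, 1]`.
-/

open scoped InnerProductSpace ComplexConjugate Topology unitInterval
open Set Filter

noncomputable section

namespace Pool.HC

open Pool.SI

/-! ## Auxiliary definitions -/

/-- The vacuum state. -/
def tau {l : ℕ} (x : Fk l →L[ℂ] Fk l) : ℂ := ⟪vac l, x (vac l)⟫_ℂ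

/-- The Wick words in the elements `x i` of a ring: `P_() = 1`, `P_(i w) = x_i P_w - [w = i w'] P_w'`. -/
def Pw {N : ℕ} {R : Type} [Ring R] (x : Fin N → R) : List (Fin N) → R
  | [] => 1
  | [i] => x i
  | i :: j :: w => x i * Pw x (j :: w) - (if j = i then Pw x w else 0)

/-- The Chebyshev polynomials in one element: `S_0 = 1`, `S_1 = x`, `S_(n+2) = x S_(n+1) - S_n`. -/
def Sn {R : Type} [Ring R] (x : R) : ℕ → R
  | 0 => 1
  | 1 => x
  | n + 2 => x * Sn x (n + 1) - Sn x n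

/-- Free semicircular families in `Alg l`. -/
def Semi {N l : ℕ} (y : Fin N → (Fk l →L[ℂ] Fk l)) : Prop :=
  (∀ i, y i ∈ Alg l) ∧ (∀ i, star (y i) = y i) ∧ ∀ w : List (Fin N), w ≠ [] → tau (Pw y w) = 0

/-- The C*-algebra generated by the `s_i` with `p i`. -/
def AG {N : ℕ} (p : Fin N → Prop) : StarSubalgebra ℂ (Fk N →L[ℂ] Fk N) :=
  (StarAlgebra.adjoin ℂ {x | ∃ i, p i ∧ x = sc i}).topologicalClosure

/-- The vectors supported on the words whose first letter satisfies `p`. -/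
def Hp {N : ℕ} (p : Fin N → Prop) : Set (Fk N) :=
  {ξ | ∀ v : List (Fin N), (∀ i, v.head? = some i → ¬ p i) → ξ v = 0}

/-- The vectors supported on the empty word and the words whose first letter does not satisfy `p`. -/
def Hm {N : ℕ} (p : Fin N → Prop) : Set (Fk N) :=
  {ξ | ∀ (v : List (Fin N)) (i : Fin N), v.head? = some i → p i → ξ v = 0}

/-- The integral over the unit interval. -/
def lint (h : C(I, ℂ)) : ℂ := ∫ t in (0 : ℝ)..1, h (Set.projIcc 0 1 zero_le_one t)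

/-- The function `exp (2 π i m t)`. -/
def em (m : ℤ) : C(I, ℂ) :=
  ⟨fun t => Complex.exp (2 * Real.pi * Complex.I * m * ((t : ℝ) : ℂ)), by fun_prop⟩

/-- `Λ` is the functional calculus of `s_i` in the coordinate in which its distribution is the
Lebesgue measure; `Q` is the quantile function. -/
def Coord {l : ℕ} (i : Fin l) (Q : C(I, ℂ)) (Λ : C(I, ℂ) →⋆ₐ[ℂ] (Fk l →L[ℂ] Fk l)) : Prop :=
  (∀ t, conj (Q t) = Q t) ∧ (∀ h, Λ h ∈ AG (fun j => j = i)) ∧ (∀ h, tau (Λ h) = lint h) ∧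
  Λ Q = sc i

/-- Lebesgue measure preserving maps of the unit interval. -/
def LP (g : C(I, I)) : Prop := ∀ h : C(I, ℂ), lint (h.comp g) = lint h

/-- The family `s_1, T, s_3, .., s_l` (`T` in the place `i₂`). -/
def fam {l : ℕ} (i₂ : Fin l) (T : Fk l →L[ℂ] Fk l) : Fin l → (Fk l →L[ℂ] Fk l) :=
  fun i => if i = i₂ then T else sc i

/-- The family `s_1, T, s_3, .., s_l, v_1 s_1 v_1*, .., v_k s_1 v_k*`, `v_j = v j`. -/
def bet {l : ℕ} (k : ℕ) (i₁ i₂ : Fin l) (T : Fk l →L[ℂ] Fk l) (v : ℕ → (Fk l →L[ℂ] Fk l)) :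
    Fin (l + k) → (Fk l →L[ℂ] Fk l) :=
  Fin.append (fam i₂ T) (fun j : Fin k => v (j + 1) * sc i₁ * star (v (j + 1)))

/-- The inclusion of `Alg l` into `Alg (l + k)`. -/
def Incl {k l : ℕ} (ι : Alg l →⋆ₐ[ℂ] Alg (l + k)) : Prop :=
  (∀ i, ι (ge i) = ge (Fin.castAdd k i)) ∧
  ∀ x : Alg l, tau (ι x : Fk (l + k) →L[ℂ] Fk (l + k)) = tau (x : Fk l →L[ℂ] Fk l)

/-! ## A. Wick words -/

/-- BLOCK WPM (uses nothing): products of Wick words.
PROOF.  Strong induction on the length of `u`.  `u = []`: `1 * _`.  `u = [i]`: if `w = []` both sides are `x i`; if `w = j :: w'` then `j ≠ i` by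
hypothesis and the second term of the definition is `0`.  `u = i :: j :: u'`: `u ++ w = i :: j :: (u' ++ w)`, use the induction hypothesis for `j :: u'` and for
`u'` (same last letter as `u` if `u' ≠ []`, no condition if `u' = []`) and `sub_mul`, `mul_assoc`. -/
def Stmt_WPM : Prop := ∀ (N : ℕ) (R : Type) [Ring R] (x : Fin N → R) (u w : List (Fin N)),
  (∀ i, u.getLast? = some i → w.head? ≠ some i) → Pw x (u ++ w) = Pw x u * Pw x w

/-- BLOCK WMP (uses nothing): functoriality.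
PROOF.  Induction along the recursions; `List.replicate`: `replicate (n + 2) i = i :: i :: replicate n i`; (4) `v * v' = 1`, `v' * v = 1`. -/
def Stmt_WMP : Prop :=
  (∀ (N : ℕ) (R S : Type) [Ring R] [Ring S] (f : R →+* S) (x : Fin N → R) (w : List (Fin N)),
    f (Pw x w) = Pw (fun i => f (x i)) w) ∧
  (∀ (N : ℕ) (R : Type) [Ring R] (x : Fin N → R) (i : Fin N) (n : ℕ),
    Pw x (List.replicate n i) = Sn (x i) n) ∧
  (∀ (R S : Type) [Ring R] [Ring S] (f : R →+* S) (x : R) (n : ℕ), f (Sn x n) = Sn (f x) n) ∧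
  (∀ (R : Type) [Ring R] (x v v' : R) (n : ℕ), v * v' = 1 → v' * v = 1 →
    Sn (v * x * v') n = v * Sn x n * v') ∧
  (∀ (N M : ℕ) (R : Type) [Ring R] (e : Fin N → Fin M), Function.Injective e →
    ∀ (x : Fin M → R) (w : List (Fin N)), Pw x (w.map e) = Pw (fun i => x (e i)) w)

/-- BLOCK WVC (uses BAS): Wick words in the semicircular operators.
PROOF.  Strong induction on the length of `u`.  `u = [i]`: `s_{e i} δ_v = δ_{e i :: v} + l*_{e i} δ_v` and the last term is `0` because `v = []` or the first letter of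
`v` is not `e i` (BAS (3), (4)).  `u = i :: j :: u'`: the induction hypothesis gives
`s_{e i} δ_{e j :: u'.map e ++ v} - [j = i] δ_{u'.map e ++ v}`, and `s_{e i} δ_{e j :: x} = δ_{e i :: e j :: x} + [e i = e j] δ_x`; `e` is injective. -/
def Stmt_WVC : Prop := ∀ (N M : ℕ) (e : Fin N → Fin M), Function.Injective e →
  ∀ (u : List (Fin N)) (v : List (Fin M)),
  (∀ i, u.getLast? = some i → v.head? ≠ some (e i)) →
  Pw (fun i => (sc (e i) : Fk M →L[ℂ] Fk M)) u (bs v) = bs (u.map e ++ v)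

/-- BLOCK WSP (uses nothing): the Wick words span the algebra.
PROOF.  `V` = the span.  `x i * V ⊆ V` because `x i * 1 = P_[i]` and `x i * P_(j :: w) = P_(i :: j :: w) + [j = i] P_w` (`Submodule.span_induction`).  So
`a * V ⊆ V` for all `a` in the subalgebra (`Algebra.adjoin_induction`), and `1 = P_[] ∈ V`. -/
def Stmt_WSP : Prop := ∀ (N : ℕ) (R : Type) [Ring R] [Algebra ℂ R] (x : Fin N → R) (z : R),
  z ∈ Algebra.adjoin ℂ (Set.range x) → z ∈ Submodule.span ℂ (Set.range (Pw x))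

/-! ## B. The universal property -/

/-- BLOCK UPA (uses WMP, WVC, WSP, BAS): equality of moments.
PROOF.  The generators `g_i = (s_i, y_i)` are self-adjoint, so the star subalgebra generated by them is `Algebra.adjoin ℂ (range g)` (`StarAlgebra.adjoin_toSubalgebra`: the
adjoin of `range g ∪ star (range g)`), and by WSP `z` is in the span of the `Pw g w = (Pw sc w, Pw y w)` (WMP (1) for the projections `RingHom.fst`, `RingHom.snd`).  (1) Both sides are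
linear in `z`: `1 = 1` for `w = []` (`‖Ω‖ = 1`), and `0 = 0` for `w ≠ []` (WVC with `e = id`, `v = []`: `Pw sc w Ω = δ_w`, orthogonal to `Ω`; `Semi`).  (2), (3): the projections map the
adjoin into the adjoin of the images (`StarSubalgebra.map`/`StarAlgHom.map_adjoin` or `StarAlgebra.adjoin_induction`). -/
def Stmt_UPA : Prop := ∀ (N l : ℕ) (y : Fin N → (Fk l →L[ℂ] Fk l)), Semi y →
  ∀ z : (Fk N →L[ℂ] Fk N) × (Fk l →L[ℂ] Fk l),
  z ∈ StarAlgebra.adjoin ℂ (Set.range (fun i : Fin N => ((sc i : Fk N →L[ℂ] Fk N), y i))) →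
  tau z.1 = tau z.2 ∧ z.1 ∈ Alg N ∧ z.2 ∈ Alg l

/-- BLOCK UPB (uses BAS, CYC, ALC): a norm estimate.
PROOF.  Let `z ∈ Alg l`, `ξ = z Ω`.  By the trace property (ALC (3)) `‖T^n z Ω‖² = τ((T^n z)* (T^n z)) = τ((T^n z) (T^n z)*) = ‖z* T^n Ω‖² ≤ ‖z‖² ‖T^n Ω‖²` (`star (T^n) = T^n`), so
`‖T^n ξ‖ ≤ ‖z‖ C^n`.  `‖T^m ξ‖² = ⟪T^(2m) ξ, ξ⟫ ≤ ‖T^(2m) ξ‖ ‖ξ‖` (`T` self-adjoint), so by induction `‖T ξ‖^(2^m) ≤ ‖T^(2^m) ξ‖ ‖ξ‖^(2^m - 1)`
`≤ ‖z‖ C^(2^m) ‖ξ‖^(2^m - 1)` for all `m`: hence `‖T ξ‖ ≤ C ‖ξ‖` (otherwise `(‖T ξ‖ / (C ‖ξ‖))^(2^m) → ∞`, or `C = 0` and `T ξ = 0`).  The vectors `ξ = z Ω` are dense (CYC, BAS (6):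
they form a subspace which contains all `bs w`), so `‖T‖ ≤ C` (`ContinuousLinearMap.opNorm_le_bound`, closedness). -/
def Stmt_UPB : Prop := ∀ (l : ℕ) (T : Fk l →L[ℂ] Fk l) (C : ℝ), T ∈ Alg l → star T = T → 0 ≤ C →
  (∀ n : ℕ, ‖(T ^ n) (vac l)‖ ≤ C ^ n) → ‖T‖ ≤ C

/-- BLOCK UPR (uses UPA, UPB): the universal property of free semicircular families.
PROOF.  Let `G` be the star subalgebra of UPA.  (a) For `z = (a, b) ∈ G`: `‖b‖ ≤ ‖a‖`.  `T = b* b`: `(a* a, b* b)^n ∈ G`, so `‖T^n Ω‖² = τ((b* b)^(2n)) = τ((a* a)^(2n)) ≤ ‖a* a‖^(2n)`, and UPB with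
`C = ‖a* a‖ = ‖a‖²` gives `‖b‖² = ‖b* b‖ ≤ ‖a‖²`.  (b) For `a ∈ Alg N` there is exactly one `b` with `(a, b)` in the closure `G'` of `G`, and `b ∈ Alg l`: the inequality `‖b‖ ≤ ‖a‖` holds on `G'`
(limits), which gives uniqueness (`G'` is a subspace); existence: `a = lim a_n` with `a_n` in the star algebra generated by the `s_i`, choose `b_n` with `(a_n, b_n) ∈ G` (the first projection of
`G` is this star algebra: `StarAlgHom.map_adjoin` or `StarAlgebra.adjoin_induction`); `b_n` is Cauchy because `‖b_n - b_m‖ ≤ ‖a_n - a_m‖`; `Alg l` is closed.  (c) `φ(a) = b`: a unital `*`-homomorphism because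
`G'` (`StarSubalgebra.topologicalClosure`) is a star subalgebra and by uniqueness.  `(s_i, y_i) ∈ G`, and `τ(a) = τ(b)` on `G'` by continuity. -/
def Stmt_UPR : Prop := ∀ (N l : ℕ) (y : Fin N → (Fk l →L[ℂ] Fk l)), Semi y →
  ∃ φ : Alg N →⋆ₐ[ℂ] Alg l, (∀ i, (φ (ge i) : Fk l →L[ℂ] Fk l) = y i) ∧
    ∀ x : Alg N, tau (φ x : Fk l →L[ℂ] Fk l) = tau (x : Fk N →L[ℂ] Fk N)

/-- BLOCK EXT (uses nothing): homomorphisms and their values on the generators.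
PROOF.  `Alg N` and `Alg l` are C*-algebras (closed star subalgebras of `B(H)`: `StarSubalgebra.cstarAlgebra` with the instance `IsClosed`, see the landed file `MP_118406_si/B_IMP.lean`), so
`*`-homomorphisms are contractive (`NonUnitalStarAlgHom.norm_apply_le`).  (3) The set of the `x` with `t ↦ f t x` continuous contains the `ge i`, is a star subalgebra and closed (uniform limits: `‖f t x - f t x'‖ ≤ ‖x - x'‖`), so
it is everything: `Alg N` is the topological closure of the adjoin (induction over the closure: write `x ∈ Alg N` as the limit of elements of the adjoin, and for these `StarAlgebra.adjoin_induction`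
with the predicate `∀ h : x ∈ Alg N, Continuous (fun t => f t ⟨x, h⟩)`).  (1) the same argument (or (3) with `X` an indiscrete space). (4) the same for the values. -/
def Stmt_EXT : Prop := ∀ N l : ℕ,
  (∀ φ ψ : Alg N →⋆ₐ[ℂ] Alg l, (∀ i, φ (ge i) = ψ (ge i)) → φ = ψ) ∧
  (∀ (φ : Alg N →⋆ₐ[ℂ] Alg l) (x : Alg N), ‖φ x‖ ≤ ‖x‖) ∧
  (∀ (X : Type) [TopologicalSpace X] (f : X → (Alg N →⋆ₐ[ℂ] Alg l)),
    (∀ i, Continuous (fun t => f t (ge i))) → ∀ x, Continuous (fun t => f t x)) ∧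
  (∀ (φ : Alg N →⋆ₐ[ℂ] Alg l) (S : StarSubalgebra ℂ (Fk l →L[ℂ] Fk l)),
    IsClosed (S : Set (Fk l →L[ℂ] Fk l)) → (∀ i, (φ (ge i) : Fk l →L[ℂ] Fk l) ∈ S) →
    ∀ x, (φ x : Fk l →L[ℂ] Fk l) ∈ S)

/-- BLOCK TRA (uses ALC, UTF, EXT): homomorphisms preserve the vacuum state.
PROOF.  `σ(x) = τ(φ x)` is a linear functional with `|σ(x)| ≤ ‖x‖` (EXT (2)), `σ(1) = 1`, `σ(x y) = σ(y x)` (ALC (3)): UTF. -/
def Stmt_TRA : Prop := ∀ k l : ℕ, 2 ≤ k → ∀ φ : Alg k →⋆ₐ[ℂ] Alg l, ∀ x : Alg k,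
  tau (φ x : Fk l →L[ℂ] Fk l) = tau (x : Fk k →L[ℂ] Fk k)

/-! ## C. Freeness -/

/-- BLOCK GEX (uses BAS): freeness of a part of the generators from the others (compare the landed `MP_118406_si/B_FEX.lean`).
PROOF.  Let `w` be a word whose first letter (if any) does not satisfy `p`, `R_w` the isometry `δ_u ↦ δ_(u ++ w)`.  If `p j` then `s_j R_w = R_w s_j` (check on the basis), so `x R_w = R_w x` for
`x ∈ AG p`; `x δ_w = R_w x Ω`, and `x Ω` is supported on the words in the letters `i` with `p i` (a closed subspace, mapped into itself by these `s_j`), with coefficient `τ(x)` at `[]`.  So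
`x δ_w - τ(x) δ_w = R_w (x Ω - τ(x) Ω)` is supported on words which start with a letter `i`, `p i`.  For `ξ ∈ Hm p`: `ξ = ∑ ξ(w) δ_w` (`lp.hasSum_single`) over such words; the coordinates
are continuous. -/
def Stmt_GEX : Prop := ∀ (N : ℕ) (p : Fin N → Prop) (x : Fk N →L[ℂ] Fk N), x ∈ AG p →
  ∀ ξ ∈ Hm p, x ξ - tau x • ξ ∈ Hp p

/-- BLOCK GCR (uses WPM): the criterion for free families.
PROOF.  Strong induction on the length of `i :: w`.  Let `u = i :: w.takeWhile (g · = g i)`, `w' = w.dropWhile (g · = g i)`, `i :: w = u ++ w'`; all letters of `u` are in the group `g i`.  `w' = []`: the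
hypothesis with `ξ = o`.  `w' = j :: w''`, `g j ≠ g i`: the last letter of `u` is not `j`, so `P_(i :: w) o = P_u (P_w' o)` (WPM), `P_w' o ∈ K (g j)` by the induction
hypothesis, and the hypothesis for `u`.  (Use `classical` for the decidability of `g · = g i`.) -/
def Stmt_GCR : Prop := ∀ (N : ℕ) (H : Type) [NormedAddCommGroup H] [InnerProductSpace ℂ H]
  (o : H) (y : Fin N → (H →L[ℂ] H)) (Γ : Type) (g : Fin N → Γ) (K : Γ → Set H),
  (∀ (c : Γ) (u : List (Fin N)), u ≠ [] → (∀ i ∈ u, g i = c) →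
    ∀ ξ : H, (ξ = o ∨ ∃ c', c' ≠ c ∧ ξ ∈ K c') → Pw y u ξ ∈ K c) →
  ∀ (i : Fin N) (w : List (Fin N)), Pw y (i :: w) o ∈ K (g i)

/-- BLOCK CEN (uses WMP, WVC, BAS): elementary facts.
PROOF.  (1) `S_n(s_i) Ω = P_(replicate n i)(s) Ω = δ_(replicate n i)` (WMP (2), WVC with `e = id`, `v = []`), orthogonal to `Ω`.  (2) `Λ` is a ring homomorphism: `S_n(Λ h) = Λ (S_n(h))` (WMP (3)) and
`S_n(Q ∘ g) = S_n(Q) ∘ g` (precomposition is a ring homomorphism), so for `n ≥ 1` `τ(S_n(Λ (Q ∘ g))) = lint(S_n(Q) ∘ g) = lint(S_n(Q)) = τ(S_n(s_i)) = 0`.  (3) definitions: if `ξ` is supported on words with first letter `j ≠ i`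
then it is in `Hm (· = i)`; `Ω ∈ Hm p`.  (4) the coefficient of `ξ` at `[]`.  (5) `AG p ≤ Alg N` (monotonicity of `adjoin` and of the closure). -/
def Stmt_CEN : Prop :=
  (∀ (l : ℕ) (i : Fin l) (n : ℕ), 0 < n → tau (Sn (sc i : Fk l →L[ℂ] Fk l) n) = 0) ∧
  (∀ (l : ℕ) (i : Fin l) (Q : C(I, ℂ)) (Λ : C(I, ℂ) →⋆ₐ[ℂ] (Fk l →L[ℂ] Fk l)) (g : C(I, I)),
    Coord i Q Λ → LP g → ∀ n : ℕ, Sn (Λ (Q.comp g)) n = Λ ((Sn Q n).comp g) ∧
      (0 < n → tau (Λ ((Sn Q n).comp g)) = 0)) ∧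
  (∀ (N : ℕ) (p q : Fin N → Prop), (∀ i, p i → ¬ q i) → Hp p ⊆ Hm q) ∧
  (∀ (N : ℕ) (p : Fin N → Prop), vac N ∈ Hm p) ∧
  (∀ (N : ℕ) (p : Fin N → Prop), ∀ ξ ∈ Hp p, ⟪vac N, ξ⟫_ℂ = 0) ∧
  (∀ (N : ℕ) (p : Fin N → Prop), AG p ≤ Alg N) ∧
  (∀ (N : ℕ) (p : Fin N → Prop) (i : Fin N), p i → (sc i : Fk N →L[ℂ] Fk N) ∈ AG p)

/-! ## D. Interval maps and the coordinate of a semicircular operator -/

/-- BLOCK LAM (uses BAS, SCM): the coordinate.
PROOF.  The landed file `MP_118406_si/B_HAA.lean` (import it) has `HAA_g x = 2 arccos (x/2) - sin (2 arccos (x/2))`, `HAA_g_cont`, `HAA_g_cos : HAA_g (2 cos θ) = 2 θ - sin (2 θ)` on `[0, π]`, and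
`HAA_mom : ⟪Ω, cfc f s_i Ω⟫ = (2/π) ∫_0^π f(2 cos θ) sin² θ dθ` for continuous real `f` (`HAA_c`, functional calculus over `ℂ` of `z ↦ f (re z)`).  `G(θ) = (2 θ - sin 2θ)/(2π)` has `G' = (2/π) sin² θ > 0` on `(0, π)`,
`G(0) = 0`, `G(π) = 1`: a strictly increasing bijection `[0, π] → [0, 1]`, and `F(x) = HAA_g x / (2π)` satisfies `F(2 cos θ) = G(θ)`: `F` is a continuous bijection `[-2, 2] → [0, 1]`, so a homeomorphism
(`Continuous.homeoOfEquivCompactToT2`); `Q` = its inverse, `Q(F x) = x` on `[-2, 2]`.  `Λ(h) = cfc (z ↦ h (proj (F (re z)))) s_i`, as a star homomorphism: `cfcHom` composed with the precomposition `ContinuousMap.compStarAlgHom'` with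
the map `spectrum ℂ s_i → I`, `z ↦ proj (F (re z))` (the spectrum is real and in `[-2, 2]`, `HAA_spec`).  `Λ Q = s_i` because `Q (F (re z)) = z` on the spectrum (`cfcHom_id`); the range of `cfcHom` is in the closed star algebra
generated by `s_i` (`cfcHom_mem_elemental`/`cfc_mem_elemental`).  `τ(Λ h) = (2/π) ∫_0^π h(G θ) sin² θ dθ = ∫_0^π h(G θ) G'(θ) dθ = ∫_0^1 h` (real and imaginary part by `HAA_mom`; substitution
`intervalIntegral.integral_comp_mul_deriv`). -/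
def Stmt_LAM : Prop := ∃ Q : C(I, ℂ), ∀ (l : ℕ) (i : Fin l),
  ∃ Λ : C(I, ℂ) →⋆ₐ[ℂ] (Fk l →L[ℂ] Fk l), Coord i Q Λ

/-- BLOCK ZIG (uses nothing): the zigzag map.
PROOF.  `Z(t) = arccos (cos (2 π n t)) / π`, continuous, `Z(0) = 0`.  On an interval `[j/n, (j+1)/n]` it is the tent map: with `x = n t - j`, `Z = 2 x` for `x ≤ 1/2`, `= 2 - 2 x` for `x ≥ 1/2` (`Real.arccos_cos`), so
`∫_{j/n}^{(j+1)/n} h(Z) = (1/n) (∫_0^{1/2} h(2x) dx + ∫_{1/2}^1 h(2 - 2x) dx) = (1/n) ∫_0^1 h`.  (Or: `t ↦ h(Z(t))` is `B(n t)` with `B(x) = h(arccos (cos 2πx) / π)` of period `1`: `∫_0^1 B(n t) dt = (1/n) ∫_0^n B = ∫_0^1 B`,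
`Function.Periodic.intervalIntegral_add_eq`.)  (3) `f(t) = exp(2 π i m t) B(n t)` satisfies `f(t + 1/n) = ζ f(t)`, `ζ = exp(2 π i m / n) ≠ 1`, `f` has period `1` (as a function on `ℝ`): `∫_0^1 f = ∫_{1/n}^{1+1/n} f = ζ ∫_0^1 f`, so it is `0`. -/
def Stmt_ZIG : Prop := ∀ n : ℕ, 0 < n → ∃ Z : C(I, I), Z 0 = 0 ∧ LP Z ∧
  ∀ m : ℤ, ¬ (n : ℤ) ∣ m → ∀ h : C(I, ℂ), lint (em m * h.comp Z) = 0

/-- BLOCK ALX (uses nothing): the Alexander trick.
PROOF.  `g_r(t) = t` for `t ≤ 1 - r`, `g_r(t) = 1 - r + r Z((t - 1 + r)/r)` for `t ≥ 1 - r` (for `r = 0` only `t`); in one formula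
`g_r(t) = min t (1 - r) + r Z(proj (max (t - 1 + r) 0 / r))` (`Z 0 = 0`, division by `0` is `0`).  Values in `[0, 1]`.  Jointly continuous in `(r, t)`: at points with `r > 0` clear; at `r = 0` because
`|r Z(..)| ≤ r` (squeeze).  So `r ↦ g_r` is continuous into `C(I, I)` (`ContinuousMap.curry`).  `g_0 = id`, `g_1 = Z`.  For `r > 0`: `∫_0^1 h(g_r) = ∫_0^{1-r} h(t) dt + r ∫_0^1 h(1 - r + r Z(x)) dx`
`= ∫_0^{1-r} h + r ∫_0^1 h(1 - r + r x) dx = ∫_0^1 h` (`LP Z` for the function `x ↦ h(1 - r + r x)`; substitution `intervalIntegral.integral_comp_mul_add` or similar). -/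
def Stmt_ALX : Prop := ∀ Z : C(I, I), Z 0 = 0 → LP Z → ∃ G : C(I, C(I, I)),
  (∀ t, G 0 t = t) ∧ (∀ t, G 1 t = Z t) ∧ ∀ r, LP (G r)

/-! ## E. The families -/

/-- BLOCK ICL (uses WVC, BAS, UPR): the inclusions.
PROOF.  `P_w(s ∘ e) Ω = δ_(w.map e)` (WVC, `v = []`) is orthogonal to `Ω`.  (2) UPR with `e = Fin.castAdd k`. -/
def Stmt_ICL : Prop :=
  (∀ (N M : ℕ) (e : Fin N → Fin M), Function.Injective e →
    Semi (fun i : Fin N => (sc (e i) : Fk M →L[ℂ] Fk M))) ∧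
  ∀ k l : ℕ, ∃ ι : Alg l →⋆ₐ[ℂ] Alg (l + k), Incl ι

/-- BLOCK PHI (uses WMP, GEX, GCR, CEN, BAS): the shrinking families.
PROOF.  In `Alg l` by CEN (6), self-adjoint because `Q` is real and `star (Λ h) = Λ (star h)`.  GCR with `Γ = Fin l`, `g = id`, `K i = Hp (· = i)`: a nonempty word in the letter `i` only is `replicate n i`, `n ≥ 1`, and `P = S_n(y_i)` (WMP (2)), an
element of `AG (· = i)` with `τ = 0` (CEN (1), (2)); `ξ = Ω` or `ξ ∈ Hp (· = j)`, `j ≠ i`, is in `Hm (· = i)` (CEN (3), (4)), so `S_n(y_i) ξ ∈ Hp (· = i)` by GEX.  Then `τ(P_w(y)) = 0` by CEN (5). -/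
def Stmt_PHI : Prop := ∀ (l : ℕ) (i₂ : Fin l) (Q : C(I, ℂ))
  (Λ : C(I, ℂ) →⋆ₐ[ℂ] (Fk l →L[ℂ] Fk l)) (g : C(I, I)), Coord i₂ Q Λ → LP g →
  Semi (fam i₂ (Λ (Q.comp g)))

/-- BLOCK BET (uses WMP, GEX, GCR, CEN, BAS): the family with room for `k` new semicirculars.
PROOF.  `v_m = Λ (em m)` (`m ∈ ℤ`): `v_m v_m' = v_(m+m')`, `v_m* = v_(-m)`, `v_0 = 1`, and by hypothesis `τ(v_m Λ(h ∘ Z)) = lint(em m * h ∘ Z) = 0` for `0 < |m| ≤ k`, all `h`, in particular `τ(v_m) = 0`.  For the letter `T = castAdd i` let `(p, b) = (0, i)`, for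
`T = natAdd j` let `(p, b) = (j + 1, i₁)`; for `T ≠ castAdd i₂` the family is `v_p s_b v_p*`, `b ≠ i₂`, and `K T = {ξ | v_(-p) ξ ∈ Hp (· = b)}`; `K (castAdd i₂) = {ξ | ∀ p ≤ k, v_(-p) ξ ∈ Hp (· = i₂)}`.  GCR with `Γ = Fin (l + k)`, `g = id`.
Words in one letter `T`: `replicate n T`, `n ≥ 1`, `P = S_n(y_T)` (WMP (2)).  (i) `T ≠ castAdd i₂`: `S_n(y_T) = v_p S_n(s_b) v_(-p)` (WMP (4)); to show `S_n(s_b) v_(-p) ξ ∈ Hp (· = b)`: by GEX (`τ(S_n(s_b)) = 0`) it is enough that `v_(-p) ξ ∈ Hm (· = b)`.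
`ξ = Ω`: `p = 0` clear, `p > 0`: `v_(-p) Ω ∈ Hp (· = i₂) ⊆ Hm (· = b)` (GEX, `τ(v_(-p)) = 0`).  `ξ ∈ K (castAdd i₂)`: `v_(-p) ξ ∈ Hp (· = i₂)`.  `ξ ∈ K T'`, `ξ = v_p' η`, `η ∈ Hp (· = b')`, `b' ≠ i₂`: if `p' = p` then `b' ≠ b` (as `T' ≠ T`; for `p = p' ≥ 1` the letters are
equal) and `v_(-p) ξ = η`; if `p' ≠ p` then `v_(p'-p) η ∈ Hp (· = i₂)` by GEX.  (ii) `T = castAdd i₂`: `v_(-p) S_n(Λ(Q ∘ Z)) ξ`: `ξ = Ω`, or `ξ = v_p' η`, `η ∈ Hp (· = b')`, `b' ≠ i₂`: the element `v_(-p) S_n(Λ(Q ∘ Z)) v_p' = Λ(em (p' - p) * S_n(Q) ∘ Z)` has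
`τ = 0` (CEN (2) if `p' = p`, the hypothesis if not), so GEX.  `K T ⟂ Ω`: for `T ≠ castAdd i₂`: `⟪Ω, ξ⟫ = ⟪v_(-p) Ω, v_(-p) ξ⟫` (`v_(-p)` unitary), `v_(-p) Ω ∈ Hp (· = i₂)` or `= Ω`, `v_(-p) ξ ∈ Hp (· = b)`: supports disjoint; for `castAdd i₂` use `p = 0`.
Membership in `Alg l` and self-adjointness as in PHI. -/
def Stmt_BET : Prop := ∀ (l k : ℕ) (i₁ i₂ : Fin l) (Q : C(I, ℂ))
  (Λ : C(I, ℂ) →⋆ₐ[ℂ] (Fk l →L[ℂ] Fk l)) (Z : C(I, I)), i₁ ≠ i₂ → Coord i₂ Q Λ → LP Z →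
  (∀ m : ℤ, ¬ ((k + 1 : ℕ) : ℤ) ∣ m → ∀ h : C(I, ℂ), lint (em m * h.comp Z) = 0) →
  Semi (bet k i₁ i₂ (Λ (Q.comp Z)) (fun j : ℕ => Λ (em j)))

/-- BLOCK PSI (uses WMP, WVC, EXT, GEX, GCR, CEN, BAS): the family `φ(s_1), .., φ(s_k), s_(l+1), .., s_(l+k)`.
PROOF.  GCR with `Γ = Bool`, `g (castAdd j) = true`, `g (natAdd j) = false`, `K true = Hp p`, `K false = Hp q`, `p i` = `∃ j : Fin l, i = castAdd k j`, `q i` = `∃ j : Fin k, i = natAdd l j` (no letter has both, every letter has one: `Fin.addCases`).  A nonempty word in the letters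
`castAdd` is `u.map (castAdd k)`, and `P = P_u(ι φ s) = ι(φ(P_u(ge)))` (WMP (5), (1), `Fin.append_left`), `τ = τ(P_u(s)) = 0` (`hφ`, `Incl` (2), WMP (1) for the coercion `Alg k → B(Fk k)`, WVC), and it is in `AG p` (EXT (4) for `ι`).  A nonempty word in the letters `natAdd`
is `u.map (natAdd k)`, `P = P_u(s ∘ natAdd l)`, in `AG q`, `τ = 0` by WVC.  GEX, CEN (3), (4), (5).  Self-adjoint: `star (φ x) = φ (star x)`. -/
def Stmt_PSI : Prop := ∀ (k l : ℕ) (φ : Alg k →⋆ₐ[ℂ] Alg l) (ι : Alg l →⋆ₐ[ℂ] Alg (l + k)),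
  (∀ x : Alg k, tau (φ x : Fk l →L[ℂ] Fk l) = tau (x : Fk k →L[ℂ] Fk k)) → Incl ι →
  Semi (Fin.append (fun j : Fin k => (ι (φ (ge j)) : Fk (l + k) →L[ℂ] Fk (l + k)))
    (fun j : Fin k => (sc (Fin.natAdd l j) : Fk (l + k) →L[ℂ] Fk (l + k))))

/-- BLOCK ROT (uses BAS): rotations.
PROOF.  `L_j = cos t • lc (castAdd j) + sin t • lc (natAdd j)`: `L_i* L_j = δ_ij` (BAS (1): `lc a* lc b = δ_ab`), `L_j* Ω = 0`, `y_j = L_j + L_j*`.  By strong induction on the length `P_w(y) Ω = L_(w_1) .. L_(w_n) Ω` (`= (w.map L).prod Ω`):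
`P_(i :: j :: w) Ω = y_i L_j L_w Ω - [j = i] L_w Ω` and `y_i L_j L_w Ω = L_i L_j L_w Ω + δ_ij L_w Ω`.  For `w ≠ []` `⟪Ω, L_i ..⟫ = ⟪L_i* Ω, ..⟫ = 0`. -/
def Stmt_ROT : Prop := ∀ (k : ℕ) (t : ℝ),
  Semi (fun j : Fin k => ((Real.cos t : ℝ) : ℂ) • (sc (Fin.castAdd k j) : Fk (k + k) →L[ℂ] Fk (k + k)) +
    ((Real.sin t : ℝ) : ℂ) • sc (Fin.natAdd k j))

/-! ## F. The contraction -/

/-- BLOCK PHP (uses UPR, EXT, LAM, ZIG, ALX, PHI, BET): the path of endomorphisms.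
PROOF.  `Q`, `Λ` from LAM for `i₂ = 1`, `Z` from ZIG with `n = k + 1`, `G` from ALX.  `Φ r` = the homomorphism of UPR for the family `fam i₂ (Λ (Q ∘ G r))` (PHI).  `r ↦ Φ r (ge i)` is constant for `i ≠ i₂` and `Λ (Q ∘ G r)` for `i = i₂`, continuous since `r ↦ Q ∘ G r ∈ C(I, ℂ)` is
(`ContinuousMap.continuous_postcomp`) and `Λ` is contractive; EXT (3).  `Φ 0 = id` by EXT (1) (`Q ∘ G 0 = Q`, `Λ Q = s_{i₂}`).  `β` = UPR for BET with `i₁ = 0`; `β (ge (castAdd i)) = fam i₂ (Λ (Q ∘ Z)) i = Φ 1 (ge i)`. -/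
def Stmt_PHP : Prop := ∀ k l : ℕ, 2 ≤ l → ∃ (Φ : I → (Alg l →⋆ₐ[ℂ] Alg l))
  (β : Alg (l + k) →⋆ₐ[ℂ] Alg l), (∀ x, Continuous (fun r => Φ r x)) ∧
  Φ 0 = StarAlgHom.id ℂ (Alg l) ∧ ∀ i, β (ge (Fin.castAdd k i)) = Φ 1 (ge i)

/-- BLOCK RTP (uses UPR, ICL, PSI, ROT): the rotated homomorphisms.
PROOF.  `ι` from ICL (2); `Ψ_φ : Alg (k + k) → Alg (l + k)` from UPR for PSI; `R_t : Alg k → Alg (k + k)` from UPR for ROT; `R t φ = Ψ_φ ∘ R_t` if `φ` preserves `τ` (otherwise anything, for example `ι ∘ φ`).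
`R_t (ge j) = cos t • ge (castAdd j) + sin t • ge (natAdd j)` (`Subtype.ext`), then apply `Ψ_φ` (`Fin.append_left`, `Fin.append_right`). -/
def Stmt_RTP : Prop := ∀ k l : ℕ, ∃ (ι : Alg l →⋆ₐ[ℂ] Alg (l + k))
  (R : ℝ → (Alg k →⋆ₐ[ℂ] Alg l) → (Alg k →⋆ₐ[ℂ] Alg (l + k))),
  (∀ i, ι (ge i) = ge (Fin.castAdd k i)) ∧
  ∀ (t : ℝ) (φ : Alg k →⋆ₐ[ℂ] Alg l),
    (∀ x : Alg k, tau (φ x : Fk l →L[ℂ] Fk l) = tau (x : Fk k →L[ℂ] Fk k)) →
    ∀ j : Fin k, R t φ (ge j) =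
      ((Real.cos t : ℝ) : ℂ) • ι (φ (ge j)) + ((Real.sin t : ℝ) : ℂ) • ge (Fin.natAdd l j)

/-- BLOCK HTP (uses EXT, TRA, PHP, RTP): the homotopy.
PROOF.  `Φ`, `β` from PHP, `ι`, `R` from RTP; `β ∘ ι = Φ 1` (EXT (1)).  `h(r, φ) = Φ (2 r) ∘ φ` for `r ≤ 1/2` (`2 r` projected to `I`), `= β ∘ R (π (2 r - 1)/2) φ` for `r ≥ 1/2`.  On `ge j`: `Φ (2r) (φ (ge j))`, resp. `cos(..) • Φ 1 (φ (ge j)) + sin(..) • β (ge (natAdd l j))`
(TRA gives the hypothesis of RTP), equal for `r = 1/2`.  Continuity: `φ ↦ φ (ge j)` is continuous by definition of the topology; `(r, x) ↦ Φ r x` is jointly continuous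
(`‖Φ r x - Φ r' x'‖ ≤ ‖x - x'‖ + ‖Φ r x' - Φ r' x'‖`, EXT (2)); `Continuous.if_le`; EXT (3) with `X = I × HomS k l`, and `continuous_induced_rng`, `continuous_pi`.  `h(0, φ) = φ`; `h(1, φ)` has the values `β (ge (natAdd l j))` on `ge j`, which do not depend on `φ`, so
`h(1, φ) = φ₀ = h(1, φ₁)` (EXT (1)). -/
def Stmt_HTP : Prop := ∀ k l : ℕ, 2 ≤ k → 2 ≤ l → ∀ _φ₁ : HomS k l,
  ∃ (h : I × HomS k l → HomS k l) (φ₀ : HomS k l), Continuous h ∧ (∀ φ, h (0, φ) = φ) ∧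
    ∀ φ, h (1, φ) = φ₀

/-- BLOCK FIN (uses UPR, ICL, PHP, HTP): the theorem.
PROOF.  `HomS k l` is not empty: `β ∘ κ` with `β` from PHP, `κ : Alg k → Alg (l + k)` from UPR for the family `s ∘ natAdd l` (ICL (1)).  (1) `contractible_iff_id_nullhomotopic` (`ContinuousMap.Homotopy` from the identity to the constant map `φ₀`, from HTP).
(2) a contractible space is path connected: `Joined` for any two points; `g` = any element of `HomS l k`. -/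
def Stmt_FIN : Prop := ∀ k l : ℕ, 2 ≤ k → 2 ≤ l →
  ContractibleSpace (HomS k l) ∧
  ∀ f : HomS k l, ∃ g : HomS l k, Joined (HomS.comp g f) (HomS.one k) ∧
    Joined (HomS.comp f g) (HomS.one l)

end Pool.HC
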